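import Pool.Agent.Lib.MP_7cad78_nt.NF.Q

/-! Finite field facts: roots of the quartic of a point, fibre counts. -/

namespace Pool.Agent.Lib.MP_7cad78_nt.NF

open Q4

variable {k : Type*} [Field k]

/-- a root of the quartic of `P` gives a point whose tangent passes through `-P` -/
lemma half_of_root (h2 : (2 : k) ≠ 0) {A B x y l : k} (h : y ^ 2 = x ^ 3 + A * x + B)
    (hl : (pt A x y).ev l 1 = 0) :
    ∃ x1 y1 : k, y1 ^ 2 = x1 ^ 3 + A * x1 + B ∧
      x * (4 * (x1 ^ 3 + A * x1 + B)) = x1 ^ 4 - 2 * A * x1 ^ 2 - 8 * B * x1 + A ^ 2 := by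
  obtain ⟨x1, hx1⟩ : ∃ x1, 2 * x1 = l ^ 2 - x := ⟨(l ^ 2 - x) / 2, by field_simp⟩
  simp only [ev, pt] at hl
  have hx : x = l ^ 2 - 2 * x1 := by linear_combination hx1
  have h4 : (4 : k) ≠ 0 := by
    have : (4 : k) = 2 * 2 := by norm_num
    rw [this]; exact mul_ne_zero h2 h2
  have hA : A = -(3 * x1 ^ 2) + 2 * l * (-y + l * (x1 - x)) := by
    apply mul_left_cancel₀ h4
    subst hx
    linear_combination -hl
  have hB : B = y ^ 2 - x ^ 3 - A * x := by linear_combination -h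
  refine ⟨x1, -y + l * (x1 - x), ?_, ?_⟩
  · subst hB; rw [hA]; subst hx; ring
  · subst hB; rw [hA]; subst hx; ring

lemma two_roots (h2 : (2 : k) ≠ 0) {A B x y l m : k} (h : y ^ 2 = x ^ 3 + A * x + B)
    (hl : (pt A x y).ev l 1 = 0) (hm : (pt A x y).ev m 1 = 0) (hne : l ≠ m) :
    ∃ t : k, t ^ 3 + A * t + B = 0 := by
  obtain ⟨s, hs⟩ : ∃ s, 2 * s = l + m := ⟨(l + m) / 2, by field_simp⟩
  have hm' : m = 2 * s - l := by linear_combination -hs
  subst hm'
  simp only [ev, pt] at hl hm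
  have h4 : (4 : k) ≠ 0 := by
    have : (4 : k) = 2 * 2 := by norm_num
    rw [this]; exact mul_ne_zero h2 h2
  have h8 : (8 : k) ≠ 0 := by
    have : (8 : k) = 4 * 2 := by norm_num
    rw [this]; exact mul_ne_zero h4 h2
  have hls : l - s ≠ 0 := fun h0 => hne (by linear_combination 2 * h0)
  have hy : 2 * y = s ^ 3 + s * (l - s) ^ 2 - 3 * x * s := by
    apply mul_left_cancel₀ (mul_ne_zero h8 hls)
    linear_combination (-1 : k) * hl + hm
  have hA : 4 * A = s ^ 4 + 6 * s ^ 2 * (l - s) ^ 2 + (l - s) ^ 4 - 6 * x * (s ^ 2 + (l - s) ^ 2) -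
      4 * s * (s ^ 3 + s * (l - s) ^ 2 - 3 * x * s) - 3 * x ^ 2 := by
    apply mul_left_cancel₀ h2
    linear_combination (-1 : k) * hl - hm - 8 * s * hy
  refine ⟨x - s ^ 2, ?_⟩
  apply mul_left_cancel₀ h4
  linear_combination (-4 : k) * h - s ^ 2 * hA +
    (2 * y + (s ^ 3 + s * (l - s) ^ 2 - 3 * x * s)) * hy

lemma root_T0 [Finite k] (h2 : (2 : k) ≠ 0) {A B : k} (hc : ∀ t : k, t ^ 3 + A * t + B ≠ 0)
    {x y : k} (h : y ^ 2 = x ^ 3 + A * x + B) : ∃ l, (pt A x y).ev l 1 = 0 := by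
  let P := {z : k × k // z.2 ^ 2 = z.1 ^ 3 + A * z.1 + B}
  have hy : ∀ z : P, z.1.2 ≠ 0 := fun z h0 => hc z.1.1 (by rw [← z.2, h0]; ring)
  let sl : P → k := fun z => (3 * z.1.1 ^ 2 + A) / (2 * z.1.2)
  have hsl : ∀ z : P, sl z * (2 * z.1.2) = 3 * z.1.1 ^ 2 + A := fun z =>
    div_mul_cancel₀ _ (mul_ne_zero h2 (hy z))
  let D : P → P := fun z => ⟨(sl z ^ 2 - 2 * z.1.1, sl z * (3 * z.1.1 - sl z ^ 2) - z.1.2), by
    have h1 := hsl z
    have h3 := z.2
    simp only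
    linear_combination h3 + (3 * z.1.1 - sl z ^ 2) * (-1 : k) * h1⟩
  have hroot : ∀ z : P, (pt A (D z).1.1 (D z).1.2).ev (sl z) 1 = 0 := fun z => by
    have h1 := hsl z
    simp only [D, pt, ev]
    linear_combination 4 * h1
  have hinj : Function.Injective D := by
    intro z w hzw
    have hs : sl z = sl w := by
      by_contra hne
      obtain ⟨t, ht⟩ := two_roots h2 (D z).2 (hroot z) (hzw ▸ hroot w) hne
      exact hc t ht
    have e := congrArg Subtype.val hzw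
    simp only [D, Prod.mk.injEq] at e
    have e1 : z.1.1 = w.1.1 := by
      apply mul_left_cancel₀ h2
      rw [hs] at e
      linear_combination -e.1
    have e2 : z.1.2 = w.1.2 := by
      rw [hs, e1] at e
      linear_combination -e.2
    exact Subtype.ext (Prod.ext e1 e2)
  obtain ⟨z, hz⟩ := Finite.surjective_of_injective hinj ⟨(x, y), h⟩
  have := hroot z
  rw [hz] at this
  exact ⟨_, this⟩

lemma root_T1 [Finite k] (h2 : (2 : k) ≠ 0) {ε : k} (hε : ¬ IsSquare ε) {x y : k}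
    (h : y ^ 2 = x ^ 3 + (-ε) * x + 0) (hx0 : x ≠ 0) (hx : IsSquare x) :
    ∃ l, (pt (-ε) x y).ev l 1 = 0 := by
  classical
  have := Fintype.ofFinite k
  obtain ⟨r, rfl⟩ := hx
  have hr : r ≠ 0 := fun h0 => hx0 (by rw [h0, mul_zero])
  obtain ⟨n, rfl⟩ : ∃ n, y = r * n := ⟨y / r, by field_simp⟩
  have hn : n ^ 2 = r ^ 4 - ε := by
    apply mul_left_cancel₀ (pow_ne_zero 2 hr)
    linear_combination h
  have hp : (2 * (r ^ 2 + n)) * (2 * (r ^ 2 - n)) = 2 ^ 2 * ε := by linear_combination (-4 : k) * hn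
  have hq := congrArg (quadraticChar k) hp
  rw [map_mul _ (2 * (r ^ 2 + n)), map_mul _ (2 ^ 2), quadraticChar_sq_one' h2,
    quadraticChar_neg_one_iff_not_isSquare.2 hε] at hq
  by_cases h1 : IsSquare (2 * (r ^ 2 + n))
  · obtain ⟨w, hw⟩ := h1
    refine ⟨r + w, ?_⟩
    simp only [pt, ev]
    linear_combination (-((r + w) ^ 2 - r ^ 2 + 2 * r * (r + w) + 2 * n)) * hw + 4 * hn
  · have h3 : IsSquare (2 * (r ^ 2 - n)) := by
      by_contra h3
      rw [quadraticChar_neg_one_iff_not_isSquare.2 h1,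
        quadraticChar_neg_one_iff_not_isSquare.2 h3] at hq
      norm_num at hq
    obtain ⟨w, hw⟩ := h3
    refine ⟨-r + w, ?_⟩
    simp only [pt, ev]
    linear_combination (-((-r + w) ^ 2 - r ^ 2 - 2 * r * (-r + w) - 2 * n)) * hw + 4 * hn

def Q4.equivFun (K : Type*) : Q4 K ≃ (K × K × K × K × K) where
  toFun f := (f.a, f.b, f.c, f.d, f.e)
  invFun z := ⟨z.1, z.2.1, z.2.2.1, z.2.2.2.1, z.2.2.2.2⟩

instance {K : Type*} [Finite K] : Finite (Q4 K) := Finite.of_equiv _ (Q4.equivFun K).symm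

/-- move the root to infinity -/
def mv (f : Q4 k) : Option k → Q4 k
  | none => f
  | some t => f.act t 1 1 0

lemma mv_I (f : Q4 k) (o : Option k) : (mv f o).I = f.I := by
  cases o <;> simp only [mv, I_act]; ring

lemma mv_J (f : Q4 k) (o : Option k) : (mv f o).J = f.J := by
  cases o <;> simp only [mv, J_act]; ring

lemma mv_inj {f g : Q4 k} {o : Option k} (h : mv f o = mv g o) : f = g := by
  cases o with
  | none => exact h
  | some t =>
    have := congrArg (fun z : Q4 k => z.act 0 1 1 (-t)) h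
    simpa [mv, act_act, act_one] using this

lemma root_mv {f : Q4 k} (h : f.Root) : ∃ o, (mv f o).a = 0 := by
  obtain ⟨u, v, huv, h⟩ := h
  by_cases hv : v = 0
  · subst hv
    have hu : u ≠ 0 := by simpa using huv
    refine ⟨none, ?_⟩
    simpa [ev, hu, mv] using h
  · refine ⟨some (u / v), ?_⟩
    have := f.ev_scale v (u / v) 1
    rw [mul_div_cancel₀ _ hv, mul_one, h] at this
    exact (mul_eq_zero.1 this.symm).resolve_left (pow_ne_zero _ hv)

lemma b_ne {f : Q4 k} (ha : f.a = 0) (hd : 4 * f.I ^ 3 - f.J ^ 2 ≠ 0) : f.b ≠ 0 := by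
  intro hb
  apply hd
  simp only [I, J, ha, hb]; ring

def Fib (I0 J0 : k) : Set (Q4 k) := {f | f.I = I0 ∧ f.J = J0 ∧ f.Root}

lemma pairs_le [Finite k] (h3 : (3 : k) ≠ 0) {I0 J0 : k} (hd : 4 * I0 ^ 3 - J0 ^ 2 ≠ 0) :
    Nat.card {z : Q4 k × Option k // z.1 ∈ Fib I0 J0 ∧ (mv z.1 z.2).a = 0} ≤ Nat.card k ^ 3 := by
  have hb : ∀ z : {z : Q4 k × Option k // z.1 ∈ Fib I0 J0 ∧ (mv z.1 z.2).a = 0},
      (mv z.1.1 z.1.2).b ≠ 0 := fun z =>
    b_ne z.2.2 (by rw [mv_I, mv_J, z.2.1.1, z.2.1.2.1]; exact hd)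
  let Φ : {z : Q4 k × Option k // z.1 ∈ Fib I0 J0 ∧ (mv z.1 z.2).a = 0} → Option k × kˣ × k :=
    fun z => (z.1.2, Units.mk0 _ (hb z), (mv z.1.1 z.1.2).c)
  have hinj : Function.Injective Φ := by
    rintro ⟨⟨f, o⟩, hf⟩ ⟨⟨g, o'⟩, hg⟩ h
    simp only [Φ, Prod.mk.injEq, Units.mk0_inj] at h
    obtain ⟨rfl, h1, h2⟩ := h
    have hb' : (mv f o).b ≠ 0 := hb ⟨⟨f, o⟩, hf⟩
    have hI : (mv f o).I = (mv g o).I := by rw [mv_I, mv_I, hf.1.1, hg.1.1]
    have hJ : (mv f o).J = (mv g o).J := by rw [mv_J, mv_J, hf.1.2.1, hg.1.2.1]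
    have ha : (mv f o).a = 0 := hf.2
    have ha' : (mv g o).a = 0 := hg.2
    simp only [I, J, ha, ha', ← h1, ← h2] at hI hJ
    have hd : (mv f o).d = (mv g o).d := by
      apply mul_left_cancel₀ (mul_ne_zero h3 hb')
      linear_combination -hI
    have he : (mv f o).e = (mv g o).e := by
      apply mul_left_cancel₀ (mul_ne_zero (pow_ne_zero 3 h3) (pow_ne_zero 2 hb'))
      rw [← hd] at hJ
      linear_combination -hJ
    have : f = g := mv_inj (Q4.ext (ha.trans ha'.symm) h1 h2 hd he)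
    subst this; rfl
  refine (Nat.card_le_card_of_injective Φ hinj).trans ?_
  rw [Nat.card_prod, Nat.card_prod, Nat.card_units, Finite.card_option]
  have : 0 < Nat.card k := Nat.card_pos
  obtain ⟨m, hm⟩ : ∃ m, Nat.card k = m + 1 := ⟨Nat.card k - 1, by omega⟩
  rw [hm]
  simp only [Nat.add_sub_cancel]
  nlinarith

lemma fib_T0 [Finite k] (h3 : (3 : k) ≠ 0) {I0 J0 : k} (hd : 4 * I0 ^ 3 - J0 ^ 2 ≠ 0) :
    (Fib I0 J0).ncard ≤ Nat.card k ^ 3 := by
  refine le_trans ?_ (pairs_le h3 hd)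
  rw [← Nat.card_coe_set_eq]
  choose o ho using fun f : Fib I0 J0 => root_mv f.2.2.2
  refine Nat.card_le_card_of_injective (fun f => ⟨(f.1, o f), f.2, ho f⟩) ?_
  intro f g h
  simp only [Subtype.mk.injEq, Prod.mk.injEq] at h
  exact Subtype.ext h.1

lemma second (h3 : (3 : k) ≠ 0) {f : Q4 k} (hJ : f.J = 0) (hd : 4 * f.I ^ 3 - f.J ^ 2 ≠ 0)
    {o : Option k} (ho : (mv f o).a = 0) : ∃ o', o' ≠ o ∧ (mv f o').a = 0 := by
  have hb : (mv f o).b ≠ 0 := b_ne ho (by rwa [mv_I, mv_J])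
  have hJ' : (mv f o).J = 0 := by rwa [mv_J]
  have hr : (mv f o).ev (-(mv f o).c / (3 * (mv f o).b)) 1 = 0 := by
    simp only [J, ho] at hJ'
    simp only [ev, ho]
    field_simp
    linear_combination (-3 * (mv f o).b ^ 2) * hJ'
  generalize -(mv f o).c / (3 * (mv f o).b) = w at hr
  cases o with
  | none => exact ⟨some w, by simp, hr⟩
  | some t =>
    simp only [mv, ev_act] at hr
    by_cases hw : w = 0
    · refine ⟨none, by simp, ?_⟩
      simpa [hw, ev, mv] using hr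
    · refine ⟨some (t + 1 / w), by simpa using hw, ?_⟩
      have := f.ev_scale w (t + 1 / w) 1
      have e1 : w * (t + 1 / w) = t * w + 1 * 1 := by field_simp
      have e2 : w * 1 = 1 * w + 0 * 1 := by ring
      rw [e1, e2, hr] at this
      exact (mul_eq_zero.1 this.symm).resolve_left (pow_ne_zero _ hw)

lemma fib_T1 [Finite k] (h3 : (3 : k) ≠ 0) {I0 : k} (hd : 4 * I0 ^ 3 - 0 ^ 2 ≠ 0) :
    2 * (Fib I0 0).ncard ≤ Nat.card k ^ 3 := by
  refine le_trans ?_ (pairs_le h3 hd)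
  rw [← Nat.card_coe_set_eq]
  choose o ho using fun f : Fib I0 0 => root_mv f.2.2.2
  choose o' ho' using fun f : Fib I0 0 =>
    second h3 f.2.2.1 (by rw [f.2.1, f.2.2.1]; exact hd) (ho f)
  have : 2 * Nat.card (Fib I0 0) = Nat.card (Bool × Fib I0 0) := by
    rw [Nat.card_prod]; simp
  rw [this]
  refine Nat.card_le_card_of_injective
    (fun z => ⟨(z.2.1, if z.1 then o z.2 else o' z.2), z.2.2, by
      split_ifs
      · exact ho _
      · exact (ho' _).2⟩) ?_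
  rintro ⟨b, f⟩ ⟨b', g⟩ h
  simp only [Subtype.mk.injEq, Prod.mk.injEq] at h
  obtain rfl : f = g := Subtype.ext h.1
  have h2 := h.2
  have := (ho' f).1
  cases b <;> cases b' <;> simp_all [eq_comm]

lemma exists_T0 [Finite k] : ∃ b : k, ∀ t : k, t ^ 3 + (-1) * t + b ≠ 0 := by
  by_contra hc
  push Not at hc
  have hs : Function.Surjective (fun t : k => t - t ^ 3) := fun b => by
    obtain ⟨t, ht⟩ := hc b
    exact ⟨t, by linear_combination -ht⟩
  have := Finite.injective_iff_surjective.2 hs (a₁ := 0) (a₂ := 1) (by simp)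
  exact zero_ne_one this

lemma disc_T0 (h3 : (3 : k) ≠ 0) {A B : k}
    (hc : ∀ t : k, t ^ 3 + A * t + B ≠ 0) : 4 * A ^ 3 + 27 * B ^ 2 ≠ 0 := by
  intro h
  by_cases hA : A = 0
  · have : (3 : k) ^ 3 * B ^ 2 = 0 := by rw [hA] at h; linear_combination h
    have hB : B = 0 := by simpa [h3] using this
    exact hc 0 (by simp [hB])
  · apply hc (3 * B / A)
    field_simp
    linear_combination B * h

end Pool.Agent.Lib.MP_7cad78_nt.NF
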