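import Pool.Agent.Lib.MP_7cad78_nt.NF.Geo
import Pool.Agent.Lib.MP_7cad78_nt.NF.Fq

/-! Reduction theory of integral binary quartic forms over a number field. -/

namespace Pool.Agent.Lib.MP_7cad78_nt.NF

open NumberField NumberField.mixedEmbedding NumberField.InfinitePlace MeasureTheory Metric Q4

open scoped Classical

/-- normal form at one place -/
lemma nf_place {k : Type*} [RCLike k] {f : Q4 k} {S : ℝ} (hS : 0 < S) (hI : ‖f.I‖ ≤ S ^ 2)
    (hJ : ‖f.J‖ ≤ S ^ 3) (hd : 4 * f.I ^ 3 - f.J ^ 2 ≠ 0) (hr : f.Root) :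
    ∃ p q r s : k, p * s - q * r = 1 ∧ (f.act p q r s).Sz S 1 := by
  obtain ⟨p0, q0, r0, s0, h0, ha⟩ : ∃ p q r s : k, p * s - q * r = 1 ∧ (f.act p q r s).a = 0 := by
    obtain ⟨o, ho⟩ := root_mv hr
    cases o with
    | none => exact ⟨1, 0, 0, 1, by simp, by rw [act_one]; exact ho⟩
    | some t => exact ⟨t, -1, 1, 0, by simp, ho⟩
  set g := f.act p0 q0 r0 s0 with hg
  have gI : g.I = f.I := by rw [hg, I_act, h0]; ring
  have gJ : g.J = f.J := by rw [hg, J_act, h0]; ring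
  have hb : g.b ≠ 0 := b_ne ha (by rwa [gI, gJ])
  have hb' : 0 < ‖g.b‖ := norm_pos_iff.2 hb
  obtain ⟨τ, hτ0, hτ⟩ : ∃ τ : ℝ, 0 < τ ∧ τ ^ 2 = S / ‖g.b‖ :=
    ⟨√(S / ‖g.b‖), Real.sqrt_pos.2 (by positivity), Real.sq_sqrt (by positivity)⟩
  have hτk : (τ : k) ≠ 0 := by exact_mod_cast hτ0.ne'
  set h := g.act τ (-(g.c / (3 * g.b)) / τ) 0 (1 / τ) with hh
  have hdet : (τ : k) * (1 / τ) - (-(g.c / (3 * g.b)) / τ) * 0 = 1 := by field_simp; ring
  have hI' : h.I = f.I := by rw [hh, I_act, hdet, gI]; ring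
  have hJ' : h.J = f.J := by rw [hh, J_act, hdet, gJ]; ring
  have e1 : h.a = 0 := by simp [hh, act, ha]
  have e2 : h.b = g.b * τ ^ 2 := by simp only [hh, act, ha]; field_simp; ring
  have e3 : h.c = 0 := by simp only [hh, act, ha]; field_simp; ring
  have n2 : ‖h.b‖ = S := by
    rw [e2, norm_mul, norm_pow, RCLike.norm_ofReal, sq_abs, hτ]; field_simp
  have n4 : ‖h.d‖ ≤ S := by
    have : f.I = -3 * h.b * h.d := by rw [← hI']; simp only [I, e1, e3]; ring
    rw [this, norm_mul, norm_mul, n2] at hI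
    simp only [norm_neg, RCLike.norm_ofNat] at hI
    nlinarith [norm_nonneg h.d]
  have n5 : ‖h.e‖ ≤ S := by
    have : f.J = -27 * h.e * h.b ^ 2 := by rw [← hJ']; simp only [J, e1, e3]; ring
    rw [this, norm_mul, norm_mul, norm_pow, n2] at hJ
    simp only [norm_neg, RCLike.norm_ofNat] at hJ
    have h2 : 0 < S ^ 2 := by positivity
    nlinarith [norm_nonneg h.e]
  refine ⟨_, _, _, _, ?_, by
    rw [← act_act, ← hg, ← hh]
    exact ⟨by simp [e1, hS.le], by simp [n2], by simp [e3, hS.le], by simpa using n4,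
      by simpa using n5⟩⟩
  linear_combination ((τ : k) * (1 / τ)) * h0 + hdet

variable {F : Type*} [Field F] [NumberField F]

/-- real coordinate -/
def cR (w : {w : InfinitePlace F // w.IsReal}) : mixedSpace F →+* ℝ :=
  (Pi.evalRingHom _ w).comp (RingHom.fst _ _)

/-- complex coordinate -/
def cC (w : {w : InfinitePlace F // w.IsComplex}) : mixedSpace F →+* ℂ :=
  (Pi.evalRingHom _ w).comp (RingHom.snd _ _)

lemma norm_le_of {x : mixedSpace F} {r : ℝ} (h1 : ∀ w, ‖cR w x‖ ≤ r) (h2 : ∀ w, ‖cC w x‖ ≤ r) :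
    ‖x‖ ≤ r := norm_le_iff.2 fun w => by
  rcases isReal_or_isComplex w with hw | hw
  · rw [normAtPlace_apply_of_isReal hw]; exact h1 ⟨w, hw⟩
  · rw [normAtPlace_apply_of_isComplex hw]; exact h2 ⟨w, hw⟩

lemma cR_le (w) (x : mixedSpace F) : ‖cR w x‖ ≤ ‖x‖ := by
  have := normAt_le w.1 x
  rwa [normAtPlace_apply_of_isReal w.2] at this

lemma cC_le (w) (x : mixedSpace F) : ‖cC w x‖ ≤ ‖x‖ := by
  have := normAt_le w.1 x
  rwa [normAtPlace_apply_of_isComplex w.2] at this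

lemma cR_zero (w) {u : 𝓞 F} (h : cR w (emb F u) = 0) : u = 0 := by
  have := normAt_emb w.1 u
  rw [normAtPlace_apply_of_isReal w.2] at this
  have h2 : ‖cR w (emb F u)‖ = w.1 u := this
  rw [h, norm_zero] at h2
  by_contra h0
  exact (InfinitePlace.pos_iff.2 (by exact_mod_cast h0 : (u : F) ≠ 0)).ne h2

lemma cC_zero (w) {u : 𝓞 F} (h : cC w (emb F u) = 0) : u = 0 := by
  have := normAt_emb w.1 u
  rw [normAtPlace_apply_of_isComplex w.2] at this
  have h2 : ‖cC w (emb F u)‖ = w.1 u := this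
  rw [h, norm_zero] at h2
  by_contra h0
  exact (InfinitePlace.pos_iff.2 (by exact_mod_cast h0 : (u : F) ≠ 0)).ne h2

lemma ext_c {x y : mixedSpace F} (h1 : ∀ w, cR w x = cR w y) (h2 : ∀ w, cC w x = cC w y) : x = y :=
  Prod.ext (funext h1) (funext h2)

lemma complex_root (f : Q4 ℂ) : f.Root := by
  by_cases ha : f.a = 0
  · exact ⟨1, 0, by simp, by simp [ev, ha]⟩
  · open Polynomial in
    obtain ⟨z, hz⟩ := IsAlgClosed.exists_root
      (C f.a * X ^ 4 + C f.b * X ^ 3 + C f.c * X ^ 2 + C f.d * X + C f.e : ℂ[X]) (by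
        have : (C f.a * X ^ 4 + C f.b * X ^ 3 + C f.c * X ^ 2 + C f.d * X + C f.e : ℂ[X]).degree
            = 4 := by compute_degree!
        rw [this]; norm_num)
    exact ⟨z, 1, by simp, by simpa [ev] using hz⟩

lemma nf (f : Q4 (𝓞 F)) {S : ℝ} (hS : 0 < S) (hI : ‖emb F f.I‖ ≤ S ^ 2) (hJ : ‖emb F f.J‖ ≤ S ^ 3)
    (hd : 4 * f.I ^ 3 - f.J ^ 2 ≠ 0) (hr : ∀ w, (f.map ((cR w).comp (emb F))).Root) :
    ∃ p q r s : mixedSpace F, p * s - q * r = 1 ∧ ((f.map (emb F)).act p q r s).Sz S 1 := by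
  have hR : ∀ w, ∃ p q r s : ℝ, p * s - q * r = 1 ∧
      ((f.map ((cR w).comp (emb F))).act p q r s).Sz S 1 := fun w =>
    nf_place hS (by rw [map_I]; exact (cR_le w _).trans hI) (by rw [map_J]; exact (cR_le w _).trans hJ)
      (by
        rw [map_I, map_J]
        intro h0
        apply hd
        have : (cR w).comp (emb F) (4 * f.I ^ 3 - f.J ^ 2) = 0 := by
          rw [← h0]; simp [map_ofNat]
        exact cR_zero w this) (hr w)
  have hC : ∀ w, ∃ p q r s : ℂ, p * s - q * r = 1 ∧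
      ((f.map ((cC w).comp (emb F))).act p q r s).Sz S 1 := fun w =>
    nf_place hS (by rw [map_I]; exact (cC_le w _).trans hI) (by rw [map_J]; exact (cC_le w _).trans hJ)
      (by
        rw [map_I, map_J]
        intro h0
        apply hd
        have : (cC w).comp (emb F) (4 * f.I ^ 3 - f.J ^ 2) = 0 := by
          rw [← h0]; simp [map_ofNat]
        exact cC_zero w this) (complex_root _)
  choose p q r s h1 h2 using hR
  choose p' q' r' s' h1' h2' using hC
  refine ⟨(p, p'), (q, q'), (r, r'), (s, s'), ext_c h1 h1', ?_⟩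
  have e1 : ∀ w, ((f.map (emb F)).act (p, p') (q, q') (r, r') (s, s')).map (cR w) =
      (f.map ((cR w).comp (emb F))).act (p w) (q w) (r w) (s w) := fun w => map_act ..
  have e2 : ∀ w, ((f.map (emb F)).act (p, p') (q, q') (r, r') (s, s')).map (cC w) =
      (f.map ((cC w).comp (emb F))).act (p' w) (q' w) (r' w) (s' w) := fun w => map_act ..
  simp only [← e1] at h2
  simp only [← e2] at h2'
  exact ⟨norm_le_of (fun w => (h2 w).1) fun w => (h2' w).1,
    norm_le_of (fun w => (h2 w).2.1) fun w => (h2' w).2.1,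
    norm_le_of (fun w => (h2 w).2.2.1) fun w => (h2' w).2.2.1,
    norm_le_of (fun w => (h2 w).2.2.2.1) fun w => (h2' w).2.2.2.1,
    norm_le_of (fun w => (h2 w).2.2.2.2) fun w => (h2' w).2.2.2.2⟩

variable (F) in
/-- Minkowski: a short vector -/
lemma short : ∃ C : ℝ, 0 < C ∧ ∀ p q r s : mixedSpace F, p * s - q * r = 1 →
    ∃ α β : 𝓞 F, (α ≠ 0 ∨ β ≠ 0) ∧ ‖s * emb F α - q * emb F β‖ ≤ C ∧
      ‖p * emb F β - r * emb F α‖ ≤ C := by
  let E := Fin 2 → mixedSpace F
  have hB0 : BorelSpace (mixedSpace F) := inferInstance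
  have hB : BorelSpace E := Pi.borelSpace
  let b := Pi.basis fun _ : Fin 2 => latticeBasis F
  let μ : Measure E := Measure.addHaar
  have hfin : μ (ZSpan.fundamentalDomain b) * 2 ^ Module.finrank ℝ E < ⊤ :=
    ENNReal.mul_lt_top (ZSpan.fundamentalDomain_isBounded b).measure_lt_top (by simp)
  obtain ⟨C, hC0, hC⟩ : ∃ C : ℝ, 0 < C ∧
      μ (ZSpan.fundamentalDomain b) * 2 ^ Module.finrank ℝ E < μ (closedBall 0 C) := by
    have hu : μ (Set.univ : Set E) = ⊤ := measure_univ_of_isAddLeftInvariant μ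
    have ht := tendsto_measure_iUnion_atTop (μ := μ) (s := fun n : ℕ => closedBall (0 : E) n)
      fun a b hab => closedBall_subset_closedBall (by exact_mod_cast hab)
    rw [iUnion_closedBall_nat, hu] at ht
    obtain ⟨n, hn⟩ := ((ht.eventually (lt_mem_nhds hfin)).and (Filter.eventually_gt_atTop 0)).exists
    exact ⟨n, by exact_mod_cast hn.2, hn.1⟩
  refine ⟨C, hC0, fun p q r s h => ?_⟩
  let g : E →ₗ[ℝ] E := (Matrix.toLin' !![p, q; r, s]).restrictScalars ℝ
  have hdet : LinearMap.det g = 1 := by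
    rw [LinearMap.det_restrictScalars, LinearMap.det_toLin', Matrix.det_fin_two_of, h, map_one]
  have hμ : μ (g '' closedBall 0 C) = μ (closedBall 0 C) := by
    rw [μ.addHaar_image_linearMap, hdet]; simp
  have hcount : Countable (Submodule.span ℤ (Set.range b)).toAddSubgroup :=
    inferInstanceAs (Countable (Submodule.span ℤ (Set.range b)))
  obtain ⟨x, hx0, y, hy, hxy⟩ := exists_ne_zero_mem_lattice_of_measure_mul_two_pow_lt_measure
    (μ := μ) (ZSpan.isAddFundamentalDomain' b μ) (s := g '' closedBall 0 C)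
    (by
      rintro _ ⟨y, hy, rfl⟩
      exact ⟨-y, by simpa using hy, map_neg _ _⟩)
    ((convex_closedBall 0 C).linear_image g) (hμ ▸ hC)
  have hmem : ∀ i, ∃ u : 𝓞 F, emb F u = x.1 i := fun i => by
    have h1 : x.1 i ∈ Submodule.span ℤ (Set.range (latticeBasis F)) := by
      rw [Module.Basis.mem_span_iff_repr_mem]
      intro j
      have := (b.mem_span_iff_repr_mem ℤ x.1).1 x.2 ⟨i, j⟩
      rwa [Pi.basis_repr] at this
    exact (mem_span_latticeBasis F).1 h1
  obtain ⟨α, hα⟩ := hmem 0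
  obtain ⟨β, hβ⟩ := hmem 1
  have hg : g y = Matrix.mulVec !![p, q; r, s] y := Matrix.toLin'_apply _ _
  have e0 : x.1 0 = p * y 0 + q * y 1 := by
    rw [← hxy, hg]; simp [Matrix.mulVec, dotProduct, Fin.sum_univ_two]
  have e1 : x.1 1 = r * y 0 + s * y 1 := by
    rw [← hxy, hg]; simp [Matrix.mulVec, dotProduct, Fin.sum_univ_two]
  have hy' : ∀ i, ‖y i‖ ≤ C := fun i => (norm_le_pi_norm y i).trans (by simpa using hy)
  refine ⟨α, β, ?_, ?_, ?_⟩
  · by_contra hc
    push Not at hc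
    apply hx0
    apply Subtype.ext
    funext i
    fin_cases i
    · rw [hc.1, map_zero] at hα; exact hα.symm
    · rw [hc.2, map_zero] at hβ; exact hβ.symm
  · have : s * emb F α - q * emb F β = y 0 := by rw [hα, hβ, e0, e1]; linear_combination (y 0) * h
    rw [this]; exact hy' 0
  · have : p * emb F β - r * emb F α = y 1 := by rw [hα, hβ, e0, e1]; linear_combination (y 1) * h
    rw [this]; exact hy' 1

variable (F) in
/-- bounded content, from the finiteness of the class group -/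
lemma content : ∃ m : ℕ, m ≠ 0 ∧ ∀ α β : 𝓞 F, (α ≠ 0 ∨ β ≠ 0) →
    ∃ (t : F) (α' β' γ δ η : 𝓞 F), η ≠ 0 ∧ (α' : F) = t * α ∧ (β' : F) = t * β ∧
      α' * δ - γ * β' = m ∧ t * η = m := by
  choose J hJ using ClassGroup.mk0_surjective (R := 𝓞 F)
  refine ⟨∏ c, Ideal.absNorm (J c).1, Finset.prod_ne_zero_iff.2 fun c _ =>
    Ideal.absNorm_ne_zero_of_nonZeroDivisors _, fun α β h => ?_⟩
  have hm0 : (∏ c, Ideal.absNorm (J c).1) ≠ 0 := Finset.prod_ne_zero_iff.2 fun c _ =>
    Ideal.absNorm_ne_zero_of_nonZeroDivisors _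
  have hI : (Ideal.span {α, β} : Ideal (𝓞 F)) ∈ nonZeroDivisors (Ideal (𝓞 F)) := by
    rw [mem_nonZeroDivisors_iff_ne_zero, Ne, Ideal.zero_eq_bot, Ideal.span_eq_bot]
    intro h0
    rcases h with h | h
    · exact h (h0 α (by simp))
    · exact h (h0 β (by simp))
  have hmJ : ∀ c, ((∏ c, Ideal.absNorm (J c).1 : ℕ) : 𝓞 F) ∈ (J c).1 := fun c => by
    obtain ⟨k, hk⟩ := Finset.dvd_prod_of_mem (fun c => Ideal.absNorm (J c).1) (Finset.mem_univ c)
    rw [hk, Nat.cast_mul]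
    exact Ideal.mul_mem_right _ _ (Ideal.absNorm_mem _)
  generalize (∏ c, Ideal.absNorm (J c).1) = m at *
  obtain ⟨x, y, hx, hy, hxy⟩ := ClassGroup.mk0_eq_mk0_iff.1 (hJ (ClassGroup.mk0 ⟨_, hI⟩)).symm
  simp only at hxy
  have h1 : ∀ a ∈ (Ideal.span {α, β} : Ideal (𝓞 F)), ∃ a', y * a' = x * a := fun a ha => by
    have := Ideal.mul_mem_mul (Ideal.mem_span_singleton_self x) ha
    rw [hxy, Ideal.mem_span_singleton_mul] at this
    obtain ⟨z, -, hz⟩ := this
    exact ⟨z, hz⟩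
  obtain ⟨α', hα⟩ := h1 α (Ideal.subset_span (by simp))
  obtain ⟨β', hβ⟩ := h1 β (Ideal.subset_span (by simp))
  have h2 := Ideal.mul_mem_mul (Ideal.mem_span_singleton_self y) (hmJ (ClassGroup.mk0 ⟨_, hI⟩))
  rw [← hxy, Ideal.mem_span_singleton_mul] at h2
  obtain ⟨η, hη, hη'⟩ := h2
  obtain ⟨δ, γ, rfl⟩ := Ideal.mem_span_pair.1 hη
  have hy' : (y : F) ≠ 0 := by exact_mod_cast hy
  have c1 := congrArg (algebraMap (𝓞 F) F) hα
  have c2 := congrArg (algebraMap (𝓞 F) F) hβ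
  have c3 := congrArg (algebraMap (𝓞 F) F) hη'
  simp only [map_mul, map_natCast] at c1 c2 c3
  refine ⟨x / y, α', β', -γ, δ, δ * α + γ * β, ?_, ?_, ?_, ?_, ?_⟩
  · intro h0
    rw [h0, mul_zero] at hη'
    exact mul_ne_zero hy (by exact_mod_cast hm0) hη'.symm
  · field_simp; linear_combination c1
  · field_simp; linear_combination c2
  · apply mul_left_cancel₀ hy
    linear_combination δ * hα + γ * hβ + hη'
  · field_simp; linear_combination c3

variable (F) in
/-- balancing with a unit -/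
lemma balance : ∃ C : ℝ, 1 ≤ C ∧ ∀ Y : InfinitePlace F → ℝ, (∀ w, 0 < Y w) →
    ∃ (u : (𝓞 F)ˣ) (ν : ℝ), 0 < ν ∧ ν ^ dg F = ∏ w, Y w ^ w.mult ∧
      ∀ w : InfinitePlace F, ν / C ≤ w (u : 𝓞 F) * Y w ∧ w (u : 𝓞 F) * Y w ≤ C * ν := by
  obtain ⟨C0, hC0⟩ := (fundamentalCone.isBounded_normLeOne F).exists_norm_le
  have hn := dg_pos F
  set C := max C0 1 with hC
  have hC1 : 1 ≤ C := le_max_right _ _
  refine ⟨C ^ dg F, one_le_pow₀ hC1, fun Y hY => ?_⟩
  let x := mixedSpaceOfRealSpace Y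
  have hx : ∀ w, normAtPlace w x = Y w := fun w => normAtPlace_mixedSpaceOfRealSpace (hY w).le
  have hN : mixedEmbedding.norm x = ∏ w, Y w ^ w.mult := by
    rw [mixedEmbedding.norm_apply]; simp only [hx]
  have hN0 : 0 < mixedEmbedding.norm x := by
    rw [hN]; exact Finset.prod_pos fun w _ => pow_pos (hY w) _
  obtain ⟨u, hu⟩ := fundamentalCone.exists_unit_smul_mem hN0.ne'
  obtain ⟨ν, hν0, hν⟩ : ∃ ν : ℝ, 0 < ν ∧ ν ^ dg F = mixedEmbedding.norm x :=
    ⟨_, Real.rpow_pos_of_pos hN0 _, Real.rpow_inv_natCast_pow hN0.le hn.ne'⟩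
  let z := ν⁻¹ • (u • x)
  have hz1 : mixedEmbedding.norm z = 1 := by
    rw [mixedEmbedding.norm_smul, norm_unit_smul, ← hν, abs_of_pos (inv_pos.2 hν0), ← mul_pow,
      inv_mul_cancel₀ hν0.ne', one_pow]
  have hz : ‖z‖ ≤ C := (hC0 z (fundamentalCone.mem_normLeOne.2
    ⟨fundamentalCone.smul_mem_of_mem hu (inv_ne_zero hν0.ne'), hz1.le⟩)).trans (le_max_left _ _)
  have hzw : ∀ w : InfinitePlace F, normAtPlace w z = ν⁻¹ * (w (u : 𝓞 F) * Y w) := fun w => by
    rw [normAtPlace_smul, abs_of_pos (inv_pos.2 hν0), unitSMul_smul, map_mul, normAtPlace_apply, hx]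
  refine ⟨u, ν, hν0, hν.trans hN, fun w => ⟨?_, ?_⟩⟩
  · have h1 : 1 ≤ normAtPlace w z * C ^ dg F := by
      by_cases h2 : 1 ≤ normAtPlace w z
      · exact one_le_mul_of_one_le_of_one_le h2 (one_le_pow₀ hC1)
      push Not at h2
      have h0 := normAtPlace_nonneg w z
      rw [← hz1, mixedEmbedding.norm_apply, ← Finset.mul_prod_erase _ _ (Finset.mem_univ w)]
      refine mul_le_mul (pow_le_of_le_one h0 h2.le mult_pos.ne') ?_
        (Finset.prod_nonneg fun w _ => pow_nonneg (normAtPlace_nonneg _ _) _) h0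
      calc _ ≤ ∏ w' ∈ Finset.univ.erase w, C ^ mult w' :=
            Finset.prod_le_prod (fun w _ => pow_nonneg (normAtPlace_nonneg _ _) _)
              fun w _ => pow_le_pow_left₀ (normAtPlace_nonneg _ _) ((normAt_le w z).trans hz) _
        _ ≤ _ := by
            rw [Finset.prod_pow_eq_pow_sum, dg, ← sum_mult_eq]
            exact pow_le_pow_right₀ hC1
              (Finset.sum_le_sum_of_subset (Finset.erase_subset _ _))
    rw [hzw] at h1
    rw [div_le_iff₀ (by positivity)]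
    have := mul_le_mul_of_nonneg_left h1 hν0.le
    rwa [mul_one, ← mul_assoc, ← mul_assoc, mul_inv_cancel₀ hν0.ne', one_mul] at this
  · have h1 := ((normAt_le w z).trans hz).trans (le_self_pow₀ hC1 hn.ne')
    rw [hzw, inv_mul_le_iff₀ hν0] at h1
    linarith

lemma split_place {k : Type*} [NormedField k] {y1 y2 z1 z2 m : k} {l M : ℝ} (hl : 0 < l)
    (h : y1 * z2 - z1 * y2 = m) (hy : l ≤ max ‖y1‖ ‖y2‖) (hm : ‖m‖ ≤ M) :
    ∃ ξ : k, ‖z1 - ξ * y1‖ ≤ M / l ∧ ‖z2 - ξ * y2‖ ≤ M / l := by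
  have hM : 0 ≤ M := (norm_nonneg _).trans hm
  rcases le_max_iff.1 hy with h1 | h1
  · have h0 : y1 ≠ 0 := norm_pos_iff.1 (hl.trans_le h1)
    refine ⟨z1 / y1, by simpa [h0] using div_nonneg hM hl.le, ?_⟩
    have : z2 - z1 / y1 * y2 = m / y1 := by field_simp; linear_combination h
    rw [this, norm_div]
    gcongr
  · have h0 : y2 ≠ 0 := norm_pos_iff.1 (hl.trans_le h1)
    refine ⟨z2 / y2, ?_, by simpa [h0] using div_nonneg hM hl.le⟩
    have : z1 - z2 / y2 * y1 = -(m / y2) := by field_simp; linear_combination -h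
    rw [this, norm_neg, norm_div]
    gcongr

lemma split_all {y1 y2 z1 z2 : mixedSpace F} {m : ℕ} {l : ℝ} (hl : 0 < l)
    (h : y1 * z2 - z1 * y2 = m) (hy : ∀ w, l ≤ max (normAtPlace w y1) (normAtPlace w y2)) :
    ∃ ξ : mixedSpace F, ‖z1 - ξ * y1‖ ≤ m / l ∧ ‖z2 - ξ * y2‖ ≤ m / l := by
  have hR : ∀ w, ∃ ξ : ℝ, ‖cR w z1 - ξ * cR w y1‖ ≤ m / l ∧ ‖cR w z2 - ξ * cR w y2‖ ≤ m / l :=
    fun w => split_place hl (m := (m : ℝ)) (by simpa using congrArg (cR w) h) (by
      have := hy w.1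
      rwa [normAtPlace_apply_of_isReal w.2, normAtPlace_apply_of_isReal w.2] at this) (by simp)
  have hC : ∀ w, ∃ ξ : ℂ, ‖cC w z1 - ξ * cC w y1‖ ≤ m / l ∧ ‖cC w z2 - ξ * cC w y2‖ ≤ m / l :=
    fun w => split_place hl (m := (m : ℂ)) (by simpa using congrArg (cC w) h) (by
      have := hy w.1
      rwa [normAtPlace_apply_of_isComplex w.2, normAtPlace_apply_of_isComplex w.2] at this) (by simp)
  choose ξ hξ using hR
  choose ξ' hξ' using hC
  exact ⟨(ξ, ξ'), norm_le_of (fun w => (hξ w).1) fun w => (hξ' w).1,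
    norm_le_of (fun w => (hξ w).2) fun w => (hξ' w).2⟩

variable (F) in
/-- a reduced basis -/
lemma basis : ∃ (m : ℕ) (K t0 : ℝ), m ≠ 0 ∧ 0 < K ∧ 0 < t0 ∧ ∀ p q r s : mixedSpace F,
    p * s - q * r = 1 → ∃ (α β γ δ : 𝓞 F) (t : ℝ), α * δ - γ * β = m ∧ t0 ≤ t ∧
      ‖s * emb F α - q * emb F β‖ ≤ K / t ∧ ‖p * emb F β - r * emb F α‖ ≤ K / t ∧
      ‖s * emb F γ - q * emb F δ‖ ≤ K * t ∧ ‖p * emb F δ - r * emb F γ‖ ≤ K * t := by
  obtain ⟨C1, hC1, h1⟩ := short F
  obtain ⟨m, hm, h2⟩ := content F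
  obtain ⟨C3, hC3, h3⟩ := balance F
  obtain ⟨C4, hC4, h4⟩ := exists_near F
  have hm' : (0 : ℝ) < m := by exact_mod_cast Nat.pos_of_ne_zero hm
  have hn := dg_pos F
  refine ⟨m, C3 + m * C3 + C4 * C3 * (m * C1) ^ 2, 1 / (m * C1), hm, by positivity, by positivity,
    fun p q r s h => ?_⟩
  obtain ⟨α0, β0, h0, hα0, hβ0⟩ := h1 p q r s h
  obtain ⟨t, α, β, γ, δ, η, hη, hα, hβ, hdet, htη⟩ := h2 α0 β0 h0
  set y1 := s * emb F α - q * emb F β with hy1
  set y2 := p * emb F β - r * emb F α with hy2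
  set z1 := s * emb F γ - q * emb F δ with hz1
  set z2 := p * emb F δ - r * emb F γ with hz2
  have hdet' : emb F α * emb F δ - emb F γ * emb F β = m := by
    simpa using congrArg (emb F) hdet
  have hyz : y1 * z2 - z1 * y2 = m := by
    rw [hy1, hy2, hz1, hz2]
    linear_combination (emb F α * emb F δ - emb F γ * emb F β) * h + hdet'
  let Y : InfinitePlace F → ℝ := fun w => max (normAtPlace w y1) (normAtPlace w y2)
  have hY : ∀ w, 0 < Y w := fun w => by
    by_contra hc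
    push Not at hc
    have k1 : normAtPlace w y1 = 0 := le_antisymm ((le_max_left _ _).trans hc) (normAtPlace_nonneg _ _)
    have k2 : normAtPlace w y2 = 0 := le_antisymm ((le_max_right _ _).trans hc) (normAtPlace_nonneg _ _)
    have k3 := normAtPlace_add_le w (y1 * z2) (-(z1 * y2))
    rw [← sub_eq_add_neg, hyz, normAtPlace_neg, map_mul, map_mul, k1, k2,
      ← map_natCast (mixedEmbedding F), normAtPlace_apply] at k3
    simp only [zero_mul, mul_zero, add_zero] at k3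
    exact (InfinitePlace.pos_iff.2 (by exact_mod_cast hm : (m : F) ≠ 0)).not_ge k3
  have hYle : ∀ w, Y w ≤ w t * C1 := fun w => by
    have e1 : y1 = mixedEmbedding F t * (s * emb F α0 - q * emb F β0) := by
      have a1 : emb F α = mixedEmbedding F t * emb F α0 := by
        show mixedEmbedding F (α : F) = _ * mixedEmbedding F (α0 : F)
        rw [hα, map_mul]
      have a2 : emb F β = mixedEmbedding F t * emb F β0 := by
        show mixedEmbedding F (β : F) = _ * mixedEmbedding F (β0 : F)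
        rw [hβ, map_mul]
      rw [hy1, a1, a2]; ring
    have e2 : y2 = mixedEmbedding F t * (p * emb F β0 - r * emb F α0) := by
      have a1 : emb F α = mixedEmbedding F t * emb F α0 := by
        show mixedEmbedding F (α : F) = _ * mixedEmbedding F (α0 : F)
        rw [hα, map_mul]
      have a2 : emb F β = mixedEmbedding F t * emb F β0 := by
        show mixedEmbedding F (β : F) = _ * mixedEmbedding F (β0 : F)
        rw [hβ, map_mul]
      rw [hy2, a1, a2]; ring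
    refine max_le ?_ ?_
    · rw [e1, map_mul, normAtPlace_apply]
      exact mul_le_mul_of_nonneg_left ((normAt_le w _).trans hα0) (apply_nonneg _ _)
    · rw [e2, map_mul, normAtPlace_apply]
      exact mul_le_mul_of_nonneg_left ((normAt_le w _).trans hβ0) (apply_nonneg _ _)
  obtain ⟨u, ν, hν0, hν, hu⟩ := h3 Y hY
  have hνle : ν ≤ m * C1 := by
    refine le_of_pow_le_pow_left₀ hn.ne' (by positivity) ?_
    have k1 : ∏ w, Y w ^ w.mult ≤ ∏ w : InfinitePlace F, (w t * C1) ^ w.mult :=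
      Finset.prod_le_prod (fun w _ => pow_nonneg (hY w).le _)
        fun w _ => pow_le_pow_left₀ (hY w).le (hYle w) _
    simp only [mul_pow, Finset.prod_mul_distrib] at k1
    rw [Finset.prod_pow_eq_pow_sum, sum_mult_eq] at k1
    rw [hν, mul_pow]
    refine k1.trans (mul_le_mul_of_nonneg_right ?_ (by positivity))
    have k2 : mixedEmbedding.norm (mixedEmbedding F t) * mixedEmbedding.norm (emb F η) =
        mixedEmbedding.norm (m : mixedSpace F) := by
      rw [← map_mul, ← map_natCast (mixedEmbedding F), ← htη, map_mul (mixedEmbedding F)]; rfl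
    have k3 : 1 ≤ mixedEmbedding.norm (emb F η) := by
      rw [nm_emb, Nat.one_le_cast, Nat.one_le_iff_ne_zero, Ne, Ideal.absNorm_eq_zero_iff,
        Ideal.span_singleton_eq_bot]
      exact hη
    have k4 : mixedEmbedding.norm (m : mixedSpace F) ≤ (m : ℝ) ^ dg F :=
      (nm_le _).trans (pow_le_pow_left₀ (norm_nonneg _) (norm_natCast_le m) _)
    have k5 : mixedEmbedding.norm (mixedEmbedding F t) = ∏ w : InfinitePlace F, w t ^ w.mult := by
      rw [mixedEmbedding.norm_apply]; simp only [normAtPlace_apply]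
    rw [← k5]
    nlinarith [mixedEmbedding.norm_nonneg (mixedEmbedding F t)]
  have huu : emb F u * emb F (↑u⁻¹ : 𝓞 F) = 1 := by rw [← map_mul]; simp
  have hw1 : ∀ w, normAtPlace w (emb F u * y1) = w (u : 𝓞 F) * normAtPlace w y1 := fun w => by
    rw [map_mul, normAt_emb]
  have hw2 : ∀ w, normAtPlace w (emb F u * y2) = w (u : 𝓞 F) * normAtPlace w y2 := fun w => by
    rw [map_mul, normAt_emb]
  obtain ⟨ξ, hξ1, hξ2⟩ := split_all (y1 := emb F u * y1) (y2 := emb F u * y2)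
    (z1 := emb F (↑u⁻¹ : 𝓞 F) * z1) (z2 := emb F (↑u⁻¹ : 𝓞 F) * z2) (m := m) (l := ν / C3)
    (by positivity) (by linear_combination (y1 * z2 - z1 * y2) * huu + hyz) fun w => by
      rw [hw1, hw2, ← mul_max_of_nonneg _ _ (apply_nonneg _ _)]
      exact (hu w).1
  obtain ⟨v, hv⟩ := h4 ξ
  have b1 : ‖emb F u * y1‖ ≤ C3 * ν := norm_le_iff.2 fun w => by
    rw [hw1]
    exact (mul_le_mul_of_nonneg_left (le_max_left _ _) (apply_nonneg _ _)).trans (hu w).2
  have b2 : ‖emb F u * y2‖ ≤ C3 * ν := norm_le_iff.2 fun w => by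
    rw [hw2]
    exact (mul_le_mul_of_nonneg_left (le_max_right _ _) (apply_nonneg _ _)).trans (hu w).2
  have f1 : C3 * ν ≤ (C3 + m * C3 + C4 * C3 * (m * C1) ^ 2) / (1 / ν) := by
    rw [div_div_eq_mul_div, div_one]
    gcongr
    have : 0 ≤ m * C3 + C4 * C3 * (m * C1) ^ 2 := by positivity
    linarith
  have f2 : m / (ν / C3) + C4 * (C3 * ν) ≤ (C3 + m * C3 + C4 * C3 * (m * C1) ^ 2) * (1 / ν) := by
    rw [mul_one_div, le_div_iff₀ hν0]
    have e : (m / (ν / C3) + C4 * (C3 * ν)) * ν = m * C3 + C4 * C3 * ν ^ 2 := by field_simp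
    rw [e]
    have : C4 * C3 * ν ^ 2 ≤ C4 * C3 * (m * C1) ^ 2 := by gcongr
    linarith
  refine ⟨u * α, u * β, u⁻¹ * γ - v * (u * α), u⁻¹ * δ - v * (u * β), 1 / ν, ?_, by gcongr, ?_, ?_,
    ?_, ?_⟩
  · have : (u : 𝓞 F) * (↑u⁻¹ : 𝓞 F) = 1 := by simp
    linear_combination (α * δ - γ * β) * this + hdet
  · refine le_trans (le_of_eq ?_) (b1.trans f1)
    congr 1; rw [hy1]; simp only [map_mul]; ring
  · refine le_trans (le_of_eq ?_) (b2.trans f1)
    congr 1; rw [hy2]; simp only [map_mul]; ring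
  · refine le_trans (le_of_eq ?_) ((nadd hξ1 (norm_mul_le_of_le hv.le b1)).trans f2)
    congr 1; rw [hy1, hz1]; simp only [map_mul, map_sub]; ring
  · refine le_trans (le_of_eq ?_) ((nadd hξ2 (norm_mul_le_of_le hv.le b2)).trans f2)
    congr 1; rw [hy2, hz2]; simp only [map_mul, map_sub]; ring

variable (F) in
theorem reduce : ∃ (m : ℕ) (K : ℝ), m ≠ 0 ∧ 0 < K ∧ ∀ (f : Q4 (𝓞 F)) (S : ℝ), 0 < S →
    ‖emb F f.I‖ ≤ S ^ 2 → ‖emb F f.J‖ ≤ S ^ 3 → 4 * f.I ^ 3 - f.J ^ 2 ≠ 0 →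
    (∀ w, (f.map ((cR w).comp (emb F))).Root) →
    ∃ α γ β δ : 𝓞 F, α * δ - γ * β = m ∧ ∃ j : ℕ,
      ((f.act α γ β δ).map (emb F)).Sz (K * S) (2 ^ j) := by
  obtain ⟨m, K, t0, hm, hK, ht0, h⟩ := basis F
  let K' := max (K / t0) (K * t0)
  have hK' : 0 < K' := lt_max_of_lt_right (by positivity)
  refine ⟨m, 120 * K' ^ 4, hm, by positivity, fun f S hS hI hJ hd hr => ?_⟩
  obtain ⟨p, q, r, s, hdet, hsz⟩ := nf f hS hI hJ hd hr
  obtain ⟨α, β, γ, δ, t, h1, h2, h3, h4, h5, h6⟩ := h p q r s hdet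
  have ht : 0 < t := ht0.trans_le h2
  have a1 : K / t ≤ K' / (t / t0) := by
    rw [div_div_eq_mul_div]
    refine div_le_div_of_nonneg_right ?_ ht.le
    rw [← div_le_iff₀ ht0]; exact le_max_left _ _
  have a2 : K * t ≤ K' * (t / t0) := by
    have e : K * t = (K * t0) * (t / t0) := by field_simp
    rw [e]
    exact mul_le_mul_of_nonneg_right (le_max_right _ _) (by positivity)
  have hT : 1 ≤ (t / t0) ^ 2 := one_le_pow₀ ((one_le_div ht0).2 h2)
  have hc := hsz.cols (by positivity : 0 < t / t0) (h3.trans a1) (h4.trans a1) (h5.trans a2)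
    (h6.trans a2)
  obtain ⟨j, hj1, hj2⟩ := exists_nat_pow_near hT one_lt_two
  refine ⟨α, γ, β, δ, h1, j, ?_⟩
  have := hc.dyadic (by positivity) hj1 (by rw [pow_succ (2 : ℝ) j] at hj2; linarith)
  rw [act_act] at this
  have e1 : p * (s * emb F α - q * emb F β) + q * (p * emb F β - r * emb F α) = emb F α := by
    linear_combination (emb F α) * hdet
  have e2 : p * (s * emb F γ - q * emb F δ) + q * (p * emb F δ - r * emb F γ) = emb F γ := by
    linear_combination (emb F γ) * hdet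
  have e3 : r * (s * emb F α - q * emb F β) + s * (p * emb F β - r * emb F α) = emb F β := by
    linear_combination (emb F β) * hdet
  have e4 : r * (s * emb F γ - q * emb F δ) + s * (p * emb F δ - r * emb F γ) = emb F δ := by
    linear_combination (emb F δ) * hdet
  rw [e1, e2, e3, e4] at this
  rw [map_act]
  exact this.mono (by positivity) (le_of_eq (by ring))

end Pool.Agent.Lib.MP_7cad78_nt.NF
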