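import Pool.Agent.Lib.MP_7cad78_nt.NF.Val
import Pool.Agent.Lib.MP_7cad78_nt.NF.Red

/-! An integral quartic with the invariants of the untwisted curve. -/

namespace Pool.Agent.Lib.MP_7cad78_nt.NF

open NumberField IsDedekindDomain WithZero Q4

section loc

variable {K : Type*} [Field K] (v : Valuation K ℤᵐ⁰)

def gq (A d x y : K) : Q4 K := ⟨d, 0, -6 * x, -8 * y, -(3 * x ^ 2 + 4 * A) / d⟩

def Int4 (f : Q4 K) : Prop :=
  f.a ∈ v.integer ∧ f.b ∈ v.integer ∧ f.c ∈ v.integer ∧ f.d ∈ v.integer ∧ f.e ∈ v.integer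

variable {v}

lemma Int4.act {f : Q4 K} (h : Int4 v f) {p q r s : K} (hp : p ∈ v.integer) (hq : q ∈ v.integer)
    (hr : r ∈ v.integer) (hs : s ∈ v.integer) : Int4 v (f.act p q r s) := by
  obtain ⟨ha, hb, hc, hd, he⟩ := h
  refine ⟨?_, ?_, ?_, ?_, ?_⟩ <;> simp only [Q4.act] <;> (repeat' (first | assumption | exact ofNat_mem _ _ | exact one_mem _ | apply add_mem | apply sub_mem | apply mul_mem | apply pow_mem | apply neg_mem))

lemma Int4.smul {f : Q4 K} (h : Int4 v f) {t : K} (ht : t ∈ v.integer) : Int4 v (f.smul t) := by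
  obtain ⟨ha, hb, hc, hd, he⟩ := h
  refine ⟨?_, ?_, ?_, ?_, ?_⟩ <;> simp only [Q4.smul] <;> (repeat' (first | assumption | exact ofNat_mem _ _ | exact one_mem _ | apply add_mem | apply sub_mem | apply mul_mem | apply pow_mem | apply neg_mem))

lemma model_non {A B d x y s κ m b : K} (hA : v A ≤ 1) (hB : v B ≤ 1) (hx : 1 < v x)
    (h : d * y ^ 2 = x ^ 3 + A * x + B) (hd : v d ≤ 1) (hdx : 1 ≤ v d * v x)
    (hκ : κ + y / x = y / x * b) (hb : v (b * x) ≤ 1) (hs0 : s ≠ 0) (hs : v s ≤ 1)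
    (hsz : v (s * (d * κ)) ≤ 1) (hm : v m ≤ v s * max 1 (v (d * κ))) :
    Int4 v (((gq A d x y).act s κ 0 1).smul (m ^ 2 / s ^ 2)) ∧ v (d * s ^ 2) < 1 := by
  have hx0 : x ≠ 0 := by rintro rfl; simp at hx
  have hvx : 0 < v x := zero_lt_one.trans hx
  have hw := nonint_eq v hA hB hx h
  have hw0 : d * (y / x) ^ 2 ≠ 0 := by intro h0; rw [h0, map_zero] at hw; exact hvx.ne hw
  have hd0 : d ≠ 0 := left_ne_zero_of_mul hw0
  have hy0 : y ≠ 0 := by rintro rfl; simp at hw0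
  have hz0 : d * (y / x) ≠ 0 := mul_ne_zero hd0 (div_ne_zero hy0 hx0)
  have hvz : 0 < v (d * (y / x)) := (Valuation.pos_iff v).2 hz0
  have hz1 : 1 ≤ v (d * (y / x)) := by
    have : v (d * (y / x)) ^ 2 = v d * v x := by
      rw [← hw, ← map_pow, ← map_mul]; congr 1; ring
    rw [← this] at hdx
    exact (one_le_pow_iff two_ne_zero).1 hdx
  have i1 : (κ + y / x) * (d * (y / x)) ∈ v.integer := by
    have : (κ + y / x) * (d * (y / x)) = (d * (y / x) ^ 2 / x) * (b * x) := by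
      rw [hκ]; field_simp
    show v _ ≤ 1
    rw [this, map_mul, map_div₀, hw, div_self hvx.ne', one_mul]; exact hb
  have i1' : v (κ + y / x) ≤ 1 := by
    have : v (κ + y / x) * v (d * (y / x)) ≤ 1 := by rw [← map_mul]; exact i1
    exact (le_mul_of_one_le_right' hz1).trans this
  have e1 : d * κ = d * (κ + y / x) - d * (y / x) := by ring
  have i2 : v (d * (κ + y / x)) ≤ 1 := by rw [map_mul]; exact mul_le_one' hd i1'
  have i3 : s * (d * (y / x)) ∈ v.integer := by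
    have : s * (d * (y / x)) = s * (d * (κ + y / x)) - s * (d * κ) := by ring
    show v _ ≤ 1
    rw [this]
    exact v.map_sub_le (by rw [map_mul]; exact mul_le_one' hs i2) hsz
  have i4 : m / (s * (d * (y / x))) ∈ v.integer := by
    show v _ ≤ 1
    rw [map_div₀, div_le_one₀ ((Valuation.pos_iff v).2 (mul_ne_zero hs0 hz0)), map_mul]
    refine hm.trans (mul_le_mul_right (max_le hz1 ?_) _)
    rw [e1]
    exact v.map_sub_le (i2.trans hz1) le_rfl
  have j1 : 1 / x ∈ v.integer := by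
    show v _ ≤ 1
    rw [map_div₀, map_one, div_le_one₀ hvx]; exact hx.le
  have j2 : d * (y / x) ^ 2 / x ∈ v.integer := by
    show v _ ≤ 1
    rw [map_div₀, hw, div_self hvx.ne']
  have j3 : 1 / (d * (y / x) ^ 2) ∈ v.integer := by
    show v _ ≤ 1
    rw [map_div₀, map_one, hw, div_le_one₀ hvx]; exact hx.le
  have hA' : A ∈ v.integer := hA
  have hB' : B ∈ v.integer := hB
  have k0 : Int4 v ⟨1 / (d * (y / x) ^ 2), -4, 6 * ((A + B * (1 / x)) * (1 / x)),
      -4 * (d * (y / x) ^ 2 / x) * (A + B * (1 / x)),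
      (4 * B + (A + B * (1 / x)) ^ 2 * (1 / x)) * (d * (y / x) ^ 2 / x)⟩ := by
    refine ⟨?_, ?_, ?_, ?_, ?_⟩ <;> simp only <;> (repeat' (first | assumption | exact ofNat_mem _ _ | exact one_mem _ | apply add_mem | apply sub_mem | apply mul_mem | apply pow_mem | apply neg_mem))
  have k1 := (k0.act i3 i1 (zero_mem _) (one_mem _)).smul (pow_mem i4 2)
  constructor
  · convert k1 using 1
    have hB2 : B = d * y ^ 2 - x ^ 3 - A * x := by linear_combination -h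
    subst hB2
    ext <;> simp only [Q4.act, Q4.smul, gq] <;> field_simp <;> ring
  · have : d * s ^ 2 = (s * (d * (y / x))) ^ 2 * (1 / (d * (y / x) ^ 2)) := by field_simp
    rw [this, map_mul, map_pow, map_div₀, map_one, hw]
    rw [mul_comm]
    exact mul_lt_one_of_lt_of_le ((div_lt_one₀ hvx).2 hx) (pow_le_one' i3 2)

lemma model_int {A d x y s κ m : K} (hA : v A ≤ 1) (hx : v x ≤ 1) (hy : v y ≤ 1) (hd : v d = 1)
    (hκ : v κ ≤ 1) (hs0 : s ≠ 0) (hs : v s ≤ 1) (hm : v m ≤ v s) :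
    Int4 v (((gq A d x y).act s κ 0 1).smul (m ^ 2 / s ^ 2)) := by
  have hA' : A ∈ v.integer := hA
  have hx' : x ∈ v.integer := hx
  have hy' : y ∈ v.integer := hy
  have hd' : d⁻¹ ∈ v.integer := by
    show v _ ≤ 1
    rw [map_inv₀, hd, inv_one]
  have k0 : Int4 v (gq A d x y) := by
    refine ⟨hd.le, zero_mem _, ?_, ?_, ?_⟩ <;> simp only [gq, div_eq_mul_inv] <;> (repeat' (first | assumption | exact ofNat_mem _ _ | exact one_mem _ | apply add_mem | apply sub_mem | apply mul_mem | apply pow_mem | apply neg_mem))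
  refine (k0.act hs hκ (zero_mem _) (one_mem _)).smul ?_
  rw [← div_pow]
  refine pow_mem ?_ 2
  show v _ ≤ 1
  rwa [map_div₀, div_le_one₀ ((Valuation.pos_iff v).2 hs0)]

end loc

variable {F : Type*} [Field F] [NumberField F]

lemma coprime_den (x : F) : ∃ β b : 𝓞 F, β * x + b = 1 ∧ ∃ c : 𝓞 F, b * x = c := by
  let D : Ideal (𝓞 F) :=
    { carrier := {b | ∃ c : 𝓞 F, (b : F) * x = c}
      add_mem' := by
        rintro a b ⟨c, hc⟩ ⟨c', hc'⟩
        refine ⟨c + c', ?_⟩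
        change algebraMap (𝓞 F) F _ * x = algebraMap (𝓞 F) F _ at hc hc' ⊢
        rw [map_add, map_add, ← hc, ← hc']; ring
      zero_mem' := ⟨0, by simp⟩
      smul_mem' := by
        rintro t a ⟨c, hc⟩
        refine ⟨t * c, ?_⟩
        change algebraMap (𝓞 F) F _ * x = algebraMap (𝓞 F) F _ at hc ⊢
        rw [smul_eq_mul, map_mul, map_mul, ← hc]; ring }
  let N : Ideal (𝓞 F) :=
    { carrier := {a | ∃ β : 𝓞 F, (β : F) * x = a}
      add_mem' := by
        rintro a b ⟨c, hc⟩ ⟨c', hc'⟩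
        refine ⟨c + c', ?_⟩
        change algebraMap (𝓞 F) F _ * x = algebraMap (𝓞 F) F _ at hc hc' ⊢
        rw [map_add, map_add, ← hc, ← hc']; ring
      zero_mem' := ⟨0, by simp⟩
      smul_mem' := by
        rintro t a ⟨c, hc⟩
        refine ⟨t * c, ?_⟩
        change algebraMap (𝓞 F) F _ * x = algebraMap (𝓞 F) F _ at hc ⊢
        rw [smul_eq_mul, map_mul, map_mul, ← hc]; ring }
  have : N ⊔ D = ⊤ := by
    by_contra hne
    obtain ⟨M, hM, hle⟩ := Ideal.exists_le_maximal _ hne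
    have hM0 : M ≠ ⊥ := Ring.ne_bot_of_isMaximal_of_not_isField hM (RingOfIntegers.not_isField F)
    obtain ⟨n, d, h | h⟩ := HeightOneSpectrum.exists_primeCompl_mul_eq_or_mul_eq
      (⟨M, hM.isPrime, hM0⟩ : HeightOneSpectrum (𝓞 F)) x
    · exact d.2 (hle (Ideal.mem_sup_right ⟨n, by rw [mul_comm]; exact h⟩))
    · exact d.2 (hle (Ideal.mem_sup_left ⟨n, by rw [mul_comm]; exact h⟩))
  obtain ⟨a, ⟨β, hβ⟩, b, hb, hab⟩ := Submodule.mem_sup.1 ((Ideal.eq_top_iff_one _).1 this)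
  refine ⟨β, b, ?_, hb⟩
  rw [hβ]
  exact_mod_cast congrArg (fun z : 𝓞 F => (z : F)) hab

variable (F) in
theorem model : ∃ m : ℕ, m ≠ 0 ∧ ∀ (A B d : 𝓞 F) (x y : F), d ≠ 0 →
    d * y ^ 2 = x ^ 3 + A * x + B →
    (∀ 𝔭 : HeightOneSpectrum (𝓞 F), 𝔭.valuation F d = 1 ∨
      (𝔭.valuation F d = exp (-1) ∧ 1 < 𝔭.valuation F x)) →
    ∃ (f : Q4 (𝓞 F)) (s κ : F), s ≠ 0 ∧
      (f.map (algebraMap (𝓞 F) F)).smul (s ^ 2 * d ^ 3) =
        ((pt ((d : F) ^ 2 * A) (d * x) (d ^ 2 * y)).act (d * s) (d * κ) 0 1).smul ((m : F) ^ 2) ∧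
      ∀ 𝔭 : HeightOneSpectrum (𝓞 F), 𝔭.valuation F m = 1 →
        (1 < 𝔭.valuation F x → 𝔭.valuation F f.a < 1) ∧
        (𝔭.valuation F x ≤ 1 → 𝔭.valuation F s = 1 ∧ 𝔭.valuation F κ ≤ 1 ∧
          𝔭.valuation F y ≤ 1) := by
  obtain ⟨m, hm, hc⟩ := content F
  refine ⟨m, hm, fun A B d x y hd h hloc => ?_⟩
  have hd' : (d : F) ≠ 0 := by exact_mod_cast hd
  obtain ⟨β, b, hβ, c, hbc⟩ := coprime_den x
  obtain ⟨n1, n2, hn2, hn⟩ := IsFractionRing.div_surjective (A := 𝓞 F) ((d : F) * (-y * β))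
  have hn2' : n2 ≠ 0 := nonZeroDivisors.ne_zero hn2
  have hn2'' : (n2 : F) ≠ 0 := by exact_mod_cast hn2'
  obtain ⟨t, s, s', γ, δ, η, -, hs, hs', hdet, htη⟩ := hc n2 n1 (Or.inl hn2')
  have ht : t ≠ 0 := by
    rintro rfl
    exact hm (by exact_mod_cast (zero_mul (η : F)).symm.trans htη |>.symm)
  have hs0 : (s : F) ≠ 0 := by rw [hs]; exact mul_ne_zero ht hn2''
  have hsz : (s : F) * (d * (-y * β)) = s' := by
    rw [← hn, hs, hs']
    show t * (n2 : F) * ((n1 : F) / n2) = _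
    field_simp
  have hmv : ∀ 𝔭 : HeightOneSpectrum (𝓞 F), 𝔭.valuation F m ≤
      𝔭.valuation F s * max 1 (𝔭.valuation F (d * (-y * β))) := fun 𝔭 => by
    have e : (m : F) = s * δ - γ * (s * (d * (-y * β))) := by
      rw [hsz]; exact_mod_cast congrArg (fun z : 𝓞 F => (z : F)) hdet.symm
    rw [e]
    refine Valuation.map_sub_le _ ?_ ?_
    · rw [map_mul]
      exact mul_le_mul_right ((𝔭.valuation_le_one δ).trans (le_max_left _ _)) _
    · rw [map_mul, map_mul]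
      exact (mul_le_of_le_one_left' (𝔭.valuation_le_one γ)).trans
        (mul_le_mul_right (le_max_right _ _) _)
  have hnon : ∀ 𝔭 : HeightOneSpectrum (𝓞 F), 1 < 𝔭.valuation F x →
      Int4 (𝔭.valuation F) (((gq (A : F) d x y).act s (-y * β) 0 1).smul (m ^ 2 / s ^ 2)) ∧
        𝔭.valuation F (d * s ^ 2) < 1 := fun 𝔭 hx => by
    have hx0 : x ≠ 0 := by rintro rfl; simp at hx
    refine model_non (b := b) (𝔭.valuation_le_one A) (𝔭.valuation_le_one B) hx h
      (𝔭.valuation_le_one d) ?_ ?_ (by rw [hbc]; exact 𝔭.valuation_le_one c) hs0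
      (𝔭.valuation_le_one s) (by rw [hsz]; exact 𝔭.valuation_le_one s') (hmv 𝔭)
    · rcases hloc 𝔭 with h1 | h1
      · rw [h1, one_mul]; exact hx.le
      · have h0 : 𝔭.valuation F x ≠ 0 := (zero_lt_one.trans hx).ne'
        rw [← exp_log h0, ← exp_zero, exp_lt_exp] at hx
        rw [h1.1, ← exp_log h0, ← exp_add, ← exp_zero, exp_le_exp]
        omega
    · field_simp
      linear_combination (-y) * hβ
  have hint : ∀ 𝔭 : HeightOneSpectrum (𝓞 F), 𝔭.valuation F x ≤ 1 →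
      𝔭.valuation F d = 1 ∧ 𝔭.valuation F y ≤ 1 ∧ 𝔭.valuation F (-y * β) ≤ 1 ∧
        𝔭.valuation F m ≤ 𝔭.valuation F s := fun 𝔭 hx => by
    have h1 : 𝔭.valuation F d = 1 := (hloc 𝔭).resolve_right fun h => h.2.not_ge hx
    have h2 : 𝔭.valuation F y ≤ 1 := by
      have hx' : x ∈ (𝔭.valuation F).integer := hx
      have hA' : (A : F) ∈ (𝔭.valuation F).integer := 𝔭.valuation_le_one A
      have hB' : (B : F) ∈ (𝔭.valuation F).integer := 𝔭.valuation_le_one B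
      have h3 : 𝔭.valuation F (d * y ^ 2) ≤ 1 := by
        rw [h]; show _ ∈ (𝔭.valuation F).integer; (repeat' (first | assumption | exact ofNat_mem _ _ | exact one_mem _ | apply add_mem | apply sub_mem | apply mul_mem | apply pow_mem | apply neg_mem))
      rw [map_mul, h1, one_mul, map_pow] at h3
      exact (pow_le_one_iff two_ne_zero).1 h3
    have h3 : 𝔭.valuation F (-y * β) ≤ 1 := by
      rw [map_mul, Valuation.map_neg]; exact mul_le_one' h2 (𝔭.valuation_le_one β)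
    refine ⟨h1, h2, h3, ?_⟩
    have := hmv 𝔭
    rwa [max_eq_left (by rwa [map_mul, h1, one_mul]), mul_one] at this
  have hall : ∀ 𝔭 : HeightOneSpectrum (𝓞 F),
      Int4 (𝔭.valuation F) (((gq (A : F) d x y).act s (-y * β) 0 1).smul (m ^ 2 / s ^ 2)) :=
    fun 𝔭 => by
      rcases lt_or_ge 1 (𝔭.valuation F x) with hx | hx
      · exact (hnon 𝔭 hx).1
      · obtain ⟨h1, h2, h3, h4⟩ := hint 𝔭 hx
        exact model_int (𝔭.valuation_le_one A) hx h2 h1 h3 hs0 (𝔭.valuation_le_one s) h4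
  obtain ⟨fa, ha⟩ := HeightOneSpectrum.mem_integers_of_valuation_le_one F _ fun 𝔭 => (hall 𝔭).1
  obtain ⟨fb, hb⟩ := HeightOneSpectrum.mem_integers_of_valuation_le_one F _ fun 𝔭 => (hall 𝔭).2.1
  obtain ⟨fc, hc⟩ := HeightOneSpectrum.mem_integers_of_valuation_le_one F _ fun 𝔭 => (hall 𝔭).2.2.1
  obtain ⟨fd, hd2⟩ := HeightOneSpectrum.mem_integers_of_valuation_le_one F _
    fun 𝔭 => (hall 𝔭).2.2.2.1
  obtain ⟨fe, he⟩ := HeightOneSpectrum.mem_integers_of_valuation_le_one F _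
    fun 𝔭 => (hall 𝔭).2.2.2.2
  refine ⟨⟨fa, fb, fc, fd, fe⟩, s, -y * β, hs0, ?_, fun 𝔭 hm1 => ⟨fun hx => ?_, fun hx => ?_⟩⟩
  · ext <;> simp only [Q4.map, Q4.smul, ha, hb, hc, hd2, he, Q4.act, gq, pt] <;> field_simp <;> ring
  · have e : algebraMap (𝓞 F) F fa = m ^ 2 * (d * s ^ 2) := by
      rw [ha]; simp only [Q4.smul, Q4.act, gq]; field_simp; ring
    show 𝔭.valuation F (algebraMap (𝓞 F) F fa) < 1
    rw [e, map_mul, map_pow, hm1, one_pow, one_mul]
    exact (hnon 𝔭 hx).2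
  · obtain ⟨-, h2, h3, h4⟩ := hint 𝔭 hx
    exact ⟨le_antisymm (𝔭.valuation_le_one s) (hm1 ▸ h4), h3, h2⟩

end Pool.Agent.Lib.MP_7cad78_nt.NF
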