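import Pool.Agent.Lib.MP_7cad78_nt.NF.Twist
import Pool.Agent.Lib.MP_7cad78_nt.NF.Model

/-! Either some twist has all its points divisible by two, or there is a special quartic. -/

namespace Pool.Agent.Lib.MP_7cad78_nt.NF

open NumberField NumberField.mixedEmbedding IsDedekindDomain WithZero Q4

open scoped Classical

lemma real_root {A x y : ℝ} (hA : 0 < A) : (pt A x y).Root := by
  obtain ⟨L, hL⟩ : ∃ L, L = 1 + (|6 * x| + |8 * y| + (3 * x ^ 2 + 4 * A)) := ⟨_, rfl⟩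
  have h1 := abs_nonneg (6 * x)
  have h2 := abs_nonneg (8 * y)
  have h3 : 0 < 3 * x ^ 2 + 4 * A := by positivity
  have hL1 : 1 ≤ L := by linarith
  have hc : ContinuousOn (fun l : ℝ => (pt A x y).ev l 1) (Set.Icc 0 L) := by
    simp only [ev]; fun_prop
  obtain ⟨l, -, hl⟩ := intermediate_value_Icc (by linarith) hc (a := 0) (b := L) (show (0 : ℝ) ∈ _ from
    ⟨by simp only [ev, pt]; linarith, by
      simp only [ev, pt]
      have a0 : L ≤ L ^ 2 := by nlinarith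
      have a1 : 6 * x * L ^ 2 ≤ |6 * x| * L ^ 2 := by gcongr; exact le_abs_self _
      have a2 : 8 * y * L ≤ |8 * y| * L ^ 2 := mul_le_mul (le_abs_self _) a0 (by linarith) h2
      have a3 : 3 * x ^ 2 + 4 * A ≤ (3 * x ^ 2 + 4 * A) * L ^ 2 :=
        le_mul_of_one_le_right h3.le (by linarith)
      have a4 : (|6 * x| + |8 * y| + (3 * x ^ 2 + 4 * A)) * L ^ 2 ≤ L ^ 2 * L ^ 2 := by
        gcongr; linarith
      nlinarith⟩)
  exact ⟨l, 1, by simp, hl⟩

lemma pt_root {k : Type*} [Field k] {A x y : k} (h : (pt A x y).Root) :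
    ∃ l, (pt A x y).ev l 1 = 0 := by
  obtain ⟨u, v, huv, h⟩ := h
  have hv : v ≠ 0 := by
    rintro rfl
    simp only [ev, pt] at h
    rcases huv with hu | hu
    · exact pow_ne_zero 4 hu (by linear_combination h)
    · exact hu rfl
  refine ⟨u / v, ?_⟩
  have := (pt A x y).ev_scale v (u / v) 1
  rw [mul_div_cancel₀ _ hv, mul_one, h] at this
  exact (mul_eq_zero.1 this.symm).resolve_left (pow_ne_zero _ hv)

lemma map_ident {R k : Type*} [CommRing R] [CommRing k] (g : R →+* k) {f : Q4 R}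
    {A d x y s κ m : R} (h : f.smul (s ^ 2 * d ^ 3) =
      ((pt (d ^ 2 * A) (d * x) (d ^ 2 * y)).act (d * s) (d * κ) 0 1).smul (m ^ 2)) :
    (f.map g).smul (g s ^ 2 * g d ^ 3) =
      ((pt (g d ^ 2 * g A) (g d * g x) (g d ^ 2 * g y)).act (g d * g s) (g d * g κ) 0 1).smul
        (g m ^ 2) := by
  have := congrArg (Q4.map g) h
  simpa [Q4.map, Q4.smul, Q4.act, pt, map_ofNat] using this

lemma root_ident {k : Type*} [Field k] {f : Q4 k} {A d x y s κ m : k} (hd : d ≠ 0) (hs : s ≠ 0)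
    (h : f.smul (s ^ 2 * d ^ 3) =
      ((pt (d ^ 2 * A) (d * x) (d ^ 2 * y)).act (d * s) (d * κ) 0 1).smul (m ^ 2))
    (hr : (pt (d ^ 2 * A) (d * x) (d ^ 2 * y)).Root) : f.Root :=
  Root.of_smul (t := s ^ 2 * d ^ 3) (by simp [hd, hs])
    (h ▸ (hr.act (by simp [hd, hs])).smul _)

lemma map_inj {R k : Type*} [CommRing R] [CommRing k] {g : R →+* k} (hg : Function.Injective g)
    {f f' : Q4 R} (h : f.map g = f'.map g) : f = f' :=
  Q4.ext (hg (congrArg Q4.a h)) (hg (congrArg Q4.b h)) (hg (congrArg Q4.c h))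
    (hg (congrArg Q4.d h)) (hg (congrArg Q4.e h))

lemma map_smul' {R k : Type*} [CommRing R] [CommRing k] (g : R →+* k) (f : Q4 R) (t : R) :
    (f.smul t).map g = (f.map g).smul (g t) := by
  simp [Q4.map, Q4.smul]

lemma map_pt {R k : Type*} [CommRing R] [CommRing k] (g : R →+* k) (A x y : R) :
    (pt A x y).map g = pt (g A) (g x) (g y) := by
  simp [Q4.map, pt, map_ofNat]

variable {F : Type*} [Field F] [NumberField F]

/-- every affine point has the `x`-coordinate of a double -/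
def Half (A B : F) : Prop :=
  ∀ x y : F, y ^ 2 = x ^ 3 + A * x + B → ∃ x1 y1 : F, y1 ^ 2 = x1 ^ 3 + A * x1 + B ∧
    x * (4 * (x1 ^ 3 + A * x1 + B)) = x1 ^ 4 - 2 * A * x1 ^ 2 - 8 * B * x1 + A ^ 2

variable (F) in
theorem dich : ∃ m : ℕ, m ≠ 0 ∧ ∀ (ι : Type) [Fintype ι] (Y : Sys F ι) (i0 : ι) (σ0 : Emb F)
    (A B : 𝓞 F), (∀ i, (m : ZMod (Y.p i)) ≠ 0) → Y.Nice i0 σ0 A B → (∀ w, 0 < (emb F A).1 w) →
    (∃ U, Half ((Y.d U : F) ^ 2 * A) ((Y.d U : F) ^ 3 * B)) ∨
    ∃ f : Q4 (𝓞 F), f.I = -48 * m ^ 4 * A ∧ f.J = -1728 * m ^ 6 * B ∧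
      ¬ (f.map (algebraMap (𝓞 F) F)).Root ∧ (∀ w, (f.map ((cR w).comp (emb F))).Root) ∧
      ∀ i σ, (f.map ((Y.S i).r σ)).Root := by
  obtain ⟨m, hm, hmod⟩ := model F
  refine ⟨m, hm, fun ι _ Y i0 σ0 A B hmp h hpos => ?_⟩
  obtain ⟨U, hU⟩ := h.twist
  by_cases hH : Half ((Y.d U : F) ^ 2 * A) ((Y.d U : F) ^ 3 * B)
  · exact Or.inl ⟨U, hH⟩
  right
  have hd : (Y.d U : F) ≠ 0 := by exact_mod_cast Y.d_ne U
  have hm' : (m : F) ≠ 0 := by exact_mod_cast hm
  obtain ⟨x, y, hxy, hno⟩ : ∃ x y : F, Y.d U * y ^ 2 = x ^ 3 + A * x + B ∧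
      ¬ (pt ((Y.d U : F) ^ 2 * A) (Y.d U * x) (Y.d U ^ 2 * y)).Root := by
    simp only [Half, not_forall] at hH
    obtain ⟨X, Z, h1, h2⟩ := hH
    refine ⟨X / Y.d U, Z / Y.d U ^ 2, ?_, fun hr => ?_⟩
    · field_simp
      linear_combination h1
    · rw [mul_div_cancel₀ _ hd, mul_div_cancel₀ _ (pow_ne_zero 2 hd)] at hr
      obtain ⟨l, hl⟩ := pt_root hr
      exact h2 (half_of_root two_ne_zero h1 hl)
  have hin : ∀ i ∈ U, ∀ σ, 1 < (Y.loc i σ).v x := fun i hi σ => by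
    by_cases hσ : i = i0 ∨ σ ≠ σ0
    · exact (Y.loc i σ).nonint_T0 (A := (Y.S i).up σ A) (B := (Y.S i).up σ B)
        (by simpa using h.t0 i σ hσ) (Y.loc_in hi σ).1 (h.y_ne hxy) hxy
    · push Not at hσ
      obtain ⟨h1, rfl⟩ := hσ
      by_contra hle
      refine hU x y hxy i ⟨h1, not_lt.1 hle, fun h2 => ?_⟩
      rw [(Y.loc_in hi σ).1, ← exp_zero, exp_inj] at h2
      omega
  obtain ⟨f, s, κ, hs, hid, hloc⟩ := hmod A B (Y.d U) x y (by exact_mod_cast Y.d_ne U)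
    (by simpa using hxy) fun 𝔭 => by
      by_cases hp : ((Y.d U : ℕ) : 𝓞 F) ∈ 𝔭.asIdeal
      · right
        rw [Sys.d, Nat.cast_prod] at hp
        have := 𝔭.isPrime
        obtain ⟨i, hi, hp⟩ := Ideal.IsPrime.prod_mem_iff.1 hp
        obtain ⟨σ, rfl⟩ := (Y.S i).eq_P hp
        have hcoe : ((Y.d U : 𝓞 F) : F) = Y.d U := by simp
        rw [hcoe]
        exact ⟨(Y.loc_in hi σ).1, hin i hi σ⟩
      · exact Or.inl ((HeightOneSpectrum.valuation_eq_one_iff_notMem 𝔭 (K := F)).2 hp)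
  have hcoe : ((Y.d U : 𝓞 F) : F) = Y.d U := by simp
  rw [hcoe] at hid
  have hc : ((Y.d U : F) ^ 2 * y) ^ 2 = (Y.d U * x) ^ 3 + Y.d U ^ 2 * A * (Y.d U * x) +
      Y.d U ^ 3 * B := by linear_combination (Y.d U : F) ^ 3 * hxy
  refine ⟨f, ?_, ?_, fun hr => hno ?_, fun w => ?_, fun i σ => ?_⟩
  · apply RingOfIntegers.coe_injective
    have := congrArg Q4.I hid
    rw [I_smul, I_smul, I_act, pt_I, map_I] at this
    apply mul_left_cancel₀ (pow_ne_zero 2 (mul_ne_zero (pow_ne_zero 2 hs) (pow_ne_zero 3 hd)))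
    rw [this]
    simp only [map_mul, map_neg, map_pow, map_natCast, map_ofNat]
    change _ = _ * (_ * (A : F))
    ring
  · apply RingOfIntegers.coe_injective
    have := congrArg Q4.J hid
    rw [J_smul, J_smul, J_act, pt_J hc, map_J] at this
    apply mul_left_cancel₀ (pow_ne_zero 3 (mul_ne_zero (pow_ne_zero 2 hs) (pow_ne_zero 3 hd)))
    rw [this]
    simp only [map_mul, map_neg, map_pow, map_natCast, map_ofNat]
    change _ = _ * (_ * (B : F))
    ring
  · have := hr.smul (s ^ 2 * Y.d U ^ 3)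
    rw [hid] at this
    exact (this.of_smul (pow_ne_zero 2 hm')).of_act (by simp [hd, hs])
  · let g : F →+* ℝ := (cR w).comp (mixedEmbedding F)
    refine root_ident ((map_ne_zero g).2 hd) ((map_ne_zero g).2 hs) (map_ident g hid)
      (real_root ?_)
    exact mul_pos (pow_pos (by rw [map_natCast]; exact_mod_cast Nat.pos_of_ne_zero (Y.d_ne U)) 2)
      (hpos w)
  · have hvm : (Y.loc i σ).v m = 1 := by
      have := (Y.loc i σ).v_eq_one (z := m) (by rw [map_natCast]; exact hmp i)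
      simpa using this
    obtain ⟨k1, k2⟩ := hloc ((Y.S i).P σ) hvm
    rcases lt_or_ge 1 ((Y.loc i σ).v x) with hx | hx
    · exact ⟨1, 0, by simp, by simpa [ev, Q4.map] using ((Y.S i).v_lt σ _).1 (k1 hx)⟩
    have hi : i ∉ U := fun hi => (hin i hi σ).not_ge hx
    obtain ⟨l1, l2, l3⟩ := k2 hx
    let L := Y.loc i σ
    let X : L.v.integer := ⟨x, hx⟩
    let Z : L.v.integer := ⟨y, l3⟩
    let S : L.v.integer := ⟨s, l1.le⟩
    let Kp : L.v.integer := ⟨κ, l2⟩
    let f' : Q4 L.v.integer := ⟨(Y.S i).up σ f.a, (Y.S i).up σ f.b, (Y.S i).up σ f.c,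
      (Y.S i).up σ f.d, (Y.S i).up σ f.e⟩
    have hid' : f'.smul (S ^ 2 * (Y.d U : L.v.integer) ^ 3) =
        ((pt ((Y.d U : L.v.integer) ^ 2 * (Y.S i).up σ A) (Y.d U * X) (Y.d U ^ 2 * Z)).act
          (Y.d U * S) (Y.d U * Kp) 0 1).smul ((m : L.v.integer) ^ 2) := by
      apply map_inj (g := L.v.integer.subtype) Subtype.val_injective
      rw [map_smul', map_smul', map_act, map_pt]
      simp only [map_mul, map_pow, map_natCast, map_zero, map_one]
      exact hid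
    have hf' : f'.map L.res = f.map ((Y.S i).r σ) := by
      ext <;> exact (Y.S i).res_up σ _
    have h5 := map_ident L.res hid'
    rw [hf', map_natCast, (Y.S i).res_up] at h5
    obtain ⟨hD0, hD⟩ := Y.d_out hi
    have hcv : (Y.d U : ZMod (Y.p i)) * L.res Z ^ 2 =
        L.res X ^ 3 + (Y.S i).r σ A * L.res X + (Y.S i).r σ B := by
      have : (Y.d U : L.v.integer) * Z ^ 2 = X ^ 3 + (Y.S i).up σ A * X + (Y.S i).up σ B :=
        Subtype.ext (by simpa using hxy)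
      simpa only [map_mul, map_pow, map_add, map_natCast, L, Split.res_up] using congrArg L.res this
    refine root_ident hD0 (L.res_ne (z := S) l1) h5 ?_
    generalize (Y.d U : ZMod (Y.p i)) = D at *
    by_cases hσ : i = i0 ∨ σ ≠ σ0
    · obtain ⟨l, hl⟩ := root_T0 (Y.two_ne i) (A := D ^ 2 * (Y.S i).r σ A) (B := D ^ 3 * (Y.S i).r σ B)
        (x := D * L.res X) (y := D ^ 2 * L.res Z) (fun t ht => h.t0 i σ hσ (t / D) (by
          field_simp
          linear_combination ht)) (by linear_combination D ^ 3 * hcv)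
      exact ⟨l, 1, by simp, hl⟩
    · push Not at hσ
      obtain ⟨h1, rfl⟩ := hσ
      obtain ⟨hB, hA⟩ := h.t1 i h1
      have hnb : ¬ (L.v x < 1 ∨ L.sym x = -1) := fun h' => hU x y hxy i ⟨h1, hx, fun _ => h'⟩
      push Not at hnb
      have hvx : L.v (X : F) = 1 := le_antisymm hx hnb.1
      have hsq : IsSquare (L.res X) := by
        by_contra h'
        exact hnb.2 ((L.sym_unit X hvx).trans (quadraticChar_neg_one_iff_not_isSquare.2 h'))
      obtain ⟨l, hl⟩ := root_T1 (Y.two_ne i) (ε := -(D ^ 2 * (Y.S i).r σ A))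
        (x := D * L.res X) (y := D ^ 2 * L.res Z) (by
          rintro ⟨t, ht⟩
          exact hA ⟨t / D, by field_simp; linear_combination ht⟩)
        (by rw [hB] at hcv; linear_combination D ^ 3 * hcv)
        (mul_ne_zero hD0 (L.res_ne hvx)) (hD.mul hsq)
      rw [neg_neg] at hl
      exact ⟨l, 1, by simp, hl⟩

end Pool.Agent.Lib.MP_7cad78_nt.NF
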