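import Pool.Agent.Lib.MP_7cad78_nt.NF.Q

/-! Lattice points of the ring of integers in balls of the mixed space. -/

namespace Pool.Agent.Lib.MP_7cad78_nt.NF

open NumberField NumberField.mixedEmbedding MeasureTheory Metric

open scoped Classical

section pack

variable {E : Type*} [NormedAddCommGroup E] [NormedSpace ℝ E] [FiniteDimensional ℝ E]

lemma pack (s : Finset E) {x : E} {r l : ℝ} (hl : 0 < l) (hr : 0 ≤ r) (h1 : ∀ u ∈ s, ‖u - x‖ ≤ r)
    (h2 : ∀ u ∈ s, ∀ w ∈ s, u ≠ w → l ≤ ‖u - w‖) :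
    (s.card : ℝ) ≤ (2 * r / l + 1) ^ Module.finrank ℝ E := by
  borelize E
  let μ : Measure E := Measure.addHaar
  have hd : Set.PairwiseDisjoint (s : Set E) fun u => ball u (l / 2) := fun u hu w hw hne =>
    ball_disjoint_ball (by rw [add_halves, dist_eq_norm]; exact h2 u hu w hw hne)
  have hsub : (⋃ u ∈ s, ball u (l / 2)) ⊆ ball x (r + l / 2) := by
    refine Set.iUnion₂_subset fun u hu => ball_subset_ball' ?_
    rw [dist_eq_norm]; linarith [h1 u hu]
  have h3 := measure_mono (μ := μ) hsub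
  rw [measure_biUnion_finset hd fun _ _ => measurableSet_ball] at h3
  simp only [μ.addHaar_ball_of_pos _ (half_pos hl)] at h3
  rw [μ.addHaar_ball_of_pos x (by positivity), Finset.sum_const, nsmul_eq_mul, ← mul_assoc,
    ENNReal.mul_le_mul_iff_left (measure_ball_pos _ _ one_pos).ne' measure_ball_lt_top.ne,
    ← ENNReal.ofReal_natCast, ← ENNReal.ofReal_mul (by positivity),
    ENNReal.ofReal_le_ofReal_iff (by positivity)] at h3
  have e : 2 * r / l + 1 = (r + l / 2) / (l / 2) := by field_simp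
  rw [e, div_pow, le_div_iff₀ (by positivity)]
  exact h3

lemma cover (s : Finset E) {x : E} {r c : ℝ} (hc : 0 < c) (hr : 0 < r)
    (h : ∀ y, ‖y - x‖ < r → ∃ u ∈ s, ‖y - u‖ < c) : (r / c) ^ Module.finrank ℝ E ≤ s.card := by
  borelize E
  let μ : Measure E := Measure.addHaar
  have hsub : ball x r ⊆ ⋃ u ∈ s, ball u c := fun y hy => by
    obtain ⟨u, hu, h'⟩ := h y (mem_ball_iff_norm.1 hy)
    exact Set.mem_biUnion hu (mem_ball_iff_norm.2 h')
  have h3 := (measure_mono (μ := μ) hsub).trans (measure_biUnion_finset_le _ _)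
  simp only [μ.addHaar_ball_of_pos _ hc] at h3
  rw [μ.addHaar_ball_of_pos _ hr, Finset.sum_const, nsmul_eq_mul, ← mul_assoc,
    ENNReal.mul_le_mul_iff_left (measure_ball_pos _ _ one_pos).ne' measure_ball_lt_top.ne,
    ← ENNReal.ofReal_natCast, ← ENNReal.ofReal_mul (by positivity),
    ENNReal.ofReal_le_ofReal_iff (by positivity)] at h3
  rw [div_pow, div_le_iff₀ (by positivity)]
  exact h3

end pack

variable (F : Type*) [Field F] [NumberField F]

/-- the embedding of the integers in the mixed space -/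
noncomputable def emb : 𝓞 F →+* mixedSpace F := (mixedEmbedding F).comp (algebraMap (𝓞 F) F)

/-- the degree -/
noncomputable abbrev dg : ℕ := Module.finrank ℚ F

lemma dg_pos : 0 < dg F := Module.finrank_pos

variable {F}

lemma emb_inj : Function.Injective (emb F) :=
  (mixedEmbedding_injective F).comp RingOfIntegers.coe_injective

lemma norm_le_iff {x : mixedSpace F} {r : ℝ} : ‖x‖ ≤ r ↔ ∀ w, normAtPlace w x ≤ r := by
  rw [norm_eq_sup'_normAtPlace, Finset.sup'_le_iff]; simp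

lemma normAt_le (w : InfinitePlace F) (x : mixedSpace F) : normAtPlace w x ≤ ‖x‖ :=
  norm_le_iff.1 le_rfl w

lemma normAt_emb (w : InfinitePlace F) (u : 𝓞 F) : normAtPlace w (emb F u) = w u :=
  normAtPlace_apply w _

lemma norm_emb_le_iff {u : 𝓞 F} {r : ℝ} : ‖emb F u‖ ≤ r ↔ ∀ σ : F →+* ℂ, ‖σ u‖ ≤ r := by
  rw [norm_le_iff]
  simp only [normAt_emb]
  exact InfinitePlace.le_iff_le (u : F) r

lemma nm_le (x : mixedSpace F) : mixedEmbedding.norm x ≤ ‖x‖ ^ dg F := by
  rw [mixedEmbedding.norm_apply, dg, ← InfinitePlace.sum_mult_eq, ← Finset.prod_pow_eq_pow_sum]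
  exact Finset.prod_le_prod (fun w _ => pow_nonneg (normAtPlace_nonneg _ _) _)
    fun w _ => pow_le_pow_left₀ (normAtPlace_nonneg _ _) (normAt_le w x) _

lemma nm_emb (u : 𝓞 F) : mixedEmbedding.norm (emb F u) = Ideal.absNorm (Ideal.span {u}) := by
  rw [Ideal.absNorm_span_singleton, Nat.cast_natAbs, Int.cast_abs]
  have := Algebra.coe_norm_int u
  show mixedEmbedding.norm (mixedEmbedding F (u : F)) = _
  rw [norm_eq_norm, ← this]; simp

lemma absNorm_le {I : Ideal (𝓞 F)} {u : 𝓞 F} (hu : u ∈ I) (h0 : u ≠ 0) :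
    (Ideal.absNorm I : ℝ) ≤ ‖emb F u‖ ^ dg F := by
  refine le_trans ?_ (nm_le _)
  rw [nm_emb, Nat.cast_le]
  refine Nat.le_of_dvd (Nat.pos_of_ne_zero ?_) (Ideal.absNorm_dvd_absNorm_of_le ?_)
  · rw [Ne, Ideal.absNorm_eq_zero_iff, Ideal.span_singleton_eq_bot]; exact h0
  · rwa [Ideal.span_singleton_le_iff_mem]

lemma one_le_norm {u : 𝓞 F} (h0 : u ≠ 0) : 1 ≤ ‖emb F u‖ := by
  have := absNorm_le (I := ⊤) (Submodule.mem_top) h0
  rw [Ideal.absNorm_top, Nat.cast_one] at this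
  exact (one_le_pow_iff_of_nonneg (norm_nonneg _) (dg_pos F).ne').1 this

lemma norm_natCast_mul (m : ℕ) (x : mixedSpace F) : ‖(m : mixedSpace F) * x‖ = m * ‖x‖ := by
  rw [← nsmul_eq_mul, ← Nat.cast_smul_eq_nsmul ℝ, _root_.norm_smul]; simp

lemma norm_one_le : ‖(1 : mixedSpace F)‖ ≤ 1 := norm_le_iff.2 fun w => by simp

lemma norm_natCast_le (m : ℕ) : ‖(m : mixedSpace F)‖ ≤ m := by
  have := norm_natCast_mul m (1 : mixedSpace F)
  rw [mul_one] at this
  rw [this]
  exact mul_le_of_le_one_right (Nat.cast_nonneg _) norm_one_le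

lemma le_norm_of_dvd {m : ℕ} {u : 𝓞 F} (h : (m : 𝓞 F) ∣ u) (h0 : u ≠ 0) : (m : ℝ) ≤ ‖emb F u‖ := by
  obtain ⟨t, rfl⟩ := h
  rw [map_mul, map_natCast, norm_natCast_mul]
  exact le_mul_of_one_le_right (Nat.cast_nonneg _) (one_le_norm (right_ne_zero_of_mul h0))

/-- packing bound for integers -/
lemma card_le (s : Finset (𝓞 F)) {x : mixedSpace F} {r l : ℝ} (hl : 0 < l) (hr : 0 ≤ r)
    (h1 : ∀ u ∈ s, ‖emb F u - x‖ ≤ r) (h2 : ∀ u ∈ s, ∀ w ∈ s, u ≠ w → l ≤ ‖emb F (u - w)‖) :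
    (s.card : ℝ) ≤ (2 * r / l + 1) ^ dg F := by
  have := pack (s.image (emb F)) (x := x) hl hr (by
    intro u hu
    obtain ⟨u', hu', rfl⟩ := Finset.mem_image.1 hu
    exact h1 u' hu') (by
    intro u hu w hw hne
    obtain ⟨u', hu', rfl⟩ := Finset.mem_image.1 hu
    obtain ⟨w', hw', rfl⟩ := Finset.mem_image.1 hw
    rw [← map_sub]
    exact h2 u' hu' w' hw' fun h => hne (by rw [h]))
  rwa [Finset.card_image_of_injective _ emb_inj, mixedEmbedding.finrank] at this

lemma finite_ball (x : mixedSpace F) (r : ℝ) : {u : 𝓞 F | ‖emb F u - x‖ ≤ r}.Finite := by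
  by_contra hinf
  obtain ⟨s, hs, hc⟩ := Set.Infinite.exists_subset_card_eq hinf
    (⌈(2 * max r 0 / 1 + 1) ^ dg F⌉₊ + 1)
  have := card_le s (x := x) one_pos (le_max_right r 0) (fun u hu => (hs hu).trans (le_max_left _ _))
    fun u _ w _ hne => one_le_norm (sub_ne_zero.2 hne)
  rw [hc] at this
  have h2 := Nat.le_ceil ((2 * max r 0 / 1 + 1) ^ dg F)
  push_cast at this
  linarith

/-- the integers in a closed ball -/
noncomputable def bl (x : mixedSpace F) (r : ℝ) : Finset (𝓞 F) := (finite_ball x r).toFinset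

lemma mem_bl {x : mixedSpace F} {r : ℝ} {u : 𝓞 F} : u ∈ bl x r ↔ ‖emb F u - x‖ ≤ r := by
  simp [bl]

variable (F) in
lemma exists_near : ∃ C : ℝ, 1 ≤ C ∧ ∀ x : mixedSpace F, ∃ u : 𝓞 F, ‖x - emb F u‖ < C := by
  refine ⟨∑ i, ‖latticeBasis F i‖ + 1, le_add_of_nonneg_left (by positivity), fun x => ?_⟩
  obtain ⟨u, hu⟩ := (mem_span_latticeBasis F).1 (ZSpan.floor (latticeBasis F) x).2
  refine ⟨u, ?_⟩
  have := ZSpan.norm_fract_le (latticeBasis F) x
  rw [ZSpan.fract_apply, ← hu] at this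
  exact this.trans_lt (lt_add_one _)

variable (F) in
/-- covering bound -/
lemma le_card : ∃ C : ℝ, 1 ≤ C ∧ ∀ (x : mixedSpace F) (r : ℝ), 2 * C ≤ r →
    (r / (2 * C)) ^ dg F ≤ (bl x r).card := by
  obtain ⟨C, hC, h⟩ := exists_near F
  refine ⟨C, hC, fun x r hr => ?_⟩
  have := cover ((bl x r).image (emb F)) (x := x) (r := r / 2) (c := C) (by linarith) (by linarith)
    fun y hy => by
      obtain ⟨u, hu⟩ := h y
      refine ⟨_, Finset.mem_image_of_mem _ (mem_bl.2 ?_), hu⟩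
      have e : emb F u - x = (y - x) - (y - emb F u) := by ring
      rw [e]
      linarith [norm_sub_le (y - x) (y - emb F u)]
  rwa [Finset.card_image_of_injective _ emb_inj, mixedEmbedding.finrank, div_div] at this

end Pool.Agent.Lib.MP_7cad78_nt.NF
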