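import Pool.Agent.Lib.MP_7cad78_nt.NF.Rec
import Pool.Agent.Lib.MP_7cad78_nt.NF.Geo
import Pool.Agent.Lib.MP_7cad78_nt.NF.Fq

/-! Counting reduced quartics, with the cusp. -/

namespace Pool.Agent.Lib.MP_7cad78_nt.NF

open NumberField Filter Q4

open scoped Classical

variable {F : Type*} [Field F] [NumberField F]

/-- forms of a box whose coefficients are `l`-separated -/
lemma box_le (s : Finset (Q4 (𝓞 F))) {S T l : ℝ} (hl : 0 < l) (hT : 1 ≤ T) (hS : l ≤ S / T ^ 2)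
    (h1 : ∀ f ∈ s, (f.map (emb F)).Sz (10 * S) T)
    (h2 : ∀ f ∈ s, ∀ g ∈ s, (f.a ≠ g.a → l ≤ ‖emb F (f.a - g.a)‖) ∧
      (f.b ≠ g.b → l ≤ ‖emb F (f.b - g.b)‖) ∧ (f.c ≠ g.c → l ≤ ‖emb F (f.c - g.c)‖) ∧
      (f.d ≠ g.d → l ≤ ‖emb F (f.d - g.d)‖) ∧ (f.e ≠ g.e → l ≤ ‖emb F (f.e - g.e)‖)) :
    (s.card : ℝ) ≤ (21 * S / l) ^ (5 * dg F) := by
  have hT0 : 0 < T := by linarith
  have hS0 : 0 < S := by
    have := hl.trans_le hS
    exact (div_pos_iff_of_pos_right (by positivity)).1 this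
  have key : ∀ (c : Q4 (𝓞 F) → 𝓞 F) (r : ℝ), l ≤ r → (∀ f ∈ s, ‖emb F (c f)‖ ≤ 10 * r) →
      (∀ f ∈ s, ∀ g ∈ s, c f ≠ c g → l ≤ ‖emb F (c f - c g)‖) →
      ((s.image c).card : ℝ) ≤ (21 * r / l) ^ dg F := fun c r hr k1 k2 => by
    refine (card_le (s.image c) (x := 0) (r := 10 * r) hl (by linarith) ?_ ?_).trans
      (pow_le_pow_left₀ (by have := hl.trans_le hr; positivity) ?_ _)
    · intro u hu
      obtain ⟨f, hf, rfl⟩ := Finset.mem_image.1 hu
      simpa using k1 f hf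
    · intro u hu w hw hne
      obtain ⟨f, hf, rfl⟩ := Finset.mem_image.1 hu
      obtain ⟨g, hg, rfl⟩ := Finset.mem_image.1 hw
      exact k2 f hf g hg hne
    · rw [div_add_one hl.ne']
      gcongr
      linarith
  have r1 : S / T ^ 2 ≤ S / T := by gcongr; nlinarith
  have r2 : S / T ≤ S := div_le_self hS0.le hT
  have r3 : S ≤ S * T := le_mul_of_one_le_right hS0.le hT
  have r4 : S * T ≤ S * T ^ 2 := by gcongr; nlinarith
  have ka := key Q4.a (S / T ^ 2) hS (fun f hf => (h1 f hf).1.trans_eq (by ring))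
    fun f hf g hg => (h2 f hf g hg).1
  have kb := key Q4.b (S / T) (by linarith) (fun f hf => (h1 f hf).2.1.trans_eq (by ring))
    fun f hf g hg => (h2 f hf g hg).2.1
  have kc := key Q4.c S (by linarith) (fun f hf => (h1 f hf).2.2.1)
    fun f hf g hg => (h2 f hf g hg).2.2.1
  have kd := key Q4.d (S * T) (by linarith) (fun f hf => (h1 f hf).2.2.2.1.trans_eq (by ring))
    fun f hf g hg => (h2 f hf g hg).2.2.2.1
  have ke := key Q4.e (S * T ^ 2) (by linarith) (fun f hf => (h1 f hf).2.2.2.2.trans_eq (by ring))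
    fun f hf g hg => (h2 f hf g hg).2.2.2.2
  have hc := Finset.card_le_card_of_injOn (s := s)
    (t := s.image Q4.a ×ˢ s.image Q4.b ×ˢ s.image Q4.c ×ˢ s.image Q4.d ×ˢ s.image Q4.e)
    (Q4.equivFun _) (fun f hf => by
      simp only [Finset.coe_product, Set.mem_prod, Finset.mem_coe]
      exact ⟨Finset.mem_image_of_mem _ hf, Finset.mem_image_of_mem _ hf,
        Finset.mem_image_of_mem _ hf, Finset.mem_image_of_mem _ hf, Finset.mem_image_of_mem _ hf⟩)
    (Q4.equivFun _).injective.injOn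
  simp only [Finset.card_product] at hc
  calc (s.card : ℝ) ≤ (s.image Q4.a).card * ((s.image Q4.b).card * ((s.image Q4.c).card *
        ((s.image Q4.d).card * (s.image Q4.e).card))) := by exact_mod_cast hc
    _ ≤ (21 * (S / T ^ 2) / l) ^ dg F * ((21 * (S / T) / l) ^ dg F * ((21 * S / l) ^ dg F *
        ((21 * (S * T) / l) ^ dg F * (21 * (S * T ^ 2) / l) ^ dg F))) := by gcongr
    _ = _ := by
      rw [pow_mul]
      simp only [← mul_pow]
      congr 1
      field_simp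

lemma dvd_all {ι : Type} [Fintype ι] (Y : Sys F ι) {u : 𝓞 F} (h : ∀ i σ, (Y.S i).r σ u = 0) :
    ((∏ i, Y.p i : ℕ) : 𝓞 F) ∣ u := by
  rw [Nat.cast_prod]
  refine Finset.prod_dvd_of_coprime (fun i _ j _ hij => ?_) fun i _ => (Y.S i).ker u (h i)
  have := (Nat.isCoprime_iff_coprime.2 ((Nat.coprime_primes (Y.prime i) (Y.prime j)).2
    fun h' => hij (Y.inj h'))).map (Int.castRingHom (𝓞 F))
  simpa [Function.onFun] using this

lemma fine_le {ι : Type} [Fintype ι] (Y : Sys F ι) (T : ∀ i, Emb F → Set (Q4 (ZMod (Y.p i))))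
    (s : Finset (Q4 (𝓞 F))) {S t : ℝ} (ht : 1 ≤ t) (hS : ((∏ i, Y.p i : ℕ) : ℝ) ≤ S / t ^ 2)
    (h1 : ∀ f ∈ s, (f.map (emb F)).Sz (10 * S) t)
    (h2 : ∀ f ∈ s, ∀ i σ, f.map ((Y.S i).r σ) ∈ T i σ) :
    (s.card : ℝ) ≤ (∏ i, ∏ σ, (T i σ).ncard : ℕ) *
      (21 * S / ((∏ i, Y.p i : ℕ) : ℝ)) ^ (5 * dg F) := by
  have hP : (0 : ℝ) < (∏ i, Y.p i : ℕ) := by
    exact_mod_cast Finset.prod_pos fun i _ => (Y.prime i).pos
  let D := Fintype.piFinset fun i => Fintype.piFinset fun σ => (T i σ).toFinite.toFinset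
  have hD : D.card = ∏ i, ∏ σ, (T i σ).ncard := by
    simp only [D, Fintype.card_piFinset, ← Set.ncard_eq_toFinset_card]
  have hsum := Finset.card_eq_sum_card_fiberwise (s := s) (t := D)
    (f := fun f i σ => f.map ((Y.S i).r σ)) fun f hf => by
      simpa [D] using h2 f hf
  rw [hsum, Nat.cast_sum, ← hD, ← nsmul_eq_mul]
  refine Finset.sum_le_card_nsmul _ _ _ fun τ _ => box_le _ hP ht hS
    (fun f hf => h1 f (Finset.mem_filter.1 hf).1) fun f hf g hg => ?_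
  have e : ∀ i σ, f.map ((Y.S i).r σ) = g.map ((Y.S i).r σ) := fun i σ =>
    congrFun (congrFun ((Finset.mem_filter.1 hf).2.trans (Finset.mem_filter.1 hg).2.symm) i) σ
  have k : ∀ {u w : 𝓞 F}, (∀ i σ, (Y.S i).r σ u = (Y.S i).r σ w) → u ≠ w →
      ((∏ i, Y.p i : ℕ) : ℝ) ≤ ‖emb F (u - w)‖ := fun h hne =>
    le_norm_of_dvd (dvd_all Y fun i σ => by rw [map_sub, h, sub_self]) (sub_ne_zero.2 hne)
  exact ⟨k fun i σ => congrArg Q4.a (e i σ), k fun i σ => congrArg Q4.b (e i σ),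
    k fun i σ => congrArg Q4.c (e i σ), k fun i σ => congrArg Q4.d (e i σ),
    k fun i σ => congrArg Q4.e (e i σ)⟩

lemma level (B : Finset (𝓞 F × 𝓞 F)) (φ : 𝓞 F × 𝓞 F → Q4 (𝓞 F)) (m : ℕ)
    (ha : ∀ x ∈ B, (φ x).a ≠ 0)
    (hi : ∀ x ∈ B, ∀ y ∈ B, (φ x).I = (φ y).I → (φ x).J = (φ y).J → x = y) :
    ((B ×ˢ Finset.range m).image fun z => (φ z.1).act 1 (z.2 : 𝓞 F) 0 1).card = B.card * m := by
  rw [Finset.card_image_of_injOn, Finset.card_product, Finset.card_range]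
  rintro ⟨x, u⟩ hx ⟨y, w⟩ hy h
  simp only [Finset.coe_product, Set.mem_prod, Finset.mem_coe] at hx hy h
  obtain rfl : x = y := hi x hx.1 y hy.1 (by simpa [I_act] using congrArg Q4.I h)
    (by simpa [J_act] using congrArg Q4.J h)
  have hb := congrArg Q4.b h
  simp only [act] at hb
  have : (4 * (φ x).a) * (u : 𝓞 F) = (4 * (φ x).a) * w := by linear_combination hb
  have := mul_left_cancel₀ (mul_ne_zero (by norm_num) (ha x hx.1)) this
  rw [Nat.cast_injective this]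

theorem cusp (F : Type*) [Field F] [NumberField F] : ∃ C : ℝ, 0 < C ∧ ∀ (ι : Type) [Fintype ι]
    (Y : Sys F ι) (T : ∀ i, Emb F → Set (Q4 (ZMod (Y.p i)))) (ε : ℝ), 0 < ε → ∀ᶠ S : ℝ in atTop,
    ∀ (B : Finset (𝓞 F × 𝓞 F)) (φ : 𝓞 F × 𝓞 F → Q4 (𝓞 F)) (j : 𝓞 F × 𝓞 F → ℕ),
      (∀ x ∈ B, (φ x).a ≠ 0 ∧ ((φ x).map (emb F)).Sz S (2 ^ j x) ∧
        ∀ i σ (u : ℕ), ((φ x).act 1 u 0 1).map ((Y.S i).r σ) ∈ T i σ) →
      (∀ x ∈ B, ∀ y ∈ B, (φ x).I = (φ y).I → (φ x).J = (φ y).J → x = y) →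
      (B.card : ℝ) ≤ C * (((∏ i, ∏ σ, (T i σ).ncard : ℕ) : ℝ) /
        ((∏ i, Y.p i : ℕ) : ℝ) ^ (5 * dg F) + ε) * S ^ (5 * dg F) := by
  refine ⟨2 * 21 ^ (5 * dg F), by positivity, fun ι _ Y T ε hε => ?_⟩
  obtain ⟨j0, hj0⟩ := exists_pow_lt_of_lt_one hε (by norm_num : (1 / 2 : ℝ) < 1)
  have hP : (0 : ℝ) < (∏ i, Y.p i : ℕ) := by
    exact_mod_cast Finset.prod_pos fun i _ => (Y.prime i).pos
  filter_upwards [eventually_ge_atTop (((∏ i, Y.p i : ℕ) : ℝ) * (2 ^ j0) ^ 2)] with S hS B φ j h1 h2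
  have hS0 : 0 < S := lt_of_lt_of_le (by positivity) hS
  set N : ℝ := ((∏ i, ∏ σ, (T i σ).ncard : ℕ) : ℝ) / ((∏ i, Y.p i : ℕ) : ℝ) ^ (5 * dg F) with hN
  have hN0 : 0 ≤ N := by positivity
  have hlev : ∀ m, ((B.filter fun x => j x = m).card : ℝ) ≤
      (21 * S) ^ (5 * dg F) * (N * (1 / 2) ^ m + if j0 ≤ m then (1 / 2) ^ m else 0) := by
    intro m
    rcases (B.filter fun x => j x = m).eq_empty_or_nonempty with h0 | ⟨x0, hx0⟩
    · rw [h0, Finset.card_empty, Nat.cast_zero]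
      split_ifs <;> positivity
    have hc := level (B.filter fun x => j x = m) φ (2 ^ m)
      (fun x hx => (h1 x (Finset.mem_filter.1 hx).1).1)
      fun x hx y hy => h2 x (Finset.mem_filter.1 hx).1 y (Finset.mem_filter.1 hy).1
    set s := ((B.filter fun x => j x = m) ×ˢ Finset.range (2 ^ m)).image
      fun z => (φ z.1).act 1 (z.2 : 𝓞 F) 0 1
    have ht : (1 : ℝ) ≤ 2 ^ m := one_le_pow₀ one_le_two
    have hs : ∀ f ∈ s, (f.map (emb F)).Sz (10 * S) (2 ^ m) ∧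
        ∀ i σ, f.map ((Y.S i).r σ) ∈ T i σ := fun f hf => by
      obtain ⟨⟨x, u⟩, hz, rfl⟩ := Finset.mem_image.1 hf
      obtain ⟨hx, hu⟩ := Finset.mem_product.1 hz
      obtain ⟨hx', rfl⟩ := Finset.mem_filter.1 hx
      refine ⟨?_, fun i σ => (h1 x hx').2.2 i σ u⟩
      rw [map_act, map_one, map_zero, map_natCast]
      exact (h1 x hx').2.1.trans' (by positivity) norm_one_le ((norm_natCast_le u).trans
        (by exact_mod_cast (Finset.mem_range.1 hu).le))
    have hc' : ((B.filter fun x => j x = m).card : ℝ) = s.card * (1 / 2) ^ m := by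
      rw [hc]; push_cast; rw [mul_assoc, ← mul_pow]; simp
    rw [hc']
    split_ifs with hm
    · obtain ⟨hx, hj⟩ := Finset.mem_filter.1 hx0
      have := box_le s one_pos ht (hj ▸ (one_le_norm (h1 x0 hx).1).trans (h1 x0 hx).2.1.1)
        (fun f hf => (hs f hf).1) fun f _ g _ =>
          ⟨fun h => one_le_norm (sub_ne_zero.2 h), fun h => one_le_norm (sub_ne_zero.2 h),
            fun h => one_le_norm (sub_ne_zero.2 h), fun h => one_le_norm (sub_ne_zero.2 h),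
            fun h => one_le_norm (sub_ne_zero.2 h)⟩
      rw [div_one] at this
      rw [mul_add]
      exact le_add_of_nonneg_of_le (by positivity) (by gcongr)
    · have := fine_le Y T s ht (by
        rw [le_div_iff₀ (by positivity)]
        refine le_trans ?_ hS
        gcongr
        · norm_num
        · omega) (fun f hf => (hs f hf).1) fun f hf => (hs f hf).2
      rw [add_zero, ← mul_assoc]
      gcongr
      refine this.trans_eq ?_
      rw [hN, div_pow]; field_simp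
  have hsum := Finset.card_eq_sum_card_fiberwise (s := B) (t := Finset.range (B.sup j + 1)) (f := j)
    fun x hx => by
      simpa [Nat.lt_succ_iff] using Finset.le_sup (f := j) hx
  rw [hsum, Nat.cast_sum]
  refine (Finset.sum_le_sum fun m _ => hlev m).trans ?_
  rw [← Finset.mul_sum, Finset.sum_add_distrib, ← Finset.mul_sum]
  have g1 := sum_geometric_two_le (B.sup j + 1)
  have g2 : ∀ M, (∑ m ∈ Finset.range M, if j0 ≤ m then (1 / 2 : ℝ) ^ m else 0) ≤
      2 * (1 / 2) ^ j0 - 2 * (1 / 2) ^ max M j0 := by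
    intro M
    induction M with
    | zero => simp
    | succ M ih =>
      rw [Finset.sum_range_succ]
      split_ifs with h
      · rw [max_eq_left h] at ih
        rw [max_eq_left (by omega), pow_succ]
        linarith
      · rw [max_eq_right (by omega)] at ih ⊢
        linarith
  have g3 := g2 (B.sup j + 1)
  have g4 : (0 : ℝ) ≤ (1 / 2) ^ max (B.sup j + 1) j0 := by positivity
  calc _ ≤ (21 * S) ^ (5 * dg F) * (N * 2 + 2 * ε) := by
        gcongr
        linarith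
    _ = _ := by rw [mul_pow]; ring

end Pool.Agent.Lib.MP_7cad78_nt.NF
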