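import Mathlib

/-! If every rational point is a double, the curve has finitely many rational points. -/

namespace Pool.Agent.Lib.MP_7cad78_nt.NF

open NumberField Height

theorem desc_height {F : Type*} [Field F] [NumberField F] (A B : F)
    (hΔ : 4 * A ^ 3 + 27 * B ^ 2 ≠ 0) : ∃ C : ℝ, ∀ x x1 : F,
      x * (4 * (x1 ^ 3 + A * x1 + B)) = x1 ^ 4 - 2 * A * x1 ^ 2 - 8 * B * x1 + A ^ 2 →
        x1 ^ 3 + A * x1 + B ≠ 0 ∧ 4 * logHeight₁ x1 - C ≤ logHeight₁ x := by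
  let W : WeierstrassCurve F := ⟨0, 0, 0, A, B⟩
  have : W.IsElliptic := ⟨by
    rw [isUnit_iff_ne_zero]
    have : W.Δ = -16 * (4 * A ^ 3 + 27 * B ^ 2) := by
      simp only [W, WeierstrassCurve.Δ, WeierstrassCurve.b₂, WeierstrassCurve.b₄,
        WeierstrassCurve.b₆, WeierstrassCurve.b₈]
      ring
    rw [this]
    exact mul_ne_zero (by norm_num) hΔ⟩
  obtain ⟨C, hC⟩ := W.abs_logHeight_addSubMap_sub_two_mul_logHeight_le
  refine ⟨C, fun x x1 e => ?_⟩
  have c0 : x1 ^ 3 + A * x1 + B ≠ 0 := fun k => hΔ (by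
    linear_combination (-(3 * x1 ^ 2 + 4 * A)) * e +
      ((3 * x1 ^ 2 + 4 * A) * 4 * x - (3 * x1 ^ 3 - 5 * A * x1 - 27 * B)) * k)
  refine ⟨c0, ?_⟩
  have h1 := (abs_le.1 (hC ![x1 ^ 2, 2 * x1, 1])).1
  have h2 : (fun i => (W.addSubMap i).eval ![x1 ^ 2, 2 * x1, 1]) =
      (4 * (x1 ^ 3 + A * x1 + B)) • ![x, 1, 0] := by
    ext i
    fin_cases i <;> simp [W, WeierstrassCurve.addSubMap, WeierstrassCurve.b₂, WeierstrassCurve.b₄,
      WeierstrassCurve.b₆, WeierstrassCurve.b₈]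
    · linear_combination -e
    · ring
    · ring
  have h3 : logHeight₁ (x1 ^ 2) ≤ logHeight ![x1 ^ 2, 2 * x1, 1] := by
    rw [logHeight₁_eq_logHeight]
    convert logHeight_comp_le (![0, 2] : Fin 2 → Fin 3) ![x1 ^ 2, 2 * x1, 1] using 2
    ext i
    fin_cases i <;> rfl
  rw [h2, logHeight_smul_eq_logHeight _ (mul_ne_zero (by norm_num) c0),
    logHeight_cons_cons_cons_zero, ← logHeight₁_eq_logHeight] at h1
  rw [logHeight₁_pow] at h3
  push_cast at h3
  linarith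

theorem desc_fin {T : Type*} (H : T → ℝ) (C : ℝ) (hf : ∀ b, {x | H x ≤ b}.Finite) (nx : T → T)
    (inj : Function.Injective nx) (h : ∀ x, 4 * H (nx x) - C ≤ H x) : Finite T := by
  have key : ∀ x, H x ≤ C / 3 := fun x => by
    by_contra k
    have := (hf (H x)).to_subtype
    have : Nonempty {y | H y ≤ H x} := ⟨⟨x, le_refl (H x)⟩⟩
    let f : {y | H y ≤ H x} → {y | H y ≤ H x} := fun y => ⟨nx y, by
      have a := h y
      have b : H y ≤ H x := y.2
      change H (nx y) ≤ H x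
      linarith⟩
    obtain ⟨y, hy⟩ := Finite.surjective_of_injective (f := f)
      (fun a b e => Subtype.ext (inj (congrArg Subtype.val e))) ⟨x, le_refl (H x)⟩
    have a := h y
    have b : H y ≤ H x := y.2
    rw [show nx y = x from congrArg Subtype.val hy] at a
    linarith
  exact Set.finite_univ_iff.1 ((hf (C / 3)).subset fun x _ => key x)

theorem rank_zero {F : Type*} [Field F] [NumberField F] [DecidableEq F] (A B : F)
    (hΔ : 4 * A ^ 3 + 27 * B ^ 2 ≠ 0)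
    (h : ∀ x y : F, y ^ 2 = x ^ 3 + A * x + B → ∃ x1 y1 : F, y1 ^ 2 = x1 ^ 3 + A * x1 + B ∧
      x * (4 * (x1 ^ 3 + A * x1 + B)) = x1 ^ 4 - 2 * A * x1 ^ 2 - 8 * B * x1 + A ^ 2) :
    Finite (⟨0, 0, 0, A, B⟩ : WeierstrassCurve F).toAffine.Point ∧
    Module.rank ℤ (⟨0, 0, 0, A, B⟩ : WeierstrassCurve F).toAffine.Point = 0 := by
  obtain ⟨C, hC⟩ := desc_height A B hΔ
  let T := {x : F // ∃ y, y ^ 2 = x ^ 3 + A * x + B}
  have hn : ∀ x : T, ∃ x1 : T, x.1 * (4 * (x1.1 ^ 3 + A * x1.1 + B)) =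
      x1.1 ^ 4 - 2 * A * x1.1 ^ 2 - 8 * B * x1.1 + A ^ 2 := fun ⟨x, y, k⟩ => by
    obtain ⟨x1, y1, a, b⟩ := h x y k
    exact ⟨⟨x1, y1, a⟩, b⟩
  choose nx hx using hn
  have fT : Finite T := desc_fin (fun x => logHeight₁ x.1) C
    (fun b => (finite_setOfPred_logHeight₁_le F b).preimage Subtype.val_injective.injOn) nx
    (fun a b e => Subtype.ext (mul_right_cancel₀
      (mul_ne_zero (by norm_num : (4 : F) ≠ 0) (hC _ _ (hx a)).1) (by rw [hx a, e, hx b])))
    fun x => (hC _ _ (hx x)).2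
  have fP : {p : F × F | p.2 ^ 2 = p.1 ^ 3 + A * p.1 + B}.Finite := by
    refine Set.Finite.of_finite_fibers Prod.fst ((Set.toFinite (Set.range (Subtype.val : T → F))).subset ?_) ?_
    · rintro _ ⟨p, k, rfl⟩
      exact ⟨⟨p.1, p.2, k⟩, rfl⟩
    · rintro x -
      refine Set.Finite.of_finite_image (f := Prod.snd)
        ((Polynomial.nthRoots 2 (x ^ 3 + A * x + B)).toFinset.finite_toSet.subset ?_) ?_
      · rintro _ ⟨p, ⟨k, rfl⟩, rfl⟩
        simpa [Polynomial.mem_nthRoots] using k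
      · rintro p ⟨-, a⟩ q ⟨-, b⟩ e
        exact Prod.ext (a.trans b.symm) e
  have fin : Finite (⟨0, 0, 0, A, B⟩ : WeierstrassCurve F).toAffine.Point := by
    have := fP.to_subtype
    refine Finite.of_injective
      (β := Option {p : F × F | p.2 ^ 2 = p.1 ^ 3 + A * p.1 + B}) (fun P => match P with
        | .zero => none
        | .some x y k => some ⟨(x, y), by
            simpa [WeierstrassCurve.Affine.equation_iff] using k.1⟩) ?_
    rintro (_ | ⟨x, y, k⟩) (_ | ⟨x', y', k'⟩) e <;> simp_all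
  exact ⟨fin, rank_eq_zero_iff.2 fun P => ⟨Nat.card _, Nat.cast_ne_zero.2 Nat.card_pos.ne', by
    rw [natCast_zsmul, card_nsmul_eq_zero']⟩⟩

end Pool.Agent.Lib.MP_7cad78_nt.NF
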