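import Pool.Agent.Lib.MP_7cad78_nt.NF.Geo

/-! Pairs in a residue class whose discriminant is not divisible by the square of a prime. -/

namespace Pool.Agent.Lib.MP_7cad78_nt.NF

open NumberField IsDedekindDomain Filter Finset

open scoped Classical

variable {F : Type*} [Field F] [NumberField F]

/-- the integers of a residue class in a ball -/
noncomputable def cls (x : mixedEmbedding.mixedSpace F) (r : ℝ) (M : ℕ) (a : 𝓞 F) : Finset (𝓞 F) :=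
  (bl x r).filter fun u => (M : 𝓞 F) ∣ u - a

lemma mem_cls {x : mixedEmbedding.mixedSpace F} {r : ℝ} {M : ℕ} {a u : 𝓞 F} :
    u ∈ cls x r M a ↔ ‖emb F u - x‖ ≤ r ∧ (M : 𝓞 F) ∣ u - a := by simp [cls, mem_bl]

lemma cls_up {x : mixedEmbedding.mixedSpace F} {r N U : ℝ} {M : ℕ} {a b : 𝓞 F} {I : Ideal (𝓞 F)} (hM : M ≠ 0)
    (hr : 0 ≤ r) (hU : (2 * r / M) ^ dg F ≤ U) (hN : 0 < N) (hI : N ≤ Ideal.absNorm I)
    (hc : ∀ t, (M : 𝓞 F) * t ∈ I → t ∈ I) (s : Finset (𝓞 F)) (hs : ∀ u ∈ s, u ∈ cls x r M a ∧ u - b ∈ I) :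
    (#s : ℝ) ≤ 2 ^ dg F * (U / N + 1) := by
  have n0 := (dg_pos F).ne'
  have M0 : (0 : ℝ) < M := by positivity
  have l0 : 0 < N ^ (dg F : ℝ)⁻¹ := Real.rpow_pos_of_pos hN _
  have e := Real.rpow_inv_natCast_pow hN.le n0
  refine (card_le s (x := x) (mul_pos M0 l0) hr (fun u h => (mem_cls.1 (hs u h).1).1) fun u h w h' ne => ?_).trans
    ((add_pow_le (by positivity) zero_le_one _).trans ?_)
  · obtain ⟨t, ht⟩ := dvd_sub (mem_cls.1 (hs u h).1).2 (mem_cls.1 (hs w h').1).2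
    have m := sub_mem (hs u h).2 (hs w h').2
    rw [sub_sub_sub_cancel_right] at ht m
    rw [ht] at m ⊢
    rw [map_mul, map_natCast, norm_natCast_mul]
    refine mul_le_mul_of_nonneg_left ((pow_le_pow_iff_left₀ l0.le (norm_nonneg _) n0).1 ?_) M0.le
    exact e.trans_le <| hI.trans (absNorm_le (hc t m) (by rintro rfl; exact ne (sub_eq_zero.1 (by simpa using ht))))
  · rw [← div_div, div_pow, e, one_pow]
    gcongr
    exacts [one_le_two, Nat.sub_le _ _]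

variable (F) in
lemma cls_low : ∃ C : ℝ, 1 ≤ C ∧ ∀ (x : mixedEmbedding.mixedSpace F) (r : ℝ) (M : ℕ) (a : 𝓞 F), M ≠ 0 →
    2 * C * M ≤ r → (r / M / (2 * C)) ^ dg F ≤ #(cls x r M a) := by
  obtain ⟨C, hC, h⟩ := le_card F
  refine ⟨C, hC, fun x r M a hM hr => ?_⟩
  have M0 : (0 : ℝ) < M := by positivity
  refine (h ((M : ℝ)⁻¹ • (x - emb F a)) (r / M) ((le_div_iff₀ M0).2 hr)).trans (Nat.cast_le.2
    (card_le_card_of_injOn (fun t => a + M * t) (fun t ht => mem_cls.2 ⟨?_, by simp⟩) fun t _ w _ e =>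
      mul_left_cancel₀ (Nat.cast_ne_zero.2 hM) (add_left_cancel e)))
  have := mul_le_mul_of_nonneg_left (mem_bl.1 ht) M0.le
  rw [← norm_natCast_mul, mul_div_cancel₀ _ M0.ne', mul_sub, ← nsmul_eq_mul M (_ • _), ← Nat.cast_smul_eq_nsmul ℝ,
    smul_inv_smul₀ M0.ne'] at this
  refine le_of_eq_of_le (congrArg _ ?_) this
  simp only [map_add, map_mul, map_natCast]
  ring

lemma over_le {l : ℕ} (hl : l.Prime) : ∃ T : Finset (Ideal (𝓞 F)), #T ≤ dg F ∧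
    ∀ P : Ideal (𝓞 F), P.IsPrime → (l : 𝓞 F) ∈ P → P ∈ T := by
  have p := Nat.prime_iff_prime_int.1 hl
  have p0 : Ideal.span {(l : ℤ)} ≠ ⊥ := by simpa using hl.ne_zero
  have := ((Ideal.span_singleton_prime p.ne_zero).2 p).isMaximal p0
  exact ⟨_, Ideal.card_primesOverFinset_le_finrank (𝓞 F) ℚ F p0, fun P h m =>
    (IsDedekindDomain.mem_primesOverFinset_iff p0 _).2 ⟨h, (Ideal.liesOver_span_iff h.ne_top p).2 (by simpa using m)⟩⟩

lemma bad_le {x : mixedEmbedding.mixedSpace F} {r s u v l : ℝ} {M : ℕ} {a b : 𝓞 F} {P : Ideal (𝓞 F)} [P.IsPrime]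
    (hM : M ≠ 0) (h6 : 6 ∣ M) (hP : (M : 𝓞 F) ∉ P) (hr : 0 ≤ r) (hs : 0 ≤ s) (hu : (2 * r / M) ^ dg F ≤ u)
    (hv : (2 * s / M) ^ dg F ≤ v) (hl : 1 ≤ l) (hN : l ≤ Ideal.absNorm P) (u1 : 1 ≤ u) (uv : v ≤ u ^ 2) :
    (#{y ∈ cls x r M a ×ˢ cls 0 s M b | 4 * y.1 ^ 3 + 27 * y.2 ^ 2 ∈ P ^ 2} : ℝ) ≤
      4 ^ dg F * (6 * (u * v) / l ^ 2 + 7 * u) := by
  have hp : P.IsPrime := inferInstance
  obtain ⟨m, rfl⟩ := h6
  have h2 : (2 : 𝓞 F) ∉ P := fun h => hP (by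
    convert P.mul_mem_right (3 * m : 𝓞 F) h using 1; push_cast; ring)
  have h3 : (27 : 𝓞 F) ∉ P := fun h => hP (by
    convert P.mul_mem_right (2 * m : 𝓞 F) (hp.mem_of_pow_mem 3 (show (3 : 𝓞 F) ^ 3 ∈ P by norm_num [h])) using 1
    push_cast; ring)
  have l0 : 0 < l := by positivity
  have v0 : 0 ≤ v := le_trans (by positivity) hv
  have c1 : ∀ t, ((6 * m : ℕ) : 𝓞 F) * t ∈ P → t ∈ P := fun t h => (hp.mem_or_mem h).resolve_left hP
  have c2 : ∀ t, ((6 * m : ℕ) : 𝓞 F) * t ∈ P ^ 2 → t ∈ P ^ 2 := fun t h => (hp.mul_mem_pow _ h).resolve_left hP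
  have p2 : P ^ 2 ≤ P := Ideal.pow_le_self two_ne_zero
  have N2 : l ^ 2 ≤ Ideal.absNorm (P ^ 2) := by rw [map_pow]; push_cast; gcongr
  have fib : ∀ A, (#{B ∈ cls 0 s (6 * m) b | 4 * A ^ 3 + 27 * B ^ 2 ∈ P ^ 2} : ℝ) ≤
      (if A ∈ P then 2 ^ dg F * (v / l + 1) else 0) + 2 * (2 ^ dg F * (v / l ^ 2 + 1)) := fun A => by
    split_ifs with hA
    · refine (cls_up (b := 0) hM hs hv l0 hN c1 _ fun B h => ⟨(mem_filter.1 h).1, ?_⟩).trans
        (le_add_of_nonneg_right (by positivity))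
      have := (P.add_mem_iff_right (P.mul_mem_left 4 (P.pow_mem_of_mem hA 3 (by simp)))).1 (p2 (mem_filter.1 h).2)
      simpa using hp.mem_of_pow_mem 2 ((hp.mem_or_mem this).resolve_left h3)
    rcases eq_empty_or_nonempty {B ∈ cls 0 s (6 * m) b | 4 * A ^ 3 + 27 * B ^ 2 ∈ P ^ 2} with e | ⟨B, hB⟩
    · rw [e]; simp; positivity
    have B0 : 2 * B ∉ P := fun h => by
      have := (P.add_mem_iff_left (P.mul_mem_left 27 (P.pow_mem_of_mem
        ((hp.mem_or_mem h).resolve_left h2) 2 (by simp)))).1 (p2 (mem_filter.1 hB).2)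
      exact (hp.mem_or_mem this).elim (fun h => h2 (hp.mem_of_pow_mem 2 (by norm_num [h])))
        fun h => hA (hp.mem_of_pow_mem 3 h)
    have k := fun w => cls_up (a := b) (b := w) hM hs hv (pow_pos l0 2) N2 c2
      {y ∈ cls 0 s (6 * m) b | y - w ∈ P ^ 2} fun _ h => mem_filter.1 h
    rw [zero_add, two_mul]
    refine le_trans ?_ (add_le_add (k B) (k (-B)))
    norm_cast
    refine (card_le_card fun y hy => ?_).trans (card_union_le _ _)
    have m := (hp.mul_mem_pow _ (show 27 * ((y - B) * (y - -B)) ∈ P ^ 2 by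
      convert sub_mem (mem_filter.1 hy).2 (mem_filter.1 hB).2 using 1; ring)).resolve_left h3
    simp only [mem_union, mem_filter, (mem_filter.1 hy).1, true_and]
    by_cases c : y - B ∈ P
    · exact .inl ((hp.mul_mem_pow _ (by rwa [mul_comm] at m : (y - -B) * (y - B) ∈ P ^ 2)).resolve_left fun h => B0 (by
        convert sub_mem h c using 1; ring))
    · exact .inr ((hp.mul_mem_pow _ m).resolve_left c)
  have a1 := cls_up (a := a) (b := 0) hM hr hu l0 hN c1 {A ∈ cls x r (6 * m) a | A ∈ P} fun _ h => by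
    simpa using mem_filter.1 h
  have a2 := cls_up (a := a) (b := 0) (I := ⊤) hM hr hu one_pos (by simp) (fun _ _ => trivial)
    (cls x r (6 * m) a) fun _ h => ⟨h, trivial⟩
  have e : #{y ∈ cls x r (6 * m) a ×ˢ cls 0 s (6 * m) b | 4 * y.1 ^ 3 + 27 * y.2 ^ 2 ∈ P ^ 2} =
      ∑ A ∈ cls x r (6 * m) a, #{B ∈ cls 0 s (6 * m) b | 4 * A ^ 3 + 27 * B ^ 2 ∈ P ^ 2} := by
    simp only [card_filter, sum_product]
  rw [e, Nat.cast_sum]
  refine (sum_le_sum fun A _ => fib A).trans ?_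
  rw [sum_add_distrib, ← sum_filter, sum_const, sum_const, nsmul_eq_mul, nsmul_eq_mul]
  refine (add_le_add (mul_le_mul_of_nonneg_right a1 (by positivity))
    (mul_le_mul_of_nonneg_right a2 (by positivity))).trans ?_
  have e4 : (4 : ℝ) ^ dg F = 2 ^ dg F * 2 ^ dg F := by rw [← mul_pow]; norm_num
  have k1 : u / l ≤ u := div_le_self (by positivity) hl
  have k2 : v / l ≤ u * v / l ^ 2 + u := by
    rcases le_total l u with c | c
    · refine le_add_of_le_of_nonneg ?_ (by positivity)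
      rw [sq, mul_comm, ← div_mul_div_comm]
      exact le_mul_of_one_le_right (by positivity) ((one_le_div l0).2 c)
    · exact le_add_of_nonneg_of_le (by positivity) ((div_le_iff₀ l0).2 (uv.trans (by rw [sq]; gcongr)))
  have k3 : v / l ^ 2 ≤ u * v / l ^ 2 := by gcongr; exact le_mul_of_one_le_left v0 u1
  rw [e4]
  calc _ = 2 ^ dg F * 2 ^ dg F * (3 * (u * v / l ^ 2) + u / l + v / l + 2 * (v / l ^ 2) + 2 * u + 3) := by ring
    _ ≤ 2 ^ dg F * 2 ^ dg F * (6 * (u * v / l ^ 2) + 7 * u) := by gcongr ?_ * ?_; linarith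
    _ = _ := by ring

lemma pi_small {ε : ℝ} (hε : 0 < ε) : ∀ᶠ y : ℝ in atTop, (#(Nat.primesLE ⌊y⌋₊) : ℝ) ≤ ε * y := by
  filter_upwards [Chebyshev.eventually_primeCounting_le one_pos, eventually_gt_atTop 1,
    Real.tendsto_log_atTop.eventually_ge_atTop ((Real.log 4 + 1) / ε)] with y a b c
  rw [Nat.primesLE_card_eq_primeCounting]
  refine a.trans ((div_le_iff₀ (Real.log_pos b)).2 ?_)
  rw [div_le_iff₀ hε] at c
  nlinarith

variable (F) in
lemma sieve_aux : ∃ (z : ℕ) (c : ℝ), 3 ≤ z ∧ 0 < c ∧ ∀ M : ℕ, M ≠ 0 → 6 ∣ M →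
    (∀ l : ℕ, l.Prime → l ≤ z → l ∣ M) → ∀ a b : 𝓞 F,
    (∀ P : Ideal (𝓞 F), P.IsPrime → (M : 𝓞 F) ∈ P → 4 * a ^ 3 + 27 * b ^ 2 ∉ P) →
    ∀ᶠ R : ℝ in atTop, c * (R ^ 5 / M ^ 2) ^ dg F ≤ #{y ∈ cls ((R ^ 2 / 2) • 1) (R ^ 2 / 4) M a ×ˢ
      cls 0 (R ^ 3 / 2) M b | ∀ 𝔭 : HeightOneSpectrum (𝓞 F), 4 * y.1 ^ 3 + 27 * y.2 ^ 2 ∉ 𝔭.asIdeal ^ 2} := by
  obtain ⟨C, hC, low⟩ := cls_low F
  obtain ⟨c, hc⟩ : ∃ c : ℝ, c = ((8 * C) ^ dg F)⁻¹ ^ 2 / 3 := ⟨_, rfl⟩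
  obtain ⟨κ, hκ⟩ : ∃ κ : ℝ, κ = dg F * 4 ^ dg F := ⟨_, rfl⟩
  have n0 := dg_pos F
  have c0 : 0 < c := by rw [hc]; positivity
  have κ0 : 0 < κ := by rw [hκ]; positivity
  refine ⟨⌈12 * κ / c⌉₊ + 3, c, by simp, c0, fun M hM h6 hz a b hab => ?_⟩
  have M0 : (0 : ℝ) < M := by positivity
  have t : Tendsto (fun R : ℝ => (6 * R ^ 3) ^ dg F) atTop atTop :=
    (tendsto_pow_atTop n0.ne').comp ((tendsto_pow_atTop three_ne_zero).const_mul_atTop (by norm_num))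
  filter_upwards [t.eventually (pi_small (ε := c / (7 * κ * (6 * M) ^ dg F)) (by positivity)),
    eventually_ge_atTop (8 * C * M)] with R hπ hR
  have M1 : (1 : ℝ) ≤ M := Nat.one_le_cast.2 (Nat.pos_of_ne_zero hM)
  have RM : (M : ℝ) ≤ R := by nlinarith
  have R1 : 1 ≤ R := M1.trans RM
  have R2 : R ≤ R ^ 2 := le_self_pow₀ R1 two_ne_zero
  have R3 : R ≤ R ^ 3 := le_self_pow₀ R1 three_ne_zero
  obtain ⟨u, hu⟩ : ∃ u, u = (R ^ 2 / M) ^ dg F := ⟨_, rfl⟩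
  obtain ⟨v, hv⟩ : ∃ v, v = (R ^ 3 / M) ^ dg F := ⟨_, rfl⟩
  have u1 : 1 ≤ u := hu ▸ one_le_pow₀ ((one_le_div M0).2 (RM.trans R2))
  have v0 : 0 ≤ v := by rw [hv]; positivity
  have uv : v ≤ u ^ 2 := by
    rw [hu, hv, pow_right_comm]
    gcongr
    rw [div_pow, div_le_div_iff₀ M0 (by positivity)]
    calc R ^ 3 * M ^ 2 = R ^ 3 * M * M := by ring
      _ ≤ R ^ 3 * R * M := by gcongr
      _ = _ := by ring
  rw [(by rw [hu, hv, ← mul_pow]; congr 1; ring : (R ^ 5 / M ^ 2) ^ dg F = u * v)]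
  have l1 : 3 * c * (u * v) ≤ #(cls ((R ^ 2 / 2) • 1) (R ^ 2 / 4) M a ×ˢ cls 0 (R ^ 3 / 2) M b) := by
    rw [card_product, Nat.cast_mul]
    refine le_trans ?_ (mul_le_mul (low _ _ M a hM (by linarith)) (low _ _ M b hM (by nlinarith))
      (by positivity) (by positivity))
    calc _ = (R ^ 2 / M / (8 * C)) ^ dg F * (R ^ 3 / M / (8 * C)) ^ dg F := by
          rw [hc, hu, hv, div_pow _ (8 * C), div_pow _ (8 * C)]; ring
      _ ≤ _ := by
        gcongr ?_ ^ _ * ?_ ^ _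
        · exact le_of_eq (by ring)
        · rw [div_div, div_div, div_div]
          exact div_le_div_of_nonneg_left (by positivity) (by positivity) (by nlinarith)
  choose! T T1 T2 using fun l => over_le (F := F) (l := l)
  obtain ⟨z, hz'⟩ : ∃ z, z = ⌈12 * κ / c⌉₊ + 3 := ⟨_, rfl⟩
  rw [← hz'] at hz
  have l2 : (#{y ∈ cls ((R ^ 2 / 2) • 1) (R ^ 2 / 4) M a ×ˢ cls 0 (R ^ 3 / 2) M b |
      ¬∀ 𝔭 : HeightOneSpectrum (𝓞 F), 4 * y.1 ^ 3 + 27 * y.2 ^ 2 ∉ 𝔭.asIdeal ^ 2} : ℝ) ≤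
      ∑ l ∈ Nat.primesLE ⌊(6 * R ^ 3) ^ dg F⌋₊ with z < l, κ * (6 * (u * v) / l ^ 2 + 7 * u) := by
    refine (Nat.cast_le.2 ((card_le_card (t := (Nat.primesLE ⌊(6 * R ^ 3) ^ dg F⌋₊ |>.filter (z < ·)).biUnion
      fun l => ((T l).filter fun P => P.IsPrime ∧ (M : 𝓞 F) ∉ P ∧ l ≤ Ideal.absNorm P).biUnion fun P =>
        {y ∈ cls ((R ^ 2 / 2) • 1) (R ^ 2 / 4) M a ×ˢ cls 0 (R ^ 3 / 2) M b |
          4 * y.1 ^ 3 + 27 * y.2 ^ 2 ∈ P ^ 2}) fun y hy => ?_).trans card_biUnion_le)).trans ?_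
    · obtain ⟨hy, e⟩ := mem_filter.1 hy
      push Not at e
      obtain ⟨P, e⟩ := e
      obtain ⟨y1, y2⟩ := mem_product.1 hy
      rw [mem_cls] at y1 y2
      have g : ∀ P : Ideal (𝓞 F), P.IsPrime → (M : 𝓞 F) ∈ P → 4 * y.1 ^ 3 + 27 * y.2 ^ 2 ∉ P := fun P h m e =>
        hab P h m (by
          convert sub_mem (sub_mem e (P.mul_mem_left (4 * (y.1 ^ 2 + y.1 * a + a ^ 2)) (P.mem_of_dvd y1.2 m)))
            (P.mul_mem_left (27 * (y.2 + b)) (P.mem_of_dvd y2.2 m)) using 1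
          ring)
      have mP := fun m => g _ P.isPrime m (Ideal.pow_le_self two_ne_zero e)
      have d0 : 4 * y.1 ^ 3 + 27 * y.2 ^ 2 ≠ 0 := fun e => by
        obtain ⟨Q, h, m⟩ := Ideal.exists_le_maximal (Ideal.span {((2 : ℕ) : 𝓞 F)}) fun h => by
          have := congrArg Ideal.absNorm h
          rw [Ideal.absNorm_span_natCast, RingOfIntegers.rank, Ideal.absNorm_top] at this
          exact n0.ne' (by simpa using this)
        exact g Q h.isPrime (Q.mem_of_dvd (Nat.cast_dvd_cast ((by norm_num : 2 ∣ 6).trans h6))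
          (m (Ideal.mem_span_singleton_self _))) (e ▸ zero_mem _)
      have := P.isMaximal
      obtain ⟨l, k, k0, m, hl, N⟩ := Ideal.exists_prime_and_absNorm_eq_pow P.asIdeal
      have lN : l ≤ Ideal.absNorm P.asIdeal := N ▸ Nat.le_self_pow k0.ne' l
      refine mem_biUnion.2 ⟨l, mem_filter.2 ⟨Nat.mem_primesLE.2 ⟨Nat.le_floor ?_, hl⟩, lt_of_not_ge fun h =>
        mP (P.asIdeal.mem_of_dvd (Nat.cast_dvd_cast (hz l hl h)) m)⟩,
        mem_biUnion.2 ⟨_, mem_filter.2 ⟨T2 l hl _ P.isPrime m, P.isPrime, mP, lN⟩, mem_filter.2 ⟨hy, e⟩⟩⟩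
      have := absNorm_le e d0
      rw [map_pow, Nat.cast_pow] at this
      refine (Nat.cast_le.2 lN).trans ((pow_le_pow_iff_left₀ (by positivity) (by positivity) two_ne_zero).1
        (this.trans ?_))
      rw [pow_right_comm]
      gcongr
      have n1 : ‖emb F y.1‖ ≤ R ^ 2 := (norm_le_norm_add_norm_sub' _ _).trans ((add_le_add
        ((norm_smul_le _ _).trans (mul_le_of_le_one_right (norm_nonneg _) norm_one_le)) y1.1).trans (by
          rw [Real.norm_of_nonneg (by positivity)]; nlinarith))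
      have n2 : ‖emb F y.2‖ ≤ R ^ 3 := by
        have := y2.1
        rw [sub_zero] at this
        nlinarith
      have e : emb F (4 * y.1 ^ 3 + 27 * y.2 ^ 2) = (4 : ℕ) * emb F y.1 ^ 3 + (27 : ℕ) * emb F y.2 ^ 2 := by
        simp [map_ofNat]
      rw [e]
      refine (norm_add_le _ _).trans ?_
      rw [norm_natCast_mul, norm_natCast_mul]
      have n3 := (norm_pow_le' _ three_pos).trans (pow_le_pow_left₀ (norm_nonneg _) n1 3)
      have n4 := (norm_pow_le' _ two_pos).trans (pow_le_pow_left₀ (norm_nonneg _) n2 2)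
      push_cast
      nlinarith [pow_pos (zero_lt_one.trans_le R1) 6]
    rw [Nat.cast_sum]
    refine sum_le_sum fun l hl => (Nat.cast_le.2 card_biUnion_le).trans ?_
    have p := Nat.prime_of_mem_primesLE (mem_filter.1 hl).1
    rw [Nat.cast_sum, hκ, mul_assoc, ← nsmul_eq_mul]
    refine (sum_le_card_nsmul _ _ _ fun P hP => ?_).trans
      (nsmul_le_nsmul_left (by positivity) ((card_filter_le _ _).trans (T1 l p)))
    obtain ⟨_, p1, p2⟩ := (mem_filter.1 hP).2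
    refine bad_le hM h6 p1 (by positivity) (by positivity) ?_ (hv.trans (by congr 1; ring)).ge
      (Nat.one_le_cast.2 p.pos) (Nat.cast_le.2 p2) u1 uv
    rw [hu]
    gcongr
    nlinarith
  have l3 : ∑ l ∈ Nat.primesLE ⌊(6 * R ^ 3) ^ dg F⌋₊ with z < l, κ * (6 * (u * v) / l ^ 2 + 7 * u) ≤
      2 * c * (u * v) := by
    have s1 : ∑ l ∈ Nat.primesLE ⌊(6 * R ^ 3) ^ dg F⌋₊ with z < l, ((l : ℝ) ^ 2)⁻¹ ≤ c / (6 * κ) := by
      refine ((sum_le_sum_of_subset_of_nonneg (fun l hl => mem_Ioo.2 ⟨(mem_filter.1 hl).2,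
        Nat.lt_succ_of_le (Nat.le_of_mem_primesLE (mem_filter.1 hl).1)⟩) fun _ _ _ => by positivity).trans
        (sum_Ioo_inv_sq_le _ _)).trans ?_
      have := Nat.le_ceil (12 * κ / c)
      rw [div_le_iff₀ c0] at this
      rw [div_le_div_iff₀ (by positivity) (by positivity), hz']
      push_cast
      nlinarith
    have s2 : (#{l ∈ Nat.primesLE ⌊(6 * R ^ 3) ^ dg F⌋₊ | z < l} : ℝ) ≤ c / (7 * κ) * v :=
      (Nat.cast_le.2 (card_filter_le _ _)).trans (hπ.trans_eq (by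
        rw [hv, div_pow, mul_pow, mul_pow]; field_simp))
    simp only [mul_add, sum_add_distrib, sum_const, nsmul_eq_mul]
    simp only [div_eq_mul_inv _ ((_ : ℝ) ^ 2), ← mul_sum]
    calc _ ≤ κ * (6 * (u * v) * (c / (6 * κ))) + c / (7 * κ) * v * (κ * (7 * u)) := by gcongr
      _ = _ := by field_simp; ring
  have := card_filter_add_card_filter_not (s := cls ((R ^ 2 / 2) • 1) (R ^ 2 / 4) M a ×ˢ cls 0 (R ^ 3 / 2) M b)
    fun y => ∀ 𝔭 : HeightOneSpectrum (𝓞 F), 4 * y.1 ^ 3 + 27 * y.2 ^ 2 ∉ 𝔭.asIdeal ^ 2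
  rw [← this, Nat.cast_add] at l1
  linarith

theorem sieve (F : Type*) [Field F] [NumberField F] : ∃ (z : ℕ) (c : ℝ), 0 < c ∧ ∀ P : ℕ, P ≠ 0 →
    (∀ l : ℕ, l.Prime → l ∣ P → z < l) → ∀ A0 B0 : 𝓞 F,
    (∀ 𝔭 : HeightOneSpectrum (𝓞 F), (P : 𝓞 F) ∈ 𝔭.asIdeal → 4 * A0 ^ 3 + 27 * B0 ^ 2 ∉ 𝔭.asIdeal) →
    ∀ᶠ R : ℝ in atTop, ∃ S : Finset (𝓞 F × 𝓞 F), c * (R ^ 5 / P ^ 2) ^ dg F ≤ S.card ∧ ∀ x ∈ S,
      (P : 𝓞 F) ∣ x.1 - A0 ∧ (P : 𝓞 F) ∣ x.2 - B0 ∧ ‖emb F x.1‖ ≤ R ^ 2 ∧ ‖emb F x.2‖ ≤ R ^ 3 ∧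
      (∀ w, 0 < (emb F x.1).1 w) ∧
      ∀ 𝔭 : HeightOneSpectrum (𝓞 F), 4 * x.1 ^ 3 + 27 * x.2 ^ 2 ∉ 𝔭.asIdeal ^ 2 := by
  obtain ⟨z, c, z3, c0, h⟩ := sieve_aux F
  have f0 := z.factorial_pos
  refine ⟨z, c / ((z.factorial : ℝ) ^ 2) ^ dg F, by positivity, fun P P0 hP a b hab => ?_⟩
  have co : z.factorial.Coprime P := Nat.coprime_of_dvd fun l p u v =>
    (hP l p v).not_ge (p.dvd_factorial.1 u)
  obtain ⟨s, t, st⟩ := co.cast (R := 𝓞 F)
  obtain ⟨e, m, m3, hm⟩ := Nat.exists_eq_pow_mul_and_not_dvd f0.ne' 3 (by simp)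
  have cm : z.factorial.Coprime (4 * m ^ 3 + 27) := Nat.coprime_of_dvd fun l p u v => by
    by_cases l3 : l = 3
    · subst l3
      exact m3 (p.dvd_of_dvd_pow ((by norm_num : Nat.Coprime 3 4).dvd_of_dvd_mul_left
        ((Nat.dvd_add_left (by norm_num)).1 v)))
    have l3' : ∀ k, ¬l ∣ 3 ^ k := fun k h => l3 ((Nat.prime_dvd_prime_iff_eq p Nat.prime_three).1 (p.dvd_of_dvd_pow h))
    exact l3' 3 ((Nat.dvd_add_right (((p.dvd_mul.1 (hm ▸ u)).resolve_left (l3' e)).pow three_ne_zero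
      |>.mul_left 4)).1 v)
  obtain ⟨s', t', st'⟩ := cm.cast (R := 𝓞 F)
  have k : ∀ {M : ℕ} {a b a' b' : 𝓞 F} {Q : Ideal (𝓞 F)}, (M : 𝓞 F) ∈ Q → (M : 𝓞 F) ∣ a - a' →
      (M : 𝓞 F) ∣ b - b' → 4 * a ^ 3 + 27 * b ^ 2 ∈ Q → 4 * a' ^ 3 + 27 * b' ^ 2 ∈ Q :=
    fun {M a b a' b' Q} m u v e => by
      convert sub_mem (sub_mem e (Q.mul_mem_left (4 * (a ^ 2 + a * a' + a' ^ 2)) (Q.mem_of_dvd u m)))
        (Q.mul_mem_left (27 * (b + b')) (Q.mem_of_dvd v m)) using 1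
      ring
  have d1 : ∀ x y : 𝓞 F, (P : 𝓞 F) ∣ x * (s * z.factorial) + y * (t * P) - x := fun x y =>
    ⟨(y - x) * t, by linear_combination x * st⟩
  have d2 : ∀ x y : 𝓞 F, (z.factorial : 𝓞 F) ∣ x * (s * z.factorial) + y * (t * P) - y := fun x y =>
    ⟨(x - y) * s, by linear_combination y * st⟩
  filter_upwards [h (z.factorial * P) (by positivity) ((Nat.factorial_dvd_factorial z3).mul_right _)
    (fun l p u => (p.dvd_factorial.2 u).mul_right _) (a * (s * z.factorial) + m * (t * P))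
    (b * (s * z.factorial) + 1 * (t * P)) fun Q hQ u v => by
      rw [Nat.cast_mul] at u
      refine (hQ.mem_or_mem u).elim (fun u => hQ.ne_top ((Ideal.eq_top_iff_one _).2 ?_)) fun u =>
        hab ⟨Q, hQ, by rintro rfl; exact P0 (by simpa using u)⟩ u (k u (d1 _ _) (d1 _ _) v)
      exact st' ▸ add_mem (Q.mul_mem_left _ u) (Q.mul_mem_left _ (by simpa using k u (d2 _ _) (d2 _ _) v)),
    eventually_gt_atTop 0] with R hR R0
  refine ⟨_, le_of_eq_of_le (by simp only [div_pow, Nat.cast_mul, mul_pow]; field_simp) hR, fun x hx => ?_⟩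
  obtain ⟨hx, e⟩ := mem_filter.1 hx
  obtain ⟨x1, x2⟩ := mem_product.1 hx
  rw [mem_cls, Nat.cast_mul] at x1 x2
  have R2 := pow_pos R0 2
  have R3 := pow_pos R0 3
  refine ⟨by simpa using dvd_add ((dvd_mul_left _ _).trans x1.2) (d1 a m),
    by simpa using dvd_add ((dvd_mul_left _ _).trans x2.2) (d1 b 1), (norm_le_norm_add_norm_sub' _ _).trans
    ((add_le_add ((norm_smul_le _ _).trans (mul_le_of_le_one_right (norm_nonneg _) norm_one_le)) x1.1).trans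
      (by rw [Real.norm_of_nonneg (by positivity)]; linarith)), ?_, fun w => ?_, e⟩
  · have := x2.1
    rw [sub_zero] at this
    linarith
  · have := ((norm_le_pi_norm _ w).trans (norm_fst_le _)).trans x1.1
    simp only [Prod.fst_sub, Prod.smul_fst, Prod.fst_one, Pi.sub_apply, Pi.smul_apply, Pi.one_apply, smul_eq_mul,
      mul_one, Real.norm_eq_abs, abs_le] at this
    linarith

end Pool.Agent.Lib.MP_7cad78_nt.NF
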