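import Mathlib

/-! The family of the problem over a number field. -/

namespace Pool.Agent.Lib.MP_7cad78_nt.NF

open NumberField

variable (F : Type*) [Field F] [NumberField F]

/-- the curve `y^2 = x^3 + A x + B` over `F` -/
def curve (x : 𝓞 F × 𝓞 F) : WeierstrassCurve.Affine F := ⟨0, 0, 0, x.1, x.2⟩

/-- the pairs `(A, B)` of the family with height at most `X` -/
def fam (X : ℝ) : Set (𝓞 F × 𝓞 F) :=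
  {x | 4 * x.1 ^ 3 + 27 * x.2 ^ 2 ≠ 0 ∧
    (∀ 𝔭 : Ideal (𝓞 F), 𝔭.IsPrime → 𝔭 ≠ ⊥ → ¬ (x.1 ∈ 𝔭 ^ 4 ∧ x.2 ∈ 𝔭 ^ 6)) ∧
    ∀ σ : F →+* ℂ, max (4 * ‖σ x.1‖ ^ 3) (27 * ‖σ x.2‖ ^ 2) ≤ X}

end Pool.Agent.Lib.MP_7cad78_nt.NF
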