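import Pool.Agent.Lib.MP_7cad78_nt.NF.Bad
import Pool.Agent.Lib.MP_7cad78_nt.NF.Cnt
import Pool.Agent.Lib.MP_7cad78_nt.NF.Sieve
import Pool.Agent.Lib.MP_7cad78_nt.NF.Desc
import Pool.Agent.Lib.MP_7cad78_nt.NF.Stmt

/-! Assembly. -/

namespace Pool.Agent.Lib.MP_7cad78_nt.NF

open NumberField NumberField.mixedEmbedding IsDedekindDomain WithZero Q4 Filter

open scoped Classical

variable {F : Type*} [Field F] [NumberField F]

namespace Sys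

variable {ι : Type} [Fintype ι] (Y : Sys F ι)

lemma crt (a : ∀ i, Emb F → ZMod (Y.p i)) : ∃ u : 𝓞 F, ∀ i σ, (Y.S i).r σ u = a i σ := by
  choose u hu using fun i => (Y.S i).surj fun σ => a i σ / Y.d (Finset.univ.erase i)
  refine ⟨∑ j, Y.d (Finset.univ.erase j) * u j, fun i σ => ?_⟩
  rw [map_sum, Finset.sum_eq_single i _ (by simp), map_mul, map_natCast, hu,
    mul_div_cancel₀ _ (Y.d_out (Finset.notMem_erase i _)).1]
  intro j _ hj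
  rw [map_mul, map_natCast, (ZMod.natCast_eq_zero_iff _ _).2, zero_mul]
  exact Finset.dvd_prod_of_mem _ (by simp [hj.symm])

lemma r_eq {u w : 𝓞 F} (h : ((∏ i, Y.p i : ℕ) : 𝓞 F) ∣ u - w) (i : ι) (σ : Emb F) :
    (Y.S i).r σ u = (Y.S i).r σ w := by
  obtain ⟨t, ht⟩ := h
  rw [← sub_eq_zero, ← map_sub, ht, map_mul, map_natCast, (ZMod.natCast_eq_zero_iff _ _).2, zero_mul]
  exact Finset.dvd_prod_of_mem _ (Finset.mem_univ i)

lemma exists_class (i0 : ι) (σ0 : Emb F) : ∃ A0 B0 : 𝓞 F,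
    (∀ i, i ≠ i0 → (Y.S i).r σ0 B0 = 0 ∧ ¬ IsSquare (-(Y.S i).r σ0 A0)) ∧
    (∀ i σ, (i = i0 ∨ σ ≠ σ0) → ∀ t, t ^ 3 + (Y.S i).r σ A0 * t + (Y.S i).r σ B0 ≠ 0) := by
  have h1 : ∀ i, ∃ e : ZMod (Y.p i), ¬ IsSquare e := fun i =>
    FiniteField.exists_nonsquare (by
      rw [ZMod.ringChar_zmod_n]; have := Y.big i; omega)
  choose e he using h1
  choose b hb using fun i => exists_T0 (k := ZMod (Y.p i))
  obtain ⟨A0, hA⟩ := Y.crt fun i σ => if i = i0 ∨ σ ≠ σ0 then -1 else -e i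
  obtain ⟨B0, hB⟩ := Y.crt fun i σ => if i = i0 ∨ σ ≠ σ0 then b i else 0
  refine ⟨A0, B0, fun i hi => ?_, fun i σ h => ?_⟩
  · rw [hA, hB, if_neg (by simp [hi]), if_neg (by simp [hi]), neg_neg]
    exact ⟨rfl, he i⟩
  · rw [hA, hB, if_pos h, if_pos h]
    exact hb i

lemma disc_ne {i0 : ι} {σ0 : Emb F} {A B : 𝓞 F}
    (t1 : ∀ i, i ≠ i0 → (Y.S i).r σ0 B = 0 ∧ ¬ IsSquare (-(Y.S i).r σ0 A))
    (t0 : ∀ i σ, (i = i0 ∨ σ ≠ σ0) → ∀ t, t ^ 3 + (Y.S i).r σ A * t + (Y.S i).r σ B ≠ 0) (i σ) :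
    4 * (Y.S i).r σ A ^ 3 + 27 * (Y.S i).r σ B ^ 2 ≠ 0 := by
  by_cases h : i = i0 ∨ σ ≠ σ0
  · exact disc_T0 (Y.three_ne i) (t0 i σ h)
  · push Not at h
    obtain ⟨h1, rfl⟩ := h
    obtain ⟨hB, hA⟩ := t1 i h1
    have hA0 : (Y.S i).r σ A ≠ 0 := fun h => hA (by rw [h]; simp)
    have : 4 * (Y.S i).r σ A ^ 3 + 27 * (Y.S i).r σ B ^ 2 = 2 ^ 2 * (Y.S i).r σ A ^ 3 := by
      rw [hB]; ring
    rw [this]
    exact mul_ne_zero (pow_ne_zero _ (Y.two_ne i)) (pow_ne_zero _ hA0)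

lemma fib_prod {i0 : ι} {σ0 : Emb F} {A B : 𝓞 F} {M : ℕ} (hM : ∀ i, (M : ZMod (Y.p i)) ≠ 0)
    (t1 : ∀ i, i ≠ i0 → (Y.S i).r σ0 B = 0 ∧ ¬ IsSquare (-(Y.S i).r σ0 A))
    (t0 : ∀ i σ, (i = i0 ∨ σ ≠ σ0) → ∀ t, t ^ 3 + (Y.S i).r σ A * t + (Y.S i).r σ B ≠ 0) :
    2 ^ (Fintype.card ι - 1) * ∏ i, ∏ σ, (Fib (-48 * (M : ZMod (Y.p i)) ^ 4 * (Y.S i).r σ A)
      (-1728 * M ^ 6 * (Y.S i).r σ B)).ncard ≤ (∏ i, Y.p i) ^ (3 * dg F) := by
  have hd : ∀ i σ, 4 * (-48 * (M : ZMod (Y.p i)) ^ 4 * (Y.S i).r σ A) ^ 3 -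
      (-1728 * M ^ 6 * (Y.S i).r σ B) ^ 2 ≠ 0 := fun i σ => by
    have : 4 * (-48 * (M : ZMod (Y.p i)) ^ 4 * (Y.S i).r σ A) ^ 3 -
      (-1728 * M ^ 6 * (Y.S i).r σ B) ^ 2 =
        -(2 ^ 12 * 3 ^ 3 * M ^ 12 * (4 * (Y.S i).r σ A ^ 3 + 27 * (Y.S i).r σ B ^ 2)) := by ring
    rw [this, neg_ne_zero]
    exact mul_ne_zero (mul_ne_zero (mul_ne_zero (pow_ne_zero _ (Y.two_ne i))
      (pow_ne_zero _ (Y.three_ne i))) (pow_ne_zero _ (hM i))) (Y.disc_ne t1 t0 i σ)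
  have e1 : 2 ^ (Fintype.card ι - 1) = ∏ i, ∏ σ, if i ≠ i0 ∧ σ = σ0 then 2 else 1 := by
    have : ∀ i, (∏ σ, if i ≠ i0 ∧ σ = σ0 then 2 else 1) = if i ≠ i0 then 2 else 1 := fun i => by
      by_cases h : i = i0 <;> simp [h]
    simp_rw [this]
    rw [Finset.prod_ite, Finset.prod_const_one, mul_one, Finset.prod_const, Finset.filter_ne',
      Finset.card_erase_of_mem (Finset.mem_univ _), Finset.card_univ]
  rw [e1, ← Finset.prod_mul_distrib, ← Finset.prod_pow]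
  refine Finset.prod_le_prod' fun i _ => ?_
  rw [← Finset.prod_mul_distrib, pow_mul, dg, ← card_Emb, ← Finset.card_univ, ← Finset.prod_const]
  refine Finset.prod_le_prod' fun σ _ => ?_
  split_ifs with h
  · obtain ⟨h1, rfl⟩ := h
    have := hd i σ
    rw [(t1 i h1).1, mul_zero] at this ⊢
    simpa [Nat.card_zmod] using fib_T1 (Y.three_ne i) this
  · simpa [Nat.card_zmod] using fib_T0 (Y.three_ne i) (hd i σ)

lemma Nice.min {Y : Sys F ι} {i0 : ι} {σ0 : Emb F} {A B : 𝓞 F} (h : Y.Nice i0 σ0 A B) (U : Finset ι)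
    (𝔭 : Ideal (𝓞 F)) (hp : 𝔭.IsPrime) (h0 : 𝔭 ≠ ⊥) :
    ¬ ((Y.d U : 𝓞 F) ^ 2 * A ∈ 𝔭 ^ 4 ∧ (Y.d U : 𝓞 F) ^ 3 * B ∈ 𝔭 ^ 6) := by
  rintro ⟨h1, h2⟩
  let P : HeightOneSpectrum (𝓞 F) := ⟨𝔭, hp, h0⟩
  have hv : exp (-1) ≤ P.valuation F (Y.d U) := by
    by_cases hq : ((Y.d U : ℕ) : 𝓞 F) ∈ P.asIdeal
    · rw [Sys.d, Nat.cast_prod] at hq
      obtain ⟨i, hi, hq⟩ := Ideal.IsPrime.prod_mem_iff.1 hq
      obtain ⟨σ, hσ⟩ := (Y.S i).eq_P hq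
      rw [hσ]
      exact (Y.loc_in hi σ).1.ge
    · have := (HeightOneSpectrum.valuation_eq_one_iff_notMem P (K := F)).2 hq
      rw [map_natCast] at this
      rw [this, ← exp_zero, exp_le_exp]; omega
  have key : ∀ (u : 𝓞 F) (a : ℕ), 0 < a → (Y.d U : 𝓞 F) ^ a * u ∈ 𝔭 ^ (2 * a) → u ∈ 𝔭 := by
    intro u a ha hu
    by_contra hn
    have h3 := (P.intValuation_le_pow_iff_mem _ _).2 hu
    rw [← HeightOneSpectrum.valuation_of_algebraMap (K := F)] at h3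
    have h4 := (HeightOneSpectrum.valuation_eq_one_iff_notMem P (K := F)).2 hn
    change P.valuation F (algebraMap (𝓞 F) F _) ≤ _ at h3
    change P.valuation F (algebraMap (𝓞 F) F _) = _ at h4
    rw [map_mul, map_mul, h4, mul_one, map_pow, map_pow, map_natCast] at h3
    have h5 := (pow_le_pow_left' hv a).trans h3
    rw [← exp_nsmul, exp_le_exp, nsmul_eq_mul] at h5
    push_cast at h5
    omega
  have hA := key A 2 two_pos h1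
  have hB := key B 3 three_pos h2
  apply h.sf P
  refine add_mem (Ideal.mul_mem_left _ _ ?_) (Ideal.mul_mem_left _ _ (Ideal.pow_mem_pow hB 2))
  rw [pow_succ A]
  exact Ideal.mul_mem_right _ _ (Ideal.pow_mem_pow hA 2)

end Sys

lemma sf_ne {D : 𝓞 F} (h : ∀ 𝔭 : HeightOneSpectrum (𝓞 F), D ∉ 𝔭.asIdeal ^ 2) : D ≠ 0 := by
  obtain ⟨M, hM⟩ := Ideal.exists_maximal (𝓞 F)
  rintro rfl
  exact h ⟨M, hM.isPrime, Ring.ne_bot_of_isMaximal_of_not_isField hM (RingOfIntegers.not_isField F)⟩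
    (zero_mem _)

variable (F) in
/-- many curves of the box have a twist all of whose points are doubles -/
theorem good : ∃ (k : ℕ) (Y : Sys F (Fin (k + 1))) (σ0 : Emb F) (c : ℝ), 0 < c ∧
    ∀ᶠ R : ℝ in atTop, ∃ G : Finset (𝓞 F × 𝓞 F), c * (R ^ 5) ^ dg F ≤ G.card ∧ ∀ x ∈ G,
      Y.Nice 0 σ0 x.1 x.2 ∧ ‖emb F x.1‖ ≤ R ^ 2 ∧ ‖emb F x.2‖ ≤ R ^ 3 ∧
      ∃ U, Half ((Y.d U : F) ^ 2 * x.1) ((Y.d U : F) ^ 3 * x.2) := by
  obtain ⟨z, c, hc, hsv⟩ := sieve F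
  obtain ⟨m1, hm1, hdi⟩ := dich F
  obtain ⟨m2, K, hm2, hK, hred⟩ := reduce F
  obtain ⟨C, hC, hcu⟩ := cusp F
  have hm1' : (0 : ℝ) < m1 := by exact_mod_cast Nat.pos_of_ne_zero hm1
  set C' := C * (K * (12 * m1 ^ 2)) ^ (5 * dg F) with hC'
  have hC'0 : 0 < C' := by positivity
  obtain ⟨k, hk⟩ := pow_unbounded_of_one_lt (4 * C' / c) one_lt_two
  obtain ⟨Y, hY⟩ := exists_sys F (max z (m1 * m2)) (k + 1)
  obtain ⟨σ0⟩ : Nonempty (Emb F) := Fintype.card_pos_iff.1 (card_Emb F ▸ dg_pos F)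
  obtain ⟨A0, B0, t1, t0⟩ := Y.exists_class 0 σ0
  have hM : ∀ i, ((m1 * m2 : ℕ) : ZMod (Y.p i)) ≠ 0 := fun i h => by
    have := Nat.le_of_dvd (Nat.pos_of_ne_zero (mul_ne_zero hm1 hm2))
      ((ZMod.natCast_eq_zero_iff _ _).1 h)
    have := hY i
    omega
  have hM1 : ∀ i, (m1 : ZMod (Y.p i)) ≠ 0 := fun i h => hM i (by rw [Nat.cast_mul, h, zero_mul])
  have hM2 : ∀ i, (m2 : ZMod (Y.p i)) ≠ 0 := fun i h => hM i (by rw [Nat.cast_mul, h, mul_zero])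
  set P := ∏ i, Y.p i with hP
  have hP0 : P ≠ 0 := Y.d_ne _
  have hP' : (0 : ℝ) < P := by exact_mod_cast Nat.pos_of_ne_zero hP0
  have hs := hsv P hP0 (fun l hl hd => by
    obtain ⟨i, -, hi⟩ := (hl.prime.dvd_finsetProd_iff _).1 hd
    rw [(Nat.prime_dvd_prime_iff_eq hl (Y.prime i)).1 hi]
    have := hY i
    omega) A0 B0 (fun 𝔭 hp => by
    rw [hP, Nat.cast_prod] at hp
    have := 𝔭.isPrime
    obtain ⟨i, -, hp⟩ := Ideal.IsPrime.prod_mem_iff.1 hp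
    obtain ⟨σ, rfl⟩ := (Y.S i).eq_P hp
    intro h
    apply Y.disc_ne t1 t0 i σ
    have h2 : (Y.S i).r σ (4 * A0 ^ 3 + 27 * B0 ^ 2) = 0 := h
    simpa [map_ofNat] using h2)
  have hc2 := hcu _ Y (fun i σ => Fib (-48 * ((m1 * m2 : ℕ) : ZMod (Y.p i)) ^ 4 * (Y.S i).r σ A0)
    (-1728 * (m1 * m2 : ℕ) ^ 6 * (Y.S i).r σ B0)) (c / (4 * C' * (P ^ 2) ^ dg F)) (by positivity)
  have htend : Tendsto (fun R : ℝ => K * (12 * m1 ^ 2 * R)) atTop atTop :=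
    (tendsto_id.const_mul_atTop (by positivity)).const_mul_atTop hK
  refine ⟨k, Y, σ0, c / 2 / (P ^ 2) ^ dg F, by positivity, ?_⟩
  filter_upwards [hs, htend.eventually hc2, eventually_gt_atTop 0] with R ⟨S, hS, hS'⟩ hcnt hR
  have hN : ∀ x ∈ S, Y.Nice 0 σ0 x.1 x.2 := fun x hx => by
    obtain ⟨h1, h2, -, -, -, h6⟩ := hS' x hx
    refine ⟨fun i hi => ?_, fun i σ h => ?_, h6⟩
    · rw [Y.r_eq h1, Y.r_eq h2]; exact t1 i hi
    · rw [Y.r_eq h1, Y.r_eq h2]; exact t0 i σ h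
  let pr : 𝓞 F × 𝓞 F → Prop := fun x => ∃ U, Half ((Y.d U : F) ^ 2 * x.1) ((Y.d U : F) ^ 3 * x.2)
  refine ⟨S.filter pr, ?_, fun x hx => ?_⟩
  swap
  · obtain ⟨h1, h2⟩ := Finset.mem_filter.1 hx
    exact ⟨hN x h1, (hS' x h1).2.2.1, (hS' x h1).2.2.2.1, h2⟩
  have hbad : ∀ x ∈ S.filter (fun x => ¬ pr x), ∃ (φ : Q4 (𝓞 F)) (j : ℕ),
      φ.I = -48 * (m1 * m2 : ℕ) ^ 4 * x.1 ∧ φ.J = -1728 * (m1 * m2 : ℕ) ^ 6 * x.2 ∧ φ.a ≠ 0 ∧
      (φ.map (emb F)).Sz (K * (12 * m1 ^ 2 * R)) (2 ^ j) ∧ ∀ i σ, (φ.map ((Y.S i).r σ)).Root := by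
    intro x hx
    obtain ⟨h1, h2⟩ := Finset.mem_filter.1 hx
    obtain ⟨-, -, h3, h4, h5, h6⟩ := hS' x h1
    obtain ⟨f, fI, fJ, f1, f2, f3⟩ := (hdi _ Y 0 σ0 x.1 x.2 hM1 (hN x h1) h5).resolve_left h2
    obtain ⟨α, γ, β, δ, hdet, j, hj⟩ := hred f (12 * m1 ^ 2 * R) (by positivity) (by
      have : emb F f.I = -(((48 * m1 ^ 4 : ℕ) : mixedSpace F) * emb F x.1) := by
        rw [fI]; simp [map_ofNat]
      rw [this, norm_neg, norm_natCast_mul]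
      push_cast
      have : (0 : ℝ) ≤ m1 ^ 4 * R ^ 2 := by positivity
      nlinarith [mul_le_mul_of_nonneg_left h3 (by positivity : (0 : ℝ) ≤ 48 * m1 ^ 4)]) (by
      have : emb F f.J = -(((1728 * m1 ^ 6 : ℕ) : mixedSpace F) * emb F x.2) := by
        rw [fJ]; simp [map_ofNat]
      rw [this, norm_neg, norm_natCast_mul]
      push_cast
      nlinarith [mul_le_mul_of_nonneg_left h4 (by positivity : (0 : ℝ) ≤ 1728 * m1 ^ 6)]) (by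
      have : 4 * f.I ^ 3 - f.J ^ 2 = -(110592 * m1 ^ 12 * (4 * x.1 ^ 3 + 27 * x.2 ^ 2)) := by
        rw [fI, fJ]; ring
      rw [this, neg_ne_zero]
      exact mul_ne_zero (mul_ne_zero (by norm_num) (pow_ne_zero _ (by exact_mod_cast hm1)))
        (sf_ne h6)) f2
    refine ⟨_, j, ?_, ?_, ?_, hj, fun i σ => ?_⟩
    · rw [I_act, hdet, fI]; push_cast; ring
    · rw [J_act, hdet, fJ]; push_cast; ring
    · intro h0
      refine f1 ⟨algebraMap _ F α, algebraMap _ F β, ?_, ?_⟩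
      · by_contra hc
        simp only [ne_eq, map_eq_zero_iff _ RingOfIntegers.coe_injective, not_or, not_not] at hc
        rw [hc.1, hc.2] at hdet
        exact hm2 (by exact_mod_cast (by simpa using hdet.symm : (m2 : 𝓞 F) = 0))
      · rw [← map_ev, ← act_a f α γ β δ, h0, map_zero]
    · rw [map_act]
      refine (f3 i σ).act ?_
      rw [← map_mul, ← map_mul, ← map_sub, hdet, map_natCast]
      exact hM2 i
  have : Nonempty (Q4 (𝓞 F)) := ⟨⟨0, 0, 0, 0, 0⟩⟩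
  choose! φ j hφ using hbad
  have hM0 : ((m1 * m2 : ℕ) : 𝓞 F) ≠ 0 := by exact_mod_cast mul_ne_zero hm1 hm2
  have hB := hcnt (S.filter fun x => ¬ pr x) φ j (fun x hx => by
    obtain ⟨h1, h2, h3, h4, h5⟩ := hφ x hx
    obtain ⟨g1, g2, -⟩ := hS' x (Finset.mem_filter.1 hx).1
    refine ⟨h3, h4, fun i σ u => ⟨?_, ?_, ?_⟩⟩
    · rw [map_I, I_act, h1, ← Y.r_eq g1]; simp [map_ofNat]
    · rw [map_J, J_act, h2, ← Y.r_eq g2]; simp [map_ofNat]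
    · rw [map_act]
      exact (h5 i σ).act (by simp)) fun x hx y hy h1 h2 => by
    rw [(hφ x hx).1, (hφ y hy).1] at h1
    rw [(hφ x hx).2.1, (hφ y hy).2.1] at h2
    exact Prod.ext (mul_left_cancel₀ (mul_ne_zero (by norm_num) (pow_ne_zero _ hM0)) h1)
      (mul_left_cancel₀ (mul_ne_zero (by norm_num) (pow_ne_zero _ hM0)) h2)
  have hfib := Y.fib_prod hM t1 t0
  rw [Fintype.card_fin, Nat.add_sub_cancel, ← hP] at hfib
  rw [← hP] at hB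
  generalize (∏ i, ∏ σ, (Fib (-48 * ((m1 * m2 : ℕ) : ZMod (Y.p i)) ^ 4 * (Y.S i).r σ A0)
    (-1728 * (m1 * m2 : ℕ) ^ 6 * (Y.S i).r σ B0)).ncard) = N at hfib hB
  have hfib' : (2 : ℝ) ^ k * N ≤ (P : ℝ) ^ (3 * dg F) := by exact_mod_cast hfib
  have hsum : ((S.filter pr).card : ℝ) + (S.filter fun x => ¬ pr x).card = S.card := by
    exact_mod_cast Finset.card_filter_add_card_filter_not pr
  have hQ : (0 : ℝ) < ((P : ℝ) ^ 2) ^ dg F := by positivity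
  have e1 : (N : ℝ) / (P : ℝ) ^ (5 * dg F) ≤ c / (4 * C' * (P ^ 2) ^ dg F) := by
    rw [div_le_div_iff₀ (by positivity) (by positivity)]
    have e : (P : ℝ) ^ (5 * dg F) = (P : ℝ) ^ (3 * dg F) * (P ^ 2) ^ dg F := by ring
    rw [e, ← mul_assoc, ← mul_assoc c]
    refine mul_le_mul_of_nonneg_right ?_ hQ.le
    rw [div_lt_iff₀ hc] at hk
    have hN0 : (0 : ℝ) ≤ N := Nat.cast_nonneg _
    nlinarith [mul_le_mul_of_nonneg_left hfib' hc.le, mul_le_mul_of_nonneg_left hk.le hN0]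
  have e2 : ((S.filter fun x => ¬ pr x).card : ℝ) ≤ c / 2 / (P ^ 2) ^ dg F * (R ^ 5) ^ dg F := by
    refine hB.trans ?_
    calc _ ≤ C * (c / (4 * C' * (P ^ 2) ^ dg F) + c / (4 * C' * (P ^ 2) ^ dg F)) *
          (K * (12 * m1 ^ 2 * R)) ^ (5 * dg F) := by gcongr
      _ = C' * (c / (4 * C' * (P ^ 2) ^ dg F) + c / (4 * C' * (P ^ 2) ^ dg F)) *
          (R ^ 5) ^ dg F := by rw [hC', ← mul_assoc K, mul_pow, ← pow_mul R]; ring
      _ = _ := by field_simp; ring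
  have e3 : c * (R ^ 5 / P ^ 2) ^ dg F = 2 * (c / 2 / (P ^ 2) ^ dg F * (R ^ 5) ^ dg F) := by
    rw [div_pow]; field_simp
  linarith

variable (F) in
theorem main [DecidableEq F] : ∃ c : ℝ, 0 < c ∧ ∀ᶠ X : ℝ in atTop,
    c ≤ ({x ∈ fam F X | Module.rank ℤ (curve F x).Point = 0}.ncard : ℝ) / (fam F X).ncard := by
  obtain ⟨k, Y, σ0, c, hc, h⟩ := good F
  set P := ∏ i, Y.p i with hP
  have hP0 : P ≠ 0 := Y.d_ne _
  have hP' : (0 : ℝ) < P := by exact_mod_cast Nat.pos_of_ne_zero hP0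
  have ht1 : Tendsto (fun X : ℝ => X ^ ((6 : ℕ) : ℝ)⁻¹) atTop atTop := tendsto_rpow_atTop (by norm_num)
  have ht2 : Tendsto (fun X : ℝ => X ^ ((6 : ℕ) : ℝ)⁻¹ / (2 * P)) atTop atTop :=
    ht1.atTop_div_const (by positivity)
  refine ⟨c / 2 ^ (k + 1) / (9 * (2 * P) ^ 5) ^ dg F, by positivity, ?_⟩
  filter_upwards [ht2.eventually h, ht1.eventually_ge_atTop 1, eventually_ge_atTop 0]
    with X ⟨G, hG, hG'⟩ hρ hX
  have hρ6 : (X ^ ((6 : ℕ) : ℝ)⁻¹) ^ 6 = X := Real.rpow_inv_natCast_pow hX (by norm_num)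
  generalize X ^ ((6 : ℕ) : ℝ)⁻¹ = ρ at *
  subst hρ6
  have hρ0 : 0 < ρ := by linarith
  have hsub : fam F (ρ ^ 6) ⊆ ↑(bl (F := F) 0 (ρ ^ 2) ×ˢ bl (F := F) 0 (ρ ^ 3)) := by
    rintro x ⟨-, -, hx⟩
    simp only [Finset.coe_product, Set.mem_prod, Finset.mem_coe, mem_bl, sub_zero, norm_emb_le_iff]
    refine ⟨fun σ => ?_, fun σ => ?_⟩
    · refine le_of_pow_le_pow_left₀ three_ne_zero (by positivity) ?_
      have := (le_max_left _ _).trans (hx σ)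
      nlinarith [pow_nonneg (norm_nonneg (σ x.1)) 3]
    · refine le_of_pow_le_pow_left₀ two_ne_zero (by positivity) ?_
      have := (le_max_right _ _).trans (hx σ)
      nlinarith [pow_nonneg (norm_nonneg (σ x.2)) 2]
  have hfin : (fam F (ρ ^ 6)).Finite := (Finset.finite_toSet _).subset hsub
  have hup : ((fam F (ρ ^ 6)).ncard : ℝ) ≤ (9 * ρ ^ 5) ^ dg F := by
    have h1 := Set.ncard_le_ncard hsub (Finset.finite_toSet _)
    rw [Set.ncard_coe_finset, Finset.card_product] at h1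
    have hb : ∀ r : ℝ, 1 ≤ r → ((bl (F := F) 0 r).card : ℝ) ≤ (3 * r) ^ dg F := fun r hr =>
      (card_le (bl 0 r) (x := 0) one_pos (by linarith) (fun u hu => mem_bl.1 hu)
        fun u _ w _ hne => one_le_norm (sub_ne_zero.2 hne)).trans
        (pow_le_pow_left₀ (by positivity) (by linarith) _)
    calc _ ≤ ((bl (F := F) 0 (ρ ^ 2)).card : ℝ) * (bl (F := F) 0 (ρ ^ 3)).card := by exact_mod_cast h1
      _ ≤ (3 * ρ ^ 2) ^ dg F * (3 * ρ ^ 3) ^ dg F :=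
          mul_le_mul (hb _ (one_le_pow₀ hρ)) (hb _ (one_le_pow₀ hρ)) (by positivity) (by positivity)
      _ = _ := by rw [← mul_pow]; congr 1; ring
  choose! U hU using fun x hx => (hG' x hx).2.2.2
  set T := {x ∈ fam F (ρ ^ 6) | Module.rank ℤ (curve F x).Point = 0} with hT
  have hTfin : T.Finite := hfin.subset fun _ hx => hx.1
  have hdP : ∀ V, (Y.d V : ℝ) ≤ P := fun V => by
    exact_mod_cast Nat.le_of_dvd (Nat.pos_of_ne_zero hP0)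
      (Finset.prod_dvd_prod_of_subset _ _ _ (Finset.subset_univ V))
  have hmap : ∀ x ∈ G, ((Y.d (U x) : 𝓞 F) ^ 2 * x.1, (Y.d (U x) : 𝓞 F) ^ 3 * x.2) ∈ T := by
    intro x hx
    obtain ⟨h1, h2, h3, -⟩ := hG' x hx
    have hd : (Y.d (U x) : 𝓞 F) ≠ 0 := by exact_mod_cast Y.d_ne _
    have hΔ : 4 * ((Y.d (U x) : 𝓞 F) ^ 2 * x.1) ^ 3 + 27 * ((Y.d (U x) : 𝓞 F) ^ 3 * x.2) ^ 2 ≠ 0 := by
      have : 4 * ((Y.d (U x) : 𝓞 F) ^ 2 * x.1) ^ 3 + 27 * ((Y.d (U x) : 𝓞 F) ^ 3 * x.2) ^ 2 =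
        (Y.d (U x) : 𝓞 F) ^ 6 * (4 * x.1 ^ 3 + 27 * x.2 ^ 2) := by ring
      rw [this]
      exact mul_ne_zero (pow_ne_zero _ hd) (sf_ne h1.sf)
    refine ⟨⟨hΔ, h1.min _, fun σ => ?_⟩, ?_⟩
    · have a1 := norm_emb_le_iff.1 h2 σ
      have a2 := norm_emb_le_iff.1 h3 σ
      have a3 := hdP (U x)
      have b1 : ‖σ (((Y.d (U x) : 𝓞 F) ^ 2 * x.1 : 𝓞 F) : F)‖ ≤ P ^ 2 * (ρ / (2 * P)) ^ 2 := by
        have : (((Y.d (U x) : 𝓞 F) ^ 2 * x.1 : 𝓞 F) : F) = (Y.d (U x) : F) ^ 2 * x.1 := by simp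
        rw [this, map_mul, map_pow, map_natCast, norm_mul, norm_pow, Complex.norm_natCast]
        gcongr
      have b2 : ‖σ (((Y.d (U x) : 𝓞 F) ^ 3 * x.2 : 𝓞 F) : F)‖ ≤ P ^ 3 * (ρ / (2 * P)) ^ 3 := by
        have : (((Y.d (U x) : 𝓞 F) ^ 3 * x.2 : 𝓞 F) : F) = (Y.d (U x) : F) ^ 3 * x.2 := by simp
        rw [this, map_mul, map_pow, map_natCast, norm_mul, norm_pow, Complex.norm_natCast]
        gcongr
      have c1 : (P : ℝ) ^ 2 * (ρ / (2 * P)) ^ 2 = ρ ^ 2 / 4 := by field_simp; ring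
      have c2 : (P : ℝ) ^ 3 * (ρ / (2 * P)) ^ 3 = ρ ^ 3 / 8 := by field_simp; ring
      rw [c1] at b1
      rw [c2] at b2
      have d1 := pow_le_pow_left₀ (norm_nonneg _) b1 3
      have d2 := pow_le_pow_left₀ (norm_nonneg _) b2 2
      have d3 : 0 < ρ ^ 6 := by positivity
      exact max_le (by nlinarith) (by nlinarith)
    · have := rank_zero ((Y.d (U x) : F) ^ 2 * x.1) ((Y.d (U x) : F) ^ 3 * x.2) (by
        intro h0
        apply hΔ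
        apply RingOfIntegers.coe_injective
        simpa [map_ofNat] using h0) (hU x hx)
      have e : curve F ((Y.d (U x) : 𝓞 F) ^ 2 * x.1, (Y.d (U x) : 𝓞 F) ^ 3 * x.2) =
          (⟨0, 0, 0, (Y.d (U x) : F) ^ 2 * x.1, (Y.d (U x) : F) ^ 3 * x.2⟩ :
            WeierstrassCurve F).toAffine := by simp [curve]
      rw [e]
      exact this.2
  have hcard : G.card ≤ 2 ^ (k + 1) * T.ncard := by
    have := Finset.card_le_card_of_injOn (s := G) (t := Finset.univ ×ˢ hTfin.toFinset)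
      (fun x => (U x, ((Y.d (U x) : 𝓞 F) ^ 2 * x.1, (Y.d (U x) : 𝓞 F) ^ 3 * x.2)))
      (fun x hx => by simpa using hmap x hx) fun x _ y _ hxy => by
        simp only [Prod.mk.injEq] at hxy
        obtain ⟨h1, h2, h3⟩ := hxy
        rw [← h1] at h2 h3
        have hd : (Y.d (U x) : 𝓞 F) ≠ 0 := by exact_mod_cast Y.d_ne _
        exact Prod.ext (mul_left_cancel₀ (pow_ne_zero _ hd) h2) (mul_left_cancel₀ (pow_ne_zero _ hd) h3)
    rwa [Finset.card_product, Finset.card_univ, Fintype.card_finset, Fintype.card_fin,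
      ← Set.ncard_eq_toFinset_card _ hTfin] at this
  have hcard' : (G.card : ℝ) ≤ 2 ^ (k + 1) * T.ncard := by exact_mod_cast hcard
  have hlow : c / 2 ^ (k + 1) / (9 * (2 * P) ^ 5) ^ dg F * (9 * ρ ^ 5) ^ dg F ≤ T.ncard := by
    have e : c / 2 ^ (k + 1) / (9 * (2 * P) ^ 5) ^ dg F * (9 * ρ ^ 5) ^ dg F =
        c * ((ρ / (2 * P)) ^ 5) ^ dg F / 2 ^ (k + 1) := by
      rw [div_pow, div_pow, mul_pow 9, mul_pow 9]; field_simp
    rw [e, div_le_iff₀ (by positivity)]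
    linarith
  have hpos : (0 : ℝ) < (fam F (ρ ^ 6)).ncard := by
    have h1 : (0 : ℝ) < T.ncard := lt_of_lt_of_le (by positivity) hlow
    have h2 : T.ncard ≤ (fam F (ρ ^ 6)).ncard := Set.ncard_le_ncard (fun _ hx => hx.1) hfin
    exact h1.trans_le (by exact_mod_cast h2)
  rw [le_div_iff₀ hpos]
  exact (mul_le_mul_of_nonneg_left hup (by positivity)).trans hlow

end Pool.Agent.Lib.MP_7cad78_nt.NF
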