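import Mathlib

/-! Binary quartic forms: invariants, substitution, sizes. -/

namespace Pool.Agent.Lib.MP_7cad78_nt.NF

@[ext] structure Q4 (K : Type*) where
  a : K
  b : K
  c : K
  d : K
  e : K

namespace Q4

variable {K L : Type*} [CommRing K] [CommRing L]

def ev (f : Q4 K) (u v : K) : K :=
  f.a * u ^ 4 + f.b * u ^ 3 * v + f.c * u ^ 2 * v ^ 2 + f.d * u * v ^ 3 + f.e * v ^ 4

def I (f : Q4 K) : K := 12 * f.a * f.e - 3 * f.b * f.d + f.c ^ 2

def J (f : Q4 K) : K :=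
  72 * f.a * f.c * f.e + 9 * f.b * f.c * f.d - 27 * f.a * f.d ^ 2 - 27 * f.e * f.b ^ 2 - 2 * f.c ^ 3

/-- `(f.act p q r s)(u,v) = f(p u + q v, r u + s v)`. -/
def act (f : Q4 K) (p q r s : K) : Q4 K where
  a := f.a * p ^ 4 + f.b * p ^ 3 * r + f.c * p ^ 2 * r ^ 2 + f.d * p * r ^ 3 + f.e * r ^ 4
  b := 4 * (f.a * p ^ 3 * q) + (3 * (f.b * p ^ 2 * q * r) + f.b * p ^ 3 * s) +
    (2 * (f.c * p * q * r ^ 2) + 2 * (f.c * p ^ 2 * r * s)) +
    (f.d * q * r ^ 3 + 3 * (f.d * p * r ^ 2 * s)) + 4 * (f.e * r ^ 3 * s)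
  c := 6 * (f.a * p ^ 2 * q ^ 2) + (3 * (f.b * p * q ^ 2 * r) + 3 * (f.b * p ^ 2 * q * s)) +
    (f.c * q ^ 2 * r ^ 2 + 4 * (f.c * p * q * r * s) + f.c * p ^ 2 * s ^ 2) +
    (3 * (f.d * q * r ^ 2 * s) + 3 * (f.d * p * r * s ^ 2)) + 6 * (f.e * r ^ 2 * s ^ 2)
  d := 4 * (f.a * p * q ^ 3) + (f.b * q ^ 3 * r + 3 * (f.b * p * q ^ 2 * s)) +
    (2 * (f.c * q ^ 2 * r * s) + 2 * (f.c * p * q * s ^ 2)) +
    (3 * (f.d * q * r * s ^ 2) + f.d * p * s ^ 3) + 4 * (f.e * r * s ^ 3)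
  e := f.a * q ^ 4 + f.b * q ^ 3 * s + f.c * q ^ 2 * s ^ 2 + f.d * q * s ^ 3 + f.e * s ^ 4

def smul (t : K) (f : Q4 K) : Q4 K := ⟨t * f.a, t * f.b, t * f.c, t * f.d, t * f.e⟩

def map (g : K →+* L) (f : Q4 K) : Q4 L := ⟨g f.a, g f.b, g f.c, g f.d, g f.e⟩

lemma ev_act (f : Q4 K) (p q r s u v : K) :
    (f.act p q r s).ev u v = f.ev (p * u + q * v) (r * u + s * v) := by
  simp only [ev, act]; ring

lemma act_a (f : Q4 K) (p q r s : K) : (f.act p q r s).a = f.ev p r := rfl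

lemma I_act (f : Q4 K) (p q r s : K) : (f.act p q r s).I = (p * s - q * r) ^ 4 * f.I := by
  simp only [I, act]; ring

lemma J_act (f : Q4 K) (p q r s : K) : (f.act p q r s).J = (p * s - q * r) ^ 6 * f.J := by
  simp only [J, act]; ring

lemma act_act (f : Q4 K) (p q r s p' q' r' s' : K) :
    (f.act p q r s).act p' q' r' s' =
      f.act (p * p' + q * r') (p * q' + q * s') (r * p' + s * r') (r * q' + s * s') := by
  ext <;> simp only [act] <;> ring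

lemma act_one (f : Q4 K) : f.act 1 0 0 1 = f := by
  ext <;> simp [act]

lemma ev_smul (t : K) (f : Q4 K) (u v : K) : (f.smul t).ev u v = t * f.ev u v := by
  simp only [ev, smul]; ring

lemma I_smul (t : K) (f : Q4 K) : (f.smul t).I = t ^ 2 * f.I := by
  simp only [I, smul]; ring

lemma J_smul (t : K) (f : Q4 K) : (f.smul t).J = t ^ 3 * f.J := by
  simp only [J, smul]; ring

lemma ev_scale (f : Q4 K) (t u v : K) : f.ev (t * u) (t * v) = t ^ 4 * f.ev u v := by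
  simp only [ev]; ring

lemma map_ev (g : K →+* L) (f : Q4 K) (u v : K) : g (f.ev u v) = (f.map g).ev (g u) (g v) := by
  simp [ev, map]

lemma map_I (g : K →+* L) (f : Q4 K) : (f.map g).I = g f.I := by
  simp [I, map, map_ofNat]

lemma map_J (g : K →+* L) (f : Q4 K) : (f.map g).J = g f.J := by
  simp [J, map, map_ofNat]

lemma map_act (g : K →+* L) (f : Q4 K) (p q r s : K) :
    (f.act p q r s).map g = (f.map g).act (g p) (g q) (g r) (g s) := by
  ext <;> simp [act, map, map_ofNat]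

lemma map_map {M : Type*} [CommRing M] (g : K →+* L) (h : L →+* M) (f : Q4 K) :
    (f.map g).map h = f.map (h.comp g) := rfl

/-- a nontrivial zero -/
def Root (f : Q4 K) : Prop := ∃ u v : K, (u ≠ 0 ∨ v ≠ 0) ∧ f.ev u v = 0

lemma Root.of_act {K : Type*} [Field K] {f : Q4 K} {p q r s : K} (hd : p * s - q * r ≠ 0)
    (h : (f.act p q r s).Root) : f.Root := by
  obtain ⟨u, v, huv, h⟩ := h
  refine ⟨_, _, ?_, (ev_act ..).symm.trans h⟩
  by_contra hc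
  push Not at hc
  obtain ⟨h1, h2⟩ := hc
  have hu : (p * s - q * r) * u = 0 := by linear_combination s * h1 - q * h2
  have hv : (p * s - q * r) * v = 0 := by linear_combination p * h2 - r * h1
  rcases huv with h | h
  · exact h ((mul_eq_zero.1 hu).resolve_left hd)
  · exact h ((mul_eq_zero.1 hv).resolve_left hd)

lemma Root.act {K : Type*} [Field K] {f : Q4 K} {p q r s : K} (hd : p * s - q * r ≠ 0)
    (h : f.Root) : (f.act p q r s).Root := by
  obtain ⟨u, v, huv, h⟩ := h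
  refine ⟨s * u - q * v, p * v - r * u, ?_, ?_⟩
  · by_contra hc
    push Not at hc
    obtain ⟨h1, h2⟩ := hc
    have hu : (p * s - q * r) * u = 0 := by linear_combination p * h1 + q * h2
    have hv : (p * s - q * r) * v = 0 := by linear_combination s * h2 + r * h1
    rcases huv with h | h
    · exact h ((mul_eq_zero.1 hu).resolve_left hd)
    · exact h ((mul_eq_zero.1 hv).resolve_left hd)
  · rw [ev_act]
    have e1 : p * (s * u - q * v) + q * (p * v - r * u) = (p * s - q * r) * u := by ring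
    have e2 : r * (s * u - q * v) + s * (p * v - r * u) = (p * s - q * r) * v := by ring
    rw [e1, e2, ev_scale, h, mul_zero]

lemma Root.smul {f : Q4 K} (t : K) (h : f.Root) : (f.smul t).Root := by
  obtain ⟨u, v, huv, h⟩ := h
  exact ⟨u, v, huv, by rw [ev_smul, h, mul_zero]⟩

lemma Root.of_smul {K : Type*} [Field K] {f : Q4 K} {t : K} (ht : t ≠ 0) (h : (f.smul t).Root) :
    f.Root := by
  obtain ⟨u, v, huv, h⟩ := h
  rw [ev_smul] at h
  exact ⟨u, v, huv, (mul_eq_zero.1 h).resolve_left ht⟩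

/-- the quartic attached to a point of `y^2 = x^3 + A x + B` -/
def pt (A x y : K) : Q4 K := ⟨1, 0, -6 * x, -8 * y, -(3 * x ^ 2 + 4 * A)⟩

lemma pt_I (A x y : K) : (pt A x y).I = -48 * A := by simp only [I, pt]; ring

lemma pt_J {A B x y : K} (h : y ^ 2 = x ^ 3 + A * x + B) : (pt A x y).J = -1728 * B := by
  simp only [J, pt]; linear_combination (-1728) * h

section Size

variable {R : Type*} [SeminormedCommRing R]

/-- sizes `S/T^2, S/T, S, S T, S T^2` -/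
def Sz (S T : ℝ) (f : Q4 R) : Prop :=
  ‖f.a‖ ≤ S / T ^ 2 ∧ ‖f.b‖ ≤ S / T ∧ ‖f.c‖ ≤ S ∧ ‖f.d‖ ≤ S * T ∧ ‖f.e‖ ≤ S * T ^ 2

lemma n5 {a x1 x2 x3 x4 : R} {A X1 X2 X3 X4 : ℝ} (h : ‖a‖ ≤ A) (h1 : ‖x1‖ ≤ X1) (h2 : ‖x2‖ ≤ X2)
    (h3 : ‖x3‖ ≤ X3) (h4 : ‖x4‖ ≤ X4) : ‖a * x1 * x2 * x3 * x4‖ ≤ A * X1 * X2 * X3 * X4 :=
  norm_mul_le_of_le (norm_mul_le_of_le (norm_mul_le_of_le (norm_mul_le_of_le h h1) h2) h3) h4

lemma nadd {x y : R} {X Y : ℝ} (h1 : ‖x‖ ≤ X) (h2 : ‖y‖ ≤ Y) : ‖x + y‖ ≤ X + Y :=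
  (norm_add_le _ _).trans (add_le_add h1 h2)

lemma nnat (n : ℕ) {x : R} {X : ℝ} (h : ‖x‖ ≤ X) : ‖n • x‖ ≤ n * X :=
  (norm_nsmul_le (n := n) (a := x)).trans (mul_le_mul_of_nonneg_left h (Nat.cast_nonneg _))

/-- general bound for a substitution, with separate bounds for the entries -/
lemma act_le {f : Q4 R} {p q r s : R} {A B C D E P Q' R' S : ℝ} (ha : ‖f.a‖ ≤ A) (hb : ‖f.b‖ ≤ B)
    (hc : ‖f.c‖ ≤ C) (hd : ‖f.d‖ ≤ D) (he : ‖f.e‖ ≤ E) (hp : ‖p‖ ≤ P) (hq : ‖q‖ ≤ Q')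
    (hr : ‖r‖ ≤ R') (hs : ‖s‖ ≤ S) :
    ‖(f.act p q r s).a‖ ≤ ((⟨A, B, C, D, E⟩ : Q4 ℝ).act P Q' R' S).a ∧
    ‖(f.act p q r s).b‖ ≤ ((⟨A, B, C, D, E⟩ : Q4 ℝ).act P Q' R' S).b ∧
    ‖(f.act p q r s).c‖ ≤ ((⟨A, B, C, D, E⟩ : Q4 ℝ).act P Q' R' S).c ∧
    ‖(f.act p q r s).d‖ ≤ ((⟨A, B, C, D, E⟩ : Q4 ℝ).act P Q' R' S).d ∧
    ‖(f.act p q r s).e‖ ≤ ((⟨A, B, C, D, E⟩ : Q4 ℝ).act P Q' R' S).e := by
  refine ⟨?_, ?_, ?_, ?_, ?_⟩
  · have := nadd (nadd (nadd (nadd (n5 ha hp hp hp hp) (n5 hb hp hp hp hr)) (n5 hc hp hp hr hr))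
      (n5 hd hp hr hr hr)) (n5 he hr hr hr hr)
    convert this using 1
    · congr 1; simp only [act]; ring
    · simp only [act]; ring
  · have := nadd (nadd (nadd (nadd (nnat 4 (n5 ha hp hp hp hq))
      (nadd (nnat 3 (n5 hb hp hp hq hr)) (n5 hb hp hp hp hs)))
      (nadd (nnat 2 (n5 hc hp hq hr hr)) (nnat 2 (n5 hc hp hp hr hs))))
      (nadd (n5 hd hq hr hr hr) (nnat 3 (n5 hd hp hr hr hs)))) (nnat 4 (n5 he hr hr hr hs))
    convert this using 1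
    · congr 1; simp only [act, nsmul_eq_mul]; push_cast; ring
    · simp only [act]; push_cast; ring
  · have := nadd (nadd (nadd (nadd (nnat 6 (n5 ha hp hp hq hq))
      (nadd (nnat 3 (n5 hb hp hq hq hr)) (nnat 3 (n5 hb hp hp hq hs))))
      (nadd (nadd (n5 hc hq hq hr hr) (nnat 4 (n5 hc hp hq hr hs))) (n5 hc hp hp hs hs)))
      (nadd (nnat 3 (n5 hd hq hr hr hs)) (nnat 3 (n5 hd hp hr hs hs)))) (nnat 6 (n5 he hr hr hs hs))
    convert this using 1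
    · congr 1; simp only [act, nsmul_eq_mul]; push_cast; ring
    · simp only [act]; push_cast; ring
  · have := nadd (nadd (nadd (nadd (nnat 4 (n5 ha hp hq hq hq))
      (nadd (n5 hb hq hq hq hr) (nnat 3 (n5 hb hp hq hq hs))))
      (nadd (nnat 2 (n5 hc hq hq hr hs)) (nnat 2 (n5 hc hp hq hs hs))))
      (nadd (nnat 3 (n5 hd hq hr hs hs)) (n5 hd hp hs hs hs))) (nnat 4 (n5 he hr hs hs hs))
    convert this using 1
    · congr 1; simp only [act, nsmul_eq_mul]; push_cast; ring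
    · simp only [act]; push_cast; ring
  · have := nadd (nadd (nadd (nadd (n5 ha hq hq hq hq) (n5 hb hq hq hq hs)) (n5 hc hq hq hs hs))
      (n5 hd hq hs hs hs)) (n5 he hs hs hs hs)
    convert this using 1
    · congr 1; simp only [act]; ring
    · simp only [act]; ring

/-- columns of size `K/t` and `K t` -/
lemma Sz.cols {f : Q4 R} {S K t : ℝ} (ht : 0 < t) (h : f.Sz S 1) {p q r s : R}
    (hp : ‖p‖ ≤ K / t) (hr : ‖r‖ ≤ K / t) (hq : ‖q‖ ≤ K * t) (hs : ‖s‖ ≤ K * t) :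
    (f.act p q r s).Sz (30 * K ^ 4 * S) (t ^ 2) := by
  obtain ⟨ha, hb, hc, hd, he⟩ := h
  simp only [one_pow, div_one, mul_one] at ha hb hd he
  have hS : 0 ≤ S := (norm_nonneg _).trans hc
  obtain ⟨h1, h2, h3, h4, h5⟩ := act_le ha hb hc hd he hp hq hr hs
  have hK : 0 ≤ K ^ 4 * S := by positivity
  refine ⟨h1.trans ?_, h2.trans ?_, h3.trans ?_, h4.trans ?_, h5.trans ?_⟩ <;> simp only [act]
  · calc _ = 5 * (K ^ 4 * S) / (t ^ 2) ^ 2 := by field_simp; ring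
      _ ≤ _ := by apply div_le_div_of_nonneg_right _ (by positivity); nlinarith
  · calc _ = 20 * (K ^ 4 * S) / (t ^ 2) := by field_simp; ring
      _ ≤ _ := by apply div_le_div_of_nonneg_right _ (by positivity); nlinarith
  · calc _ = 30 * (K ^ 4 * S) := by field_simp; ring
      _ ≤ _ := by nlinarith
  · calc _ = 20 * (K ^ 4 * S) * t ^ 2 := by field_simp; ring
      _ ≤ _ := by apply mul_le_mul_of_nonneg_right _ (by positivity); nlinarith
  · calc _ = 5 * (K ^ 4 * S) * (t ^ 2) ^ 2 := by ring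
      _ ≤ _ := by apply mul_le_mul_of_nonneg_right _ (by positivity); nlinarith

/-- translation -/
lemma Sz.trans' {f : Q4 R} {S T : ℝ} (hT : 0 < T) (h : f.Sz S T) (h1 : ‖(1 : R)‖ ≤ 1) {u : R}
    (hu : ‖u‖ ≤ T) : (f.act 1 u 0 1).Sz (10 * S) T := by
  obtain ⟨ha, hb, hc, hd, he⟩ := h
  have hS : 0 ≤ S := (norm_nonneg _).trans hc
  obtain ⟨k1, k2, k3, k4, k5⟩ := act_le ha hb hc hd he h1 hu (norm_zero (E := R)).le h1
  refine ⟨k1.trans ?_, k2.trans ?_, k3.trans ?_, k4.trans ?_, k5.trans ?_⟩ <;> simp only [act]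
  · calc _ = S / T ^ 2 := by ring
      _ ≤ _ := by apply div_le_div_of_nonneg_right _ (by positivity); nlinarith
  · calc _ = 5 * S / T := by field_simp; ring
      _ ≤ _ := by apply div_le_div_of_nonneg_right _ (by positivity); nlinarith
  · calc _ = 10 * S := by field_simp; ring
      _ ≤ _ := le_rfl
  · calc _ = 10 * S * T := by field_simp; ring
      _ ≤ _ := le_rfl
  · calc _ = 5 * S * T ^ 2 := by field_simp; ring
      _ ≤ _ := by apply mul_le_mul_of_nonneg_right _ (by positivity); nlinarith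

lemma Sz.dyadic {f : Q4 R} {S T T' : ℝ} (hT' : 0 < T') (h : f.Sz S T) (h1 : T' ≤ T)
    (h2 : T ≤ 2 * T') : f.Sz (4 * S) T' := by
  obtain ⟨ha, hb, hc, hd, he⟩ := h
  have hS : 0 ≤ S := (norm_nonneg _).trans hc
  have hT : 0 < T := hT'.trans_le h1
  refine ⟨ha.trans ?_, hb.trans ?_, hc.trans (by linarith), hd.trans ?_, he.trans ?_⟩
  · gcongr; linarith
  · gcongr; linarith
  · nlinarith
  · have : T ^ 2 ≤ (2 * T') ^ 2 := by gcongr
    nlinarith

lemma Sz.mono {f : Q4 R} {S S' T : ℝ} (hT : 0 < T) (h : f.Sz S T) (h1 : S ≤ S') : f.Sz S' T := by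
  obtain ⟨ha, hb, hc, hd, he⟩ := h
  refine ⟨ha.trans ?_, hb.trans ?_, hc.trans h1, hd.trans ?_, he.trans ?_⟩ <;> gcongr

end Size

end Q4

end Pool.Agent.Lib.MP_7cad78_nt.NF
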