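import Pool.Agent.Lib.MP_7cad78_nt.NF.Split

/-! The system of split primes and the reciprocity law through the norm. -/

namespace Pool.Agent.Lib.MP_7cad78_nt.NF

open NumberField IsDedekindDomain WithZero

set_option linter.unusedSectionVars false

variable {F : Type*} [Field F] [NumberField F]

namespace Split

variable {p : ℕ} [hp : Fact p.Prime] (S : Split F p) (σ : Emb F)

def P : HeightOneSpectrum (𝓞 F) where
  asIdeal := RingHom.ker (S.r σ)
  isPrime := RingHom.ker_isPrime _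
  ne_bot := by
    intro h
    have : (p : 𝓞 F) ∈ RingHom.ker (S.r σ) := by simp [RingHom.mem_ker]
    rw [h, Ideal.mem_bot] at this
    exact hp.out.ne_zero (by exact_mod_cast this)

lemma v_lt (u : 𝓞 F) : (S.P σ).valuation F u < 1 ↔ S.r σ u = 0 :=
  HeightOneSpectrum.valuation_lt_one_iff_mem _ u

lemma v_eq {u : 𝓞 F} (h : S.r σ u ≠ 0) : (S.P σ).valuation F u = 1 :=
  le_antisymm (HeightOneSpectrum.valuation_le_one _ u) (not_lt.1 fun h' => h ((S.v_lt σ u).1 h'))

lemma v_p : (S.P σ).valuation F p = exp (-1) := by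
  classical
  obtain ⟨π, hπ⟩ := (S.P σ).intValuation_exists_uniformizer
  have hπ' : (S.P σ).valuation F π = exp (-1) := by
    rw [← hπ]; exact HeightOneSpectrum.valuation_of_algebraMap _ π
  obtain ⟨w, hw⟩ := S.surj (Pi.single σ 1)
  have h0 : S.r σ π = 0 := (S.v_lt σ π).1 (by rw [hπ', ← exp_zero, exp_lt_exp]; omega)
  obtain ⟨t, ht⟩ := S.ker (π * w) fun τ => by
    rw [map_mul, hw]
    by_cases h : τ = σ
    · rw [h, h0, zero_mul]
    · simp [h]
  have h1 : (S.P σ).valuation F w = 1 := S.v_eq σ (by rw [hw]; simp)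
  have h2 := congrArg (fun z : 𝓞 F => (S.P σ).valuation F z) ht
  simp only [map_mul, map_natCast] at h2
  apply le_antisymm
  · have h3 : (S.P σ).intValuation (p : 𝓞 F) ≤ exp (-(1 : ℕ) : ℤ) := by
      rw [HeightOneSpectrum.intValuation_le_pow_iff_mem, pow_one]
      show _ ∈ RingHom.ker _
      simp [RingHom.mem_ker]
    rw [← HeightOneSpectrum.valuation_of_algebraMap (K := F)] at h3
    simpa using h3
  · have h4 : (S.P σ).valuation F π * (S.P σ).valuation F w =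
        (S.P σ).valuation F p * (S.P σ).valuation F t := h2
    rw [h1, hπ', mul_one] at h4
    rw [h4]
    exact mul_le_of_le_one_right' (HeightOneSpectrum.valuation_le_one _ t)

noncomputable def res0 : ((S.P σ).valuation F).integer →+* ZMod p :=
  (IsLocalization.lift (M := (S.P σ).asIdeal.primeCompl)
    (S := HeightOneSpectrum.valuationSubringAtPrime F (S.P σ)) (g := S.r σ)
    (fun y => isUnit_iff_ne_zero.2 y.2)).comp
    (Subring.inclusion (S := ((S.P σ).valuation F).integer)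
      (T := (HeightOneSpectrum.valuationSubringAtPrime F (S.P σ)).toSubring) (by
        rw [HeightOneSpectrum.valuationSubringAtPrime_eq_valuationSubring]; exact fun _ h => h))

lemma res0_coe (u : 𝓞 F) (h) : S.res0 σ ⟨u, h⟩ = S.r σ u :=
  IsLocalization.lift_eq (M := (S.P σ).asIdeal.primeCompl)
    (S := HeightOneSpectrum.valuationSubringAtPrime F (S.P σ)) (g := S.r σ) _ u

lemma frac (z : ((S.P σ).valuation F).integer) :
    ∃ n d : 𝓞 F, S.r σ d ≠ 0 ∧ (z : F) * d = n ∧ S.res0 σ z * S.r σ d = S.r σ n := by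
  obtain ⟨n, d, h⟩ := (S.P σ).exists_primeCompl_mul_eq_of_integer (z : F) z.2
  refine ⟨n, d, d.2, h, ?_⟩
  rw [← S.res0_coe σ d (HeightOneSpectrum.valuation_le_one _ _),
    ← S.res0_coe σ n (HeightOneSpectrum.valuation_le_one _ _), ← map_mul]
  congr 1
  exact Subtype.ext h

noncomputable def loc : Loc F p where
  v := (S.P σ).valuation F
  res := S.res0 σ
  ker z := by
    obtain ⟨n, d, hd, h, h'⟩ := S.frac σ z
    have h2 := congrArg ((S.P σ).valuation F) h
    rw [map_mul, S.v_eq σ hd, mul_one] at h2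
    rw [h2, S.v_lt, ← h', mul_eq_zero, or_iff_left hd]
  vp := S.v_p σ

/-- an algebraic integer as a local integer -/
def up (u : 𝓞 F) : (S.loc σ).v.integer := ⟨u, HeightOneSpectrum.valuation_le_one (S.P σ) u⟩

@[simp] lemma res_up (u : 𝓞 F) : (S.loc σ).res (S.up σ u) = S.r σ u := S.res0_coe σ u _

@[simp] lemma coe_up (u : 𝓞 F) : (S.up σ u : F) = u := rfl

lemma eq_P {𝔭 : HeightOneSpectrum (𝓞 F)} (h : (p : 𝓞 F) ∈ 𝔭.asIdeal) : ∃ σ, 𝔭 = S.P σ := by
  have : ⨅ σ ∈ (Finset.univ : Finset (Emb F)), (S.P σ).asIdeal ≤ 𝔭.asIdeal := by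
    intro u hu
    simp only [Finset.mem_univ, iInf_pos, Submodule.mem_iInf] at hu
    obtain ⟨t, rfl⟩ := S.ker u hu
    exact Ideal.mul_mem_right _ _ h
  rw [← Finset.inf_eq_iInf] at this
  obtain ⟨σ, -, hσ⟩ := 𝔭.isPrime.inf_le'.1 this
  exact ⟨σ, HeightOneSpectrum.ext ((S.P σ).isMaximal.eq_of_le 𝔭.isPrime.ne_top hσ).symm⟩

end Split

/-- Legendre symbol of the prime-to-`p` part -/
noncomputable def lam (p : ℕ) [Fact p.Prime] : ℕ →* ℤ where
  toFun n := quadraticChar (ZMod p) ((ordCompl[p] n : ℕ) : ZMod p)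
  map_one' := by simp
  map_mul' a b := by rw [Nat.ordCompl_mul, Nat.cast_mul, map_mul]

lemma lam_eq {p : ℕ} [hp : Fact p.Prime] (E : ℕ) {n : ℕ} (hn : ¬ p ∣ n) :
    lam p (p ^ E * n) = quadraticChar (ZMod p) (n : ZMod p) := by
  show quadraticChar (ZMod p) ((ordCompl[p] (p ^ E * n) : ℕ) : ZMod p) = _
  rw [Nat.ordCompl_pow_mul_of_not_dvd E hp.out hn]

lemma lam_sq {p : ℕ} [hp : Fact p.Prime] {n : ℕ} (hn : n ≠ 0) : lam p n ^ 2 = 1 :=
  quadraticChar_sq_one (by
    rw [Ne, ZMod.natCast_eq_zero_iff]; exact Nat.not_dvd_ordCompl hp.out hn)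

lemma Split.lam_norm {p : ℕ} [hp : Fact p.Prime] (S : Split F p) (hm : IsSquare (-1 : ZMod p))
    {β : 𝓞 F} (hβ : β ≠ 0) :
    lam p (Ideal.absNorm (Ideal.span {β})) = ∏ σ, (S.loc σ).sym β := by
  have hβ' : (β : F) ≠ 0 := by exact_mod_cast hβ
  have : ∀ σ, ∃ (e : ℕ) (u w : 𝓞 F), β * w = p ^ e * u ∧ S.r σ u ≠ 0 ∧ S.r σ w ≠ 0 ∧
      (S.loc σ).sym β * quadraticChar _ (S.r σ w) = quadraticChar _ (S.r σ u) := by
    intro σ
    obtain ⟨e, z, hz, h⟩ := (S.loc σ).exists_unit hβ'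
    obtain ⟨n, d, hd, h1, h2⟩ := S.frac σ z
    have he : 0 ≤ e := by
      have h3 : (S.loc σ).v β ≤ 1 := HeightOneSpectrum.valuation_le_one (S.P σ) β
      rw [h, map_mul, hz, mul_one, Loc.v_zpow, ← exp_zero, exp_le_exp] at h3
      omega
    lift e to ℕ using he
    refine ⟨e, n, d, ?_, ?_, hd, ?_⟩
    · apply RingOfIntegers.coe_injective
      simp only [map_mul, map_pow, map_natCast]
      have h4 : (algebraMap (𝓞 F) F) β = (p : F) ^ e * z := by simpa using h
      have h5 : (z : F) * algebraMap (𝓞 F) F d = algebraMap (𝓞 F) F n := h1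
      rw [h4, ← h5]; ring
    · rw [← h2]; exact mul_ne_zero ((S.loc σ).res_ne hz) hd
    · rw [(S.loc σ).sym_eq e z hz h, ← h2, map_mul]; rfl
  choose e u w h1 h2 h3 h4 using this
  obtain ⟨n, hn, hn'⟩ := S.norm β e u w h1 h2 h3
  have hn0 : (n : ZMod p) ≠ 0 := by
    intro h0
    rw [h0, zero_mul] at hn'
    exact Finset.prod_ne_zero_iff.2 (fun σ _ => h2 σ) hn'.symm
  have hnd : ¬ p ∣ n.natAbs := by
    rwa [← Int.natCast_dvd, ← ZMod.intCast_zmod_eq_zero_iff_dvd]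
  rw [Ideal.absNorm_span_singleton, hn, Int.natAbs_mul, Int.natAbs_pow, Int.natAbs_natCast,
    lam_eq _ hnd]
  have hab : quadraticChar (ZMod p) (n.natAbs : ZMod p) = quadraticChar (ZMod p) (n : ZMod p) := by
    have hm1 : quadraticChar (ZMod p) (-1) = 1 :=
      (quadraticChar_one_iff_isSquare (by simp)).2 hm
    rcases Int.natAbs_eq n with h | h
    · conv_rhs => rw [h]
      simp
    · conv_rhs => rw [h]
      rw [Int.cast_neg, neg_eq_neg_one_mul, map_mul, hm1]; simp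
  have h5 := congrArg (quadraticChar (ZMod p)) hn'
  rw [map_mul, map_prod, map_prod] at h5
  simp_rw [← h4] at h5
  rw [Finset.prod_mul_distrib] at h5
  rw [hab]
  refine mul_right_cancel₀ ?_ h5
  refine Finset.prod_ne_zero_iff.2 fun σ _ => ?_
  rw [Ne, quadraticChar_eq_zero_iff]; exact h3 σ

lemma half_pow (h f : ℕ) : ∃ g, (2 * h + 1) ^ f = 2 * (h * g) + 1 ∧ g % 2 = f % 2 := by
  induction f with
  | zero => exact ⟨0, by simp⟩
  | succ f ih =>
    obtain ⟨g, h1, h2⟩ := ih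
    refine ⟨2 * (h * g) + g + 1, by rw [pow_succ, h1]; ring, by omega⟩

lemma nonsq_odd {k : Type*} [Field k] [Finite k] {l f : ℕ} [hl : Fact l.Prime] (hl2 : l ≠ 2)
    (hk : Nat.card k = l ^ f) (hl0 : (l : k) = 0) (hf : Odd f) {D : ℤ}
    (hD : legendreSym l D = -1) : ¬ IsSquare (D : k) := by
  have := Fintype.ofFinite k
  have hc : CharP k l := (CharP.charP_iff_prime_eq_zero hl.out).2 hl0
  obtain ⟨h, rfl⟩ := hl.out.odd_of_ne_two hl2
  have h1 := legendreSym.eq_pow (2 * h + 1) D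
  rw [hD, show (2 * h + 1) / 2 = h by omega] at h1
  have h2 := congrArg (ZMod.castHom (dvd_refl (2 * h + 1)) k) h1
  rw [map_pow, map_intCast, map_intCast] at h2
  have hr : ringChar k ≠ 2 := by rwa [ringChar.eq k (2 * h + 1)]
  have h0 : h ≠ 0 := by rintro rfl; exact Nat.not_prime_one hl.out
  have hD0 : (D : k) ≠ 0 := by
    intro h3; rw [h3, zero_pow h0] at h2; simp at h2
  rw [FiniteField.isSquare_iff hr hD0, ← Nat.card_eq_fintype_card, hk]
  obtain ⟨g, hg, hg'⟩ := half_pow h f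
  rw [hg, show (2 * (h * g) + 1) / 2 = h * g by omega, pow_mul, ← h2]
  have hg2 : Odd g := Nat.odd_iff.2 (hg'.trans (Nat.odd_iff.1 hf))
  push_cast
  rw [hg2.neg_one_pow]
  exact Ring.neg_one_ne_one_of_char_ne_two hr

variable (F) in
/-- a finite family of completely split primes, mutually quadratic residues -/
structure Sys (ι : Type) where
  p : ι → ℕ
  prime : ∀ i, (p i).Prime
  inj : Function.Injective p
  S : ∀ i, Split F (p i)
  sqm : ∀ i, IsSquare (-1 : ZMod (p i))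
  sq2 : ∀ i, IsSquare (2 : ZMod (p i))
  sqp : ∀ i j, i ≠ j → IsSquare (p j : ZMod (p i))
  big : ∀ i, 3 < p i

instance {ι : Type} (Y : Sys F ι) (i : ι) : Fact (Y.p i).Prime := ⟨Y.prime i⟩

lemma mod4 {p : ℕ} [hp : Fact p.Prime] (h3 : 3 < p) (h : IsSquare (-1 : ZMod p)) : p % 4 = 1 := by
  have h1 := ZMod.exists_sq_eq_neg_one_iff.1 h
  have h2 := hp.out.eq_two_or_odd
  omega

variable (F) in
lemma exists_sys (N m : ℕ) : ∃ Y : Sys F (Fin m), ∀ i, N < Y.p i := by
  have key : ∀ m, ∃ s : Finset ℕ, s.card = m ∧ (∀ p ∈ s, max N 3 < p ∧ p.Prime ∧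
      Nonempty (Split F p) ∧ IsSquare (-1 : ZMod p) ∧ IsSquare (2 : ZMod p)) ∧
      ∀ p ∈ s, ∀ q ∈ s, p ≠ q → IsSquare (q : ZMod p) := by
    intro m
    induction m with
    | zero => exact ⟨∅, by simp⟩
    | succ m ih =>
      obtain ⟨s, hs, h1, h2⟩ := ih
      obtain ⟨p, hp1, hp, hS, hsq⟩ := exists_split F (max (max N 3) (s.sup id))
        (insert (-1) (insert 2 (s.image Nat.cast)))
      have hps : p ∉ s := fun h => by
        have : id p ≤ s.sup id := Finset.le_sup h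
        simp only [id] at this
        omega
      have hm : IsSquare (-1 : ZMod p) := by simpa using hsq (-1) (by simp)
      have hq : ∀ q ∈ s, IsSquare (q : ZMod p) := fun q hq => by
        simpa using hsq q (by simp [hq])
      refine ⟨insert p s, by rw [Finset.card_insert_of_notMem hps, hs], ?_, ?_⟩
      · intro q hq
        rcases Finset.mem_insert.1 hq with rfl | hq
        · exact ⟨by omega, hp, hS, hm, by simpa using hsq 2 (by simp)⟩
        · exact h1 q hq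
      · intro a ha b hb hab
        rcases Finset.mem_insert.1 ha with rfl | ha' <;> rcases Finset.mem_insert.1 hb with rfl | hb'
        · exact absurd rfl hab
        · exact hq b hb'
        · have := Fact.mk hp
          have := Fact.mk (h1 a ha').2.1
          have h3 := (h1 a ha').1
          exact (ZMod.exists_sq_eq_prime_iff_of_mod_four_eq_one (p := b) (q := a)
            (mod4 (by omega) hm) (by omega)).1 (hq a ha')
        · exact h2 a ha' b hb' hab
  obtain ⟨s, hs, h1, h2⟩ := key m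
  let e : Fin m ≃ s := (s.equivFinOfCardEq hs).symm
  refine ⟨⟨fun i => e i, fun i => (h1 _ (e i).2).2.1, fun i j h => e.injective (Subtype.ext h),
    fun i => (h1 _ (e i).2).2.2.1.some, fun i => (h1 _ (e i).2).2.2.2.1,
    fun i => (h1 _ (e i).2).2.2.2.2,
    fun i j h => h2 _ (e i).2 _ (e j).2 fun h' => h (e.injective (Subtype.ext h')),
    fun i => ?_⟩, fun i => ?_⟩
  · have := (h1 _ (e i).2).1; omega
  · have := (h1 _ (e i).2).1
    show N < (e i : ℕ)
    omega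

namespace Sys

variable {ι : Type} (Y : Sys F ι)

noncomputable abbrev loc (i : ι) (σ : Emb F) : Loc F (Y.p i) := (Y.S i).loc σ

lemma p_ne {i j : ι} (h : i ≠ j) : (Y.p j : ZMod (Y.p i)) ≠ 0 := by
  rw [Ne, ZMod.natCast_eq_zero_iff, Nat.prime_dvd_prime_iff_eq (Y.prime i) (Y.prime j)]
  exact fun h' => h (Y.inj h')

lemma two_ne (i : ι) : (2 : ZMod (Y.p i)) ≠ 0 := by
  intro h
  have := Nat.le_of_dvd two_pos ((ZMod.natCast_eq_zero_iff 2 _).1 (by exact_mod_cast h))
  have := Y.big i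
  omega

lemma three_ne (i : ι) : (3 : ZMod (Y.p i)) ≠ 0 := by
  intro h
  have := Nat.le_of_dvd three_pos ((ZMod.natCast_eq_zero_iff 3 _).1 (by exact_mod_cast h))
  have := Y.big i
  omega

lemma key (U : Finset ι) (𝔭 : HeightOneSpectrum (𝓞 F))
    (h : ∏ i ∈ U, lam (Y.p i) (Ideal.absNorm 𝔭.asIdeal) ≠ 1) :
    (∀ i, 𝔭.valuation F (Y.p i) = 1) ∧
      ∀ t : F, ¬ 𝔭.valuation F ((∏ i ∈ U, Y.p i : ℕ) - t ^ 2) < 1 := by
  have hmax := 𝔭.isMaximal
  obtain ⟨l, f, hf, hl, hlp, hN⟩ := Ideal.exists_prime_and_absNorm_eq_pow 𝔭.asIdeal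
  have := Fact.mk hlp
  rw [hN] at h
  simp_rw [map_pow] at h
  rw [Finset.prod_pow] at h
  have h1 : ∏ i ∈ U, lam (Y.p i) l ≠ 1 := fun h0 => h (by rw [h0, one_pow])
  have hlam : ∀ i, l ≠ Y.p i → lam (Y.p i) l = quadraticChar _ (l : ZMod (Y.p i)) := fun i hi => by
    have := lam_eq (p := Y.p i) 0 (n := l)
      (by rw [Nat.prime_dvd_prime_iff_eq (Y.prime i) hlp]; exact hi.symm)
    simpa using this
  have hne : ∀ j, l ≠ Y.p j := by
    rintro j rfl
    refine h1 (Finset.prod_eq_one fun i _ => ?_)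
    by_cases hij : i = j
    · subst hij
      simpa using lam_eq (p := Y.p i) 1 (n := 1) (Y.prime i).not_dvd_one
    · rw [hlam i fun h' => hij (Y.inj h').symm]
      exact (quadraticChar_one_iff_isSquare (Y.p_ne hij)).2 (Y.sqp i j hij)
  have hl2 : l ≠ 2 := by
    rintro rfl
    refine h1 (Finset.prod_eq_one fun i _ => ?_)
    rw [hlam i (hne i)]
    exact (quadraticChar_one_iff_isSquare (by simpa using Y.two_ne i)).2 (by simpa using Y.sq2 i)
  have hleg : ∏ i ∈ U, lam (Y.p i) l = legendreSym l (∏ i ∈ U, Y.p i : ℕ) := by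
    rw [Nat.cast_prod]
    have := map_prod (legendreSym.hom l) (fun i => (Y.p i : ℤ)) U
    simp only [legendreSym.hom_apply] at this
    rw [this]
    refine Finset.prod_congr rfl fun i _ => ?_
    rw [hlam i (hne i), legendreSym.quadratic_reciprocity_one_mod_four
      (mod4 (Y.big i) (Y.sqm i)) hl2, legendreSym]
    simp
  have hsq : (∏ i ∈ U, lam (Y.p i) l) ^ 2 = 1 := by
    rw [← Finset.prod_pow]
    exact Finset.prod_eq_one fun i _ => lam_sq hlp.ne_zero
  have hm : ∏ i ∈ U, lam (Y.p i) l = -1 := (sq_eq_one_iff.1 hsq).resolve_left h1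
  have hodd : Odd f := by
    by_contra h2
    rw [hm, (Nat.not_odd_iff_even.1 h2).neg_one_pow] at h
    exact h rfl
  constructor
  · intro i
    have : (Y.p i : 𝓞 F) ∉ 𝔭.asIdeal := by
      intro h2
      obtain ⟨a, b, hab⟩ := Nat.isCoprime_iff_coprime.2 ((Nat.coprime_primes hlp (Y.prime i)).2 (hne i))
      apply 𝔭.isPrime.ne_top
      rw [Ideal.eq_top_iff_one]
      have h3 := congrArg (Int.cast : ℤ → 𝓞 F) hab
      push_cast at h3
      rw [← h3]
      exact add_mem (Ideal.mul_mem_left _ _ hl) (Ideal.mul_mem_left _ _ h2)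
    simpa using (HeightOneSpectrum.valuation_eq_one_iff_notMem 𝔭 (K := F)).2 this
  · intro t ht
    have hD : 𝔭.valuation F ((∏ i ∈ U, Y.p i : ℕ) : F) ≤ 1 := by
      simpa using 𝔭.valuation_le_one (K := F) ((∏ i ∈ U, Y.p i : ℕ) : 𝓞 F)
    have ht1 : 𝔭.valuation F t ≤ 1 := by
      have e : t ^ 2 = ((∏ i ∈ U, Y.p i : ℕ) : F) - (((∏ i ∈ U, Y.p i : ℕ) : F) - t ^ 2) := by ring
      have : 𝔭.valuation F t ^ 2 ≤ 1 := by
        rw [← map_pow, e]; exact Valuation.map_sub_le _ hD ht.le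
      exact (pow_le_one_iff two_ne_zero).1 this
    obtain ⟨n, ⟨d, hd⟩, hnd⟩ := 𝔭.exists_primeCompl_mul_eq_of_integer t ht1
    simp only at hnd
    have hmem : ((∏ i ∈ U, Y.p i : ℕ) : 𝓞 F) * d ^ 2 - n ^ 2 ∈ 𝔭.asIdeal := by
      rw [← HeightOneSpectrum.valuation_lt_one_iff_mem (K := F)]
      have e : algebraMap (𝓞 F) F (((∏ i ∈ U, Y.p i : ℕ) : 𝓞 F) * d ^ 2 - n ^ 2) =
          (((∏ i ∈ U, Y.p i : ℕ) : F) - t ^ 2) * (algebraMap (𝓞 F) F d) ^ 2 := by
        rw [map_sub, map_mul, map_pow, map_pow, map_natCast, ← hnd]; ring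
      show 𝔭.valuation F (algebraMap (𝓞 F) F _) < 1
      rw [e, map_mul, map_pow]
      exact mul_lt_one_of_lt_of_le ht (pow_le_one' (𝔭.valuation_le_one _) 2)
    let := Ideal.Quotient.field 𝔭.asIdeal
    have hfin : Finite (𝓞 F ⧸ 𝔭.asIdeal) :=
      (Ideal.absNorm_ne_zero_iff _).1 (by rw [hN]; exact pow_ne_zero _ hlp.ne_zero)
    apply nonsq_odd (k := 𝓞 F ⧸ 𝔭.asIdeal) hl2 hN
      (by rw [← map_natCast (Ideal.Quotient.mk 𝔭.asIdeal)]; exact Ideal.Quotient.eq_zero_iff_mem.2 hl)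
      hodd (hleg.symm.trans hm)
    have hd0 : Ideal.Quotient.mk 𝔭.asIdeal d ≠ 0 := fun h0 =>
      hd (Ideal.Quotient.eq_zero_iff_mem.1 h0)
    have h5 := Ideal.Quotient.eq.2 hmem
    rw [map_mul, map_pow, map_pow, map_natCast] at h5
    refine ⟨Ideal.Quotient.mk 𝔭.asIdeal n / Ideal.Quotient.mk 𝔭.asIdeal d, ?_⟩
    rw [Int.cast_natCast]
    field_simp
    exact h5

theorem recip (U : Finset ι) {α : F} (hα : α ≠ 0)
    (hev : ∀ 𝔭 : HeightOneSpectrum (𝓞 F), (∀ i, 𝔭.valuation F (Y.p i) = 1) →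
      (∀ t : F, ¬ 𝔭.valuation F ((∏ i ∈ U, Y.p i : ℕ) - t ^ 2) < 1) →
      ∃ t, 𝔭.valuation F α = 𝔭.valuation F t ^ 2) :
    ∏ i ∈ U, ∏ σ, (Y.loc i σ).sym α = 1 := by
  obtain ⟨c, hc, a, ha, -⟩ :=
    NumberField.exists_nat_ne_zero_exists_integer_mul_eq_and_absNorm_span_eq_pow α
  have hc' : (c : F) ≠ 0 := by exact_mod_cast hc
  let β : 𝓞 F := c * a
  have hβ : (β : F) = α * c ^ 2 := by
    show algebraMap (𝓞 F) F (c * a) = _
    rw [map_mul, map_natCast]
    have : algebraMap (𝓞 F) F a = c * α := ha.symm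
    rw [this]; ring
  have hβ0 : β ≠ 0 := by
    intro h
    rw [h] at hβ
    exact mul_ne_zero hα (pow_ne_zero 2 hc') (by simpa using hβ.symm)
  have h1 : ∀ i, ∏ σ, (Y.loc i σ).sym α = lam (Y.p i) (Ideal.absNorm (Ideal.span {β})) := fun i => by
    rw [(Y.S i).lam_norm (Y.sqm i) hβ0]
    refine Finset.prod_congr rfl fun σ _ => ?_
    rw [hβ, Loc.sym_mul _ hα (pow_ne_zero 2 hc'), Loc.sym_sq _ hc', mul_one]
  simp_rw [h1]
  let f : Ideal (𝓞 F) →* ℤ := ∏ i ∈ U, (lam (Y.p i)).comp Ideal.absNorm.toMonoidHom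
  have hf : ∀ I, f I = ∏ i ∈ U, lam (Y.p i) (Ideal.absNorm I) := fun I => by
    simp [f, MonoidHom.finsetProd_apply]
  have hI : (Ideal.span {β} : Ideal (𝓞 F)) ≠ 0 := by
    rw [Ne, Ideal.zero_eq_bot, Ideal.span_singleton_eq_bot]; exact hβ0
  rw [← hf, ← Ideal.finprod_heightOneSpectrum_factorization hI,
    f.map_finprod (Ideal.hasFiniteMulSupport hI)]
  refine finprod_eq_one_of_forall_eq_one fun 𝔭 => ?_
  rw [HeightOneSpectrum.maxPowDividing, map_pow]
  by_cases h2 : f 𝔭.asIdeal = 1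
  · rw [h2, one_pow]
  obtain ⟨k1, k2⟩ := Y.key U 𝔭 (by rwa [← hf])
  obtain ⟨t, ht⟩ := hev 𝔭 k1 k2
  have h3 : 𝔭.intValuation β = 𝔭.valuation F (t * c) ^ 2 := by
    rw [← HeightOneSpectrum.valuation_of_algebraMap (K := F)]
    show 𝔭.valuation F (β : F) = _
    rw [hβ, map_mul, ht, map_mul, map_pow, mul_pow]
  have h4 : 𝔭.valuation F (t * c) ≠ 0 := by
    intro h0
    rw [h0] at h3
    exact 𝔭.intValuation_ne_zero β hβ0 (by simpa using h3)
  rw [𝔭.intValuation_if_neg hβ0, ← exp_log h4, ← exp_nsmul, exp_inj, nsmul_eq_mul] at h3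
  obtain ⟨m, hm⟩ : ∃ m, (Associates.mk 𝔭.asIdeal).count (Associates.mk
      (Ideal.span {β} : Ideal (𝓞 F))).factors = 2 * m := ⟨_, by
    symm; apply Nat.mul_div_cancel'; omega⟩
  rw [hm, pow_mul, hf, ← Finset.prod_pow, Finset.prod_eq_one, one_pow]
  intro i _
  exact lam_sq (by rw [Ne, Ideal.absNorm_eq_zero_iff]; exact 𝔭.ne_bot)

end Sys

end Pool.Agent.Lib.MP_7cad78_nt.NF
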