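import Pool.Agent.Lib.MP_7cad78_nt.NF.Val

/-! Completely split rational primes. -/

namespace Pool.Agent.Lib.MP_7cad78_nt.NF

open NumberField Polynomial

lemma schur (h : ℤ[X]) (hd : 0 < h.natDegree) (N : ℕ) :
    ∃ p : ℕ, N < p ∧ p.Prime ∧ ∃ a : ℤ, (p : ℤ) ∣ h.eval a := by
  by_cases hc : h.eval 0 = 0
  · obtain ⟨p, h1, h2⟩ := Nat.exists_infinite_primes (N + 1)
    exact ⟨p, h1, h2, 0, by simp [hc]⟩
  set c := h.eval 0
  have hM : (N.factorial : ℤ) ≠ 0 := by exact_mod_cast N.factorial_ne_zero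
  have hne : (h - C c) * (h + C c) ≠ 0 := by
    apply mul_ne_zero
    · intro h0
      rw [sub_eq_zero.1 h0] at hd; simp at hd
    · intro h0
      rw [eq_neg_of_add_eq_zero_left h0] at hd; simp at hd
  obtain ⟨t, ht⟩ : ∃ t : ℤ, ¬ ((h - C c) * (h + C c)).IsRoot (c * N.factorial * t) := by
    by_contra hall
    push Not at hall
    apply hne
    apply eq_zero_of_infinite_isRoot
    refine Set.infinite_of_injective_forall_mem (f := fun t : ℤ => c * N.factorial * t) ?_ hall
    exact fun a b hab => mul_left_cancel₀ (mul_ne_zero hc hM) hab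
  obtain ⟨g, hg⟩ := sub_dvd_eval_sub (c * N.factorial * t) 0 h
  have e : h.eval (c * N.factorial * t) = c * (1 + N.factorial * t * g) := by
    linear_combination hg
  have hn : (1 + N.factorial * t * g : ℤ).natAbs ≠ 1 := by
    intro h1
    apply ht
    simp only [IsRoot, eval_mul, eval_sub, eval_add, eval_C, e]
    rcases Int.natAbs_eq_iff.1 h1 with h2 | h2 <;> rw [h2] <;> simp
  obtain ⟨p, hp, hdvd⟩ := Nat.exists_prime_and_dvd hn
  have hdvd' : (p : ℤ) ∣ 1 + N.factorial * t * g := Int.natCast_dvd.2 hdvd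
  refine ⟨p, ?_, hp, c * N.factorial * t, by rw [e]; exact hdvd'.mul_left _⟩
  by_contra hle
  push Not at hle
  have h3 : (p : ℤ) ∣ N.factorial := by exact_mod_cast (hp.dvd_factorial).2 hle
  have h4 : (p : ℤ) ∣ 1 := (dvd_add_left ((h3.mul_right t).mul_right g)).1 hdvd'
  exact hp.not_dvd_one (by exact_mod_cast h4)

lemma exists_hom (L : Type*) [Field L] [NumberField L] (N : ℕ) :
    ∃ p : ℕ, N < p ∧ p.Prime ∧ Nonempty (𝓞 L →+* ZMod p) := by
  obtain ⟨α, hα⟩ := Field.exists_primitive_element ℚ L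
  obtain ⟨n, hn, η, hη, -⟩ :=
    NumberField.exists_nat_ne_zero_exists_integer_mul_eq_and_absNorm_span_eq_pow α
  have hint : IsIntegral ℤ (η : L) := η.isIntegral_coe
  have htop : Algebra.adjoin ℚ {(η : L)} = ⊤ := by
    have h1 : Algebra.adjoin ℚ {α} = ⊤ := by
      rw [← IntermediateField.adjoin_simple_toSubalgebra_of_isAlgebraic
        (Algebra.IsAlgebraic.isAlgebraic α), hα]; rfl
    rw [eq_top_iff, ← h1, Algebra.adjoin_le_iff, Set.singleton_subset_iff]
    have : α = (n : ℚ)⁻¹ • (η : L) := by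
      rw [← hη, Algebra.smul_def]; simp [hn]
    rw [this]
    exact Subalgebra.smul_mem _ (Algebra.self_mem_adjoin_singleton _ _) _
  let B := PowerBasis.ofAdjoinEqTop (hint.tower_top (A := ℚ)) htop
  let m : ℤ := (Algebra.discr ℚ B.basis).num
  have hm : m ≠ 0 := Rat.num_ne_zero.2 (Algebra.discr_not_zero_of_basis ℚ B.basis)
  have hmem : ∀ z : 𝓞 L, (m : L) * z ∈ Algebra.adjoin ℤ {(η : L)} := fun z => by
    have := Algebra.discr_mul_isIntegral_mem_adjoin ℚ (R := ℤ) (B := B) hint z.isIntegral_coe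
    have h2 := Subalgebra.mul_mem _ (natCast_mem _ (Algebra.discr ℚ B.basis).den) this
    have := Rat.mul_den_eq_num (Algebra.discr ℚ B.basis)
    have h3 := congrArg (algebraMap ℚ L) this
    simp only [map_mul, map_natCast, map_intCast] at h3
    rw [Algebra.smul_def, ← mul_assoc, mul_comm (Nat.cast _), h3] at h2
    exact h2
  obtain ⟨p, hp1, hp, a, ha⟩ := schur (minpoly ℤ (η : L)) (minpoly.natDegree_pos hint)
    (max N m.natAbs)
  have := Fact.mk hp
  have hmp : (m : ZMod p) ≠ 0 := by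
    rw [Ne, ZMod.intCast_zmod_eq_zero_iff_dvd]
    intro h
    have := Nat.le_of_dvd (Int.natAbs_pos.2 hm) (Int.natCast_dvd.1 h)
    omega
  let φ : Algebra.adjoin ℤ {(η : L)} →+* ZMod p :=
    (AdjoinRoot.lift (Int.castRingHom (ZMod p)) (a : ZMod p) (by
      have := (ZMod.intCast_zmod_eq_zero_iff_dvd _ p).2 ha
      rw [← this]
      exact eval₂_at_apply (Int.castRingHom (ZMod p)) a)).comp
      (minpoly.equivAdjoin hint).symm.toRingEquiv.toRingHom
  refine ⟨p, by omega, hp, ⟨{ toFun := fun z => φ ⟨_, hmem z⟩ / m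
                              map_one' := ?_, map_mul' := ?_, map_zero' := ?_, map_add' := ?_ }⟩⟩
  · rw [div_eq_one_iff_eq hmp, ← map_intCast φ]; congr 1; ext; simp
  · intro x y
    have : φ ⟨_, hmem x⟩ * φ ⟨_, hmem y⟩ = m * φ ⟨_, hmem (x * y)⟩ := by
      rw [← map_mul, ← map_intCast φ, ← map_mul]; congr 1; ext; simp; ring
    field_simp
    rw [this]; ring
  · rw [div_eq_zero_iff]; left; rw [← map_zero φ]; congr 1; ext; simp
  · intro x y
    rw [← add_div, ← map_add]; congr 2; ext; simp; ring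

variable (F : Type*) [Field F] [NumberField F]

abbrev Emb := F →ₐ[ℚ] ℂ

/-- data of a prime `p` that splits completely in `F` -/
structure Split (p : ℕ) where
  r : Emb F → (𝓞 F →+* ZMod p)
  surj : ∀ a : Emb F → ZMod p, ∃ u, ∀ σ, r σ u = a σ
  ker : ∀ u, (∀ σ, r σ u = 0) → (p : 𝓞 F) ∣ u
  norm : ∀ (β : 𝓞 F) (e : Emb F → ℕ) (u w : Emb F → 𝓞 F), (∀ σ, β * w σ = p ^ e σ * u σ) →
    (∀ σ, r σ (u σ) ≠ 0) → (∀ σ, r σ (w σ) ≠ 0) →
    ∃ n : ℤ, Algebra.norm ℤ β = p ^ (∑ σ, e σ) * n ∧ (n : ZMod p) * ∏ σ, r σ (w σ) = ∏ σ, r σ (u σ)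

lemma card_Emb : Fintype.card (Emb F) = Module.finrank ℚ F := AlgHom.card ℚ F ℂ

lemma exists_split (N : ℕ) (s : Finset ℤ) :
    ∃ p : ℕ, N < p ∧ p.Prime ∧ Nonempty (Split F p) ∧ ∀ a ∈ s, IsSquare (a : ZMod p) := by
  classical
  choose sq hsq using fun a : ℤ => IsAlgClosed.exists_pow_nat_eq (a : ℂ) two_pos
  let b := integralBasis F
  let T : Set ℂ := Set.range (fun z : Emb F × Module.Free.ChooseBasisIndex ℤ (𝓞 F) => z.1 (b z.2)) ∪
    sq '' s
  have hsqi : ∀ a, IsIntegral ℤ (sq a) := fun a =>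
    IsIntegral.of_pow two_pos (by rw [hsq]; exact isIntegral_algebraMap (x := a))
  have hT : Finite T := ((Set.finite_range _).union (s.finite_toSet.image _)).to_subtype
  let L := IntermediateField.adjoin ℚ T
  have hfd : FiniteDimensional ℚ L := IntermediateField.finiteDimensional_adjoin (by
    rintro x (⟨z, rfl⟩ | ⟨a, -, rfl⟩)
    · exact (Algebra.IsIntegral.isIntegral (R := ℚ) _).map z.1
    · exact (hsqi a).tower_top)
  have hNF : NumberField L := { to_charZero := inferInstance, to_finiteDimensional := hfd }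
  have hσ : ∀ (σ : Emb F) x, σ x ∈ L := fun σ x => by
    rw [← b.sum_repr x, map_sum]
    refine sum_mem fun i _ => ?_
    rw [Algebra.smul_def, map_mul, AlgHom.commutes]
    exact mul_mem (L.algebraMap_mem _) (IntermediateField.subset_adjoin _ _ (Or.inl ⟨(σ, i), rfl⟩))
  let τ : Emb F → (𝓞 F →+* 𝓞 L) := fun σ =>
    RingOfIntegers.mapRingHom (σ.toRingHom.codRestrict L.toSubfield (hσ σ))
  let c : 𝓞 L →+* ℂ := (algebraMap L ℂ).comp (algebraMap (𝓞 L) L)
  have hc : Function.Injective c :=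
    (algebraMap L ℂ).injective.comp RingOfIntegers.coe_injective
  have hτ : ∀ σ u, c (τ σ u) = σ u := fun σ u => rfl
  have hdiff : ∀ z : {z : Emb F × Emb F // z.1 ≠ z.2}, ∃ u, τ z.1.1 u - τ z.1.2 u ≠ 0 := by
    intro z
    by_contra h
    push Not at h
    apply z.2
    apply AlgHom.toLinearMap_injective
    refine b.ext fun i => ?_
    have := congrArg c (h (RingOfIntegers.basis F i))
    rw [map_sub, hτ, hτ, map_zero, sub_eq_zero] at this
    simpa [b, integralBasis_apply] using this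
  choose θ hθ using hdiff
  let δ : 𝓞 L := ∏ z, (τ z.1.1 (θ z) - τ z.1.2 (θ z))
  have hδ : δ ≠ 0 := Finset.prod_ne_zero_iff.2 fun z _ => hθ z
  have hn0 : Ideal.absNorm (Ideal.span {δ}) ≠ 0 := by
    rw [Ne, Ideal.absNorm_eq_zero_iff, Ideal.span_singleton_eq_bot]; exact hδ
  obtain ⟨p, hp1, hp, ⟨R⟩⟩ := exists_hom L (max N (Ideal.absNorm (Ideal.span {δ})))
  have := Fact.mk hp
  have hRδ : R δ ≠ 0 := by
    intro h
    obtain ⟨t, ht⟩ := Ideal.mem_span_singleton.1 (Ideal.absNorm_mem (Ideal.span {δ}))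
    have h2 := congrArg R ht
    rw [map_mul, h, zero_mul, map_natCast, ZMod.natCast_eq_zero_iff] at h2
    have := Nat.le_of_dvd (Nat.pos_of_ne_zero hn0) h2
    omega
  let r : Emb F → (𝓞 F →+* ZMod p) := fun σ => R.comp (τ σ)
  have hr : ∀ σ σ', σ ≠ σ' → r σ ≠ r σ' := fun σ σ' hne h => by
    apply hRδ
    rw [map_prod]
    refine Finset.prod_eq_zero (Finset.mem_univ ⟨(σ, σ'), hne⟩) ?_
    rw [map_sub, sub_eq_zero]
    exact DFunLike.congr_fun h _
  have hmax : ∀ σ, (RingHom.ker (r σ)).IsMaximal := fun σ =>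
    RingHom.ker_isMaximal_of_surjective _ (ZMod.ringHom_surjective _)
  have hsurj : ∀ a : Emb F → ZMod p, ∃ u, ∀ σ, r σ u = a σ := fun a => by
    choose x hx using fun σ => ZMod.ringHom_surjective (r σ) (a σ)
    obtain ⟨u, hu⟩ := Ideal.pi_quotient_surjective (I := fun σ => RingHom.ker (r σ))
      (fun σ σ' hne => Ideal.isCoprime_iff_sup_eq.2 ((hmax σ).coprime_of_ne (hmax σ')
        fun h => hr σ σ' hne (ZMod.ringHom_eq_of_ker_eq _ _ h)))
      (fun σ => Ideal.Quotient.mk _ (x σ))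
    refine ⟨u, fun σ => ?_⟩
    have := Ideal.Quotient.eq.1 (hu σ)
    rwa [RingHom.mem_ker, map_sub, hx, sub_eq_zero] at this
  refine ⟨p, by omega, hp, ⟨⟨r, hsurj, ?_, ?_⟩⟩, ?_⟩
  · intro u hu
    let Φ : 𝓞 F →+* (Emb F → ZMod p) := RingHom.pi r
    have hΦ : Function.Surjective Φ := fun a => by
      obtain ⟨u, hu⟩ := hsurj a
      exact ⟨u, funext hu⟩
    have h1 : Ideal.absNorm (RingHom.ker Φ) = p ^ Module.finrank ℚ F := by
      rw [Ideal.absNorm_apply, Submodule.cardQuot_apply,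
        Nat.card_congr (RingHom.quotientKerEquivOfSurjective hΦ).toEquiv, Nat.card_fun,
        Nat.card_zmod, Nat.card_eq_fintype_card, card_Emb]
    have h2 : Ideal.span {(p : 𝓞 F)} ≤ RingHom.ker Φ := by
      rw [Ideal.span_le, Set.singleton_subset_iff, SetLike.mem_coe, RingHom.mem_ker, map_natCast]
      funext σ; simp
    obtain ⟨J, hJ⟩ := Ideal.dvd_iff_le.2 h2
    have h3 := congrArg Ideal.absNorm hJ
    rw [map_mul, h1, Ideal.absNorm_span_natCast, RingOfIntegers.rank] at h3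
    have h4 : Ideal.absNorm J = 1 :=
      mul_left_cancel₀ (pow_ne_zero _ hp.ne_zero) (h3.symm.trans (mul_one _).symm)
    rw [Ideal.absNorm_eq_one_iff.1 h4, Ideal.mul_top] at hJ
    rw [← Ideal.mem_span_singleton, hJ]
    exact funext hu
  · intro β e u w h hu hw
    have hN : ((Algebra.norm ℤ β : ℤ) : 𝓞 L) = ∏ σ, τ σ β := by
      apply hc
      rw [map_intCast, map_prod]
      have := Algebra.norm_eq_prod_embeddings ℚ ℂ (β : F)
      rw [← Algebra.coe_norm_int] at this
      simpa [hτ] using this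
    have hE : ((Algebra.norm ℤ β : ℤ) : 𝓞 L) * ∏ σ, τ σ (w σ) =
        p ^ (∑ σ, e σ) * ∏ σ, τ σ (u σ) := by
      rw [hN, ← Finset.prod_mul_distrib, ← Finset.prod_pow_eq_pow_sum, ← Finset.prod_mul_distrib]
      refine Finset.prod_congr rfl fun σ _ => ?_
      rw [← map_mul, h, map_mul, map_pow, map_natCast]
    have hW : R (∏ σ, τ σ (w σ)) = ∏ σ, r σ (w σ) := map_prod _ _ _
    have hU : R (∏ σ, τ σ (u σ)) = ∏ σ, r σ (u σ) := map_prod _ _ _
    have hW0 : ∏ σ, r σ (w σ) ≠ 0 := Finset.prod_ne_zero_iff.2 fun σ _ => hw σ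
    rw [← hW] at hW0
    rw [← hW, ← hU]
    generalize (∏ σ, τ σ (w σ)) = W at *
    generalize (∏ σ, τ σ (u σ)) = U at *
    generalize (∑ σ, e σ) = E at *
    generalize Algebra.norm ℤ β = n at *
    have hp0 : (p : 𝓞 L) ≠ 0 := by exact_mod_cast hp.ne_zero
    clear hN hW hU
    induction E generalizing n with
    | zero => exact ⟨n, by simp, by simpa using congrArg R hE⟩
    | succ E ih =>
      have h2 := congrArg R hE
      rw [map_mul, map_mul, map_pow, map_natCast, ZMod.natCast_self, zero_pow (by omega), zero_mul,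
        map_intCast, mul_eq_zero, ZMod.intCast_zmod_eq_zero_iff_dvd] at h2
      obtain ⟨n', rfl⟩ := h2.resolve_right hW0
      obtain ⟨m, hm, hm'⟩ := ih n' (by
        apply mul_left_cancel₀ hp0
        push_cast at hE
        linear_combination hE)
      exact ⟨m, by rw [hm]; ring, hm'⟩
  · intro a ha
    have hmem : sq a ∈ L := IntermediateField.subset_adjoin _ _ (Or.inr ⟨a, ha, rfl⟩)
    let z : 𝓞 L := ⟨⟨sq a, hmem⟩, (isIntegral_algebraMap_iff (algebraMap L ℂ).injective).1 (hsqi a)⟩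
    have hz : (a : 𝓞 L) = z * z := by
      apply hc
      rw [map_intCast, map_mul, ← hsq, pow_two]; rfl
    exact ⟨R z, by rw [← map_mul, ← hz, map_intCast]⟩

end Pool.Agent.Lib.MP_7cad78_nt.NF
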