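import Pool.Agent.Lib.MP_7cad78_nt.NF.Rec

/-! One of the `2^k` twists has all its points locally trivial at the special places. -/

namespace Pool.Agent.Lib.MP_7cad78_nt.NF

open NumberField IsDedekindDomain WithZero

open scoped symmDiff Classical

set_option linter.unusedSectionVars false

lemma comb {ι : Type*} [Fintype ι] {Pt : Finset ι → Type*} (b : ∀ U, Pt U → ι → Prop)
    (orth : ∀ U V P Q, ∏ i ∈ U ∆ V, (if b U P i ∧ b V Q i then (-1 : ℤ) else 1) = 1) :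
    ∃ U, ∀ P i, ¬ b U P i := by
  let vec : ∀ U, Pt U → ι → Option Prop := fun U P i => if b U P i then some (i ∈ U) else none
  let W : Finset ι → Finset (ι → Option Prop) := fun U => Finset.univ.filter fun y =>
    (∃ V Q, y = vec V Q) ∧ ∀ j c, y j = some c → (c ↔ j ∈ U)
  have hW : ∀ U V Q, vec V Q ∈ W U ↔ ∀ j, b V Q j → (j ∈ V ↔ j ∈ U) := by
    intro U V Q
    simp only [W, Finset.mem_filter, Finset.mem_univ, true_and]
    constructor
    · exact fun h j hj => h.2 j _ (if_pos hj)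
    · refine fun h => ⟨⟨V, Q, rfl⟩, fun j c hc => ?_⟩
      by_cases hj : b V Q j
      · simp only [vec, if_pos hj, Option.some.injEq] at hc
        rw [← hc]; exact h j hj
      · simp [vec, hj] at hc
  obtain ⟨U, -, hU⟩ := Finset.exists_min_image Finset.univ (fun U => (W U).card) ⟨∅, by simp⟩
  refine ⟨U, fun P i hi => (hU (U ∆ {i}) (by simp)).not_gt (Finset.card_lt_card ⟨?_, ?_⟩)⟩
  · intro y hy
    obtain ⟨V, Q, rfl⟩ := (Finset.mem_filter.1 hy).2.1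
    rw [hW] at hy ⊢
    have hni : ¬ b V Q i := by
      intro hb
      have h1 := orth U V P Q
      have h2 := hy i hb
      rw [Finset.prod_eq_single i, if_pos ⟨hi, hb⟩] at h1
      · norm_num at h1
      · intro j hj hne
        refine if_neg fun h => ?_
        have := hy j h.2
        simp only [Finset.mem_symmDiff, Finset.mem_singleton] at this hj
        tauto
      · intro h
        simp only [Finset.mem_symmDiff, Finset.mem_singleton] at h h2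
        tauto
    intro j hj
    have := hy j hj
    have hne : j ≠ i := fun h => hni (h ▸ hj)
    simp only [Finset.mem_symmDiff, Finset.mem_singleton] at this
    tauto
  · intro h
    have := (hW _ _ _).1 (h ((hW U U P).2 fun _ _ => Iff.rfl)) i hi
    simp only [Finset.mem_symmDiff, Finset.mem_singleton] at this
    tauto

variable {F : Type*} [Field F] [NumberField F]

lemma sf_val {𝔭 : HeightOneSpectrum (𝓞 F)} {D : 𝓞 F} (h : D ∉ 𝔭.asIdeal ^ 2) (t : F)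
    (ht : 𝔭.valuation F t < 1) : 𝔭.valuation F t ^ 2 < 𝔭.valuation F D := by
  rw [← HeightOneSpectrum.intValuation_le_pow_iff_mem, not_le,
    ← HeightOneSpectrum.valuation_of_algebraMap (K := F)] at h
  refine lt_of_le_of_lt ?_ h
  by_cases h0 : 𝔭.valuation F t = 0
  · simp [h0]
  rw [← exp_log h0, ← exp_zero, exp_lt_exp] at ht
  rw [← exp_log h0, ← exp_nsmul, exp_le_exp, nsmul_eq_mul]
  push_cast
  omega

namespace Sys

variable {ι : Type} [Fintype ι] (Y : Sys F ι)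

/-- the twisting integer -/
def d (U : Finset ι) : ℕ := ∏ i ∈ U, Y.p i

lemma d_ne (U : Finset ι) : Y.d U ≠ 0 := Finset.prod_ne_zero_iff.2 fun i _ => (Y.prime i).ne_zero

lemma d_out {U : Finset ι} {i : ι} (h : i ∉ U) :
    (Y.d U : ZMod (Y.p i)) ≠ 0 ∧ IsSquare (Y.d U : ZMod (Y.p i)) := by
  rw [d, Nat.cast_prod]
  exact ⟨Finset.prod_ne_zero_iff.2 fun j hj => Y.p_ne fun h' => h (h' ▸ hj),
    Finset.prod_induction _ _ (fun _ _ => IsSquare.mul) IsSquare.one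
      fun j hj => Y.sqp i j fun h' => h (h' ▸ hj)⟩

lemma loc_out {U : Finset ι} {i : ι} (h : i ∉ U) (σ : Emb F) :
    (Y.loc i σ).v (Y.d U) = 1 ∧ (Y.loc i σ).sym (Y.d U) = 1 := by
  obtain ⟨h1, h2⟩ := Y.d_out h
  have hv : (Y.loc i σ).v ((Y.d U : (Y.loc i σ).v.integer) : F) = 1 :=
    (Y.loc i σ).v_eq_one (by rwa [map_natCast])
  have hs := (Y.loc i σ).sym_unit _ hv
  rw [map_natCast, (quadraticChar_one_iff_isSquare h1).2 h2] at hs
  exact ⟨by simpa using hv, by simpa using hs⟩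

lemma loc_in {U : Finset ι} {i : ι} (h : i ∈ U) (σ : Emb F) :
    (Y.loc i σ).v (Y.d U) = exp (-1) ∧ (Y.loc i σ).sym (Y.d U) = 1 := by
  obtain ⟨h1, h2⟩ := Y.loc_out (Finset.notMem_erase i U) σ
  have e : (Y.d U : F) = Y.p i * Y.d (U.erase i) := by
    rw [d, d, ← Finset.mul_prod_erase _ _ h, Nat.cast_mul]
  rw [e, map_mul, h1, Loc.vp, mul_one, Loc.sym_mul _ (Y.loc i σ).p_ne
    (by exact_mod_cast Y.d_ne _), h2, Loc.sym_p]
  simp

lemma sym_neg (i : ι) (σ : Emb F) : (Y.loc i σ).sym (-1) = 1 := by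
  have hs := (Y.loc i σ).sym_unit (-1) (by simp)
  rw [map_neg, map_one, (quadraticChar_one_iff_isSquare (by simp)).2 (Y.sqm i)] at hs
  simpa using hs

/-- the conditions on the curve -/
structure Nice (i0 : ι) (σ0 : Emb F) (A B : 𝓞 F) : Prop where
  t1 : ∀ i, i ≠ i0 → (Y.S i).r σ0 B = 0 ∧ ¬ IsSquare (-(Y.S i).r σ0 A)
  t0 : ∀ i σ, (i = i0 ∨ σ ≠ σ0) → ∀ t, t ^ 3 + (Y.S i).r σ A * t + (Y.S i).r σ B ≠ 0
  sf : ∀ 𝔭 : HeightOneSpectrum (𝓞 F), 4 * A ^ 3 + 27 * B ^ 2 ∉ 𝔭.asIdeal ^ 2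

variable {Y} {i0 : ι} {σ0 : Emb F} {A B : 𝓞 F}

lemma Nice.noroot (h : Y.Nice i0 σ0 A B) (x : F) : x ^ 3 + A * x + B ≠ 0 := by
  intro h0
  rcases lt_or_ge 1 ((Y.loc i0 σ0).v x) with g | g
  · have := nonint_eq (Y.loc i0 σ0).v (d := 1) (y := 0) ((Y.S i0).up σ0 A).2 ((Y.S i0).up σ0 B).2 g
      (by simpa using h0.symm)
    rw [← this] at g
    simp at g
  · apply h.t0 i0 σ0 (Or.inl rfl) ((Y.loc i0 σ0).res ⟨x, g⟩)
    rw [← Split.res_up, ← Split.res_up, ← map_pow, ← map_mul, ← map_add, ← map_add, ← map_zero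
      (Y.loc i0 σ0).res]
    congr 1
    exact Subtype.ext h0

lemma Nice.y_ne (h : Y.Nice i0 σ0 A B) {d x y : F} (h1 : d * y ^ 2 = x ^ 3 + A * x + B) : y ≠ 0 := by
  rintro rfl
  exact h.noroot x (by simpa using h1.symm)

/-- the bit of a point at the prime `p i` -/
def bt (Y : Sys F ι) (i0 : ι) (σ0 : Emb F) (U : Finset ι) (x : F) (i : ι) : Prop :=
  i ≠ i0 ∧ (Y.loc i σ0).bit (Y.d U) x

lemma Nice.one (h : Y.Nice i0 σ0 A B) {U V : Finset ι} {x1 y1 x2 y2 : F}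
    (h1 : Y.d U * y1 ^ 2 = x1 ^ 3 + A * x1 + B) (h2 : Y.d V * y2 ^ 2 = x2 ^ 3 + A * x2 + B)
    {i : ι} (hU : i ∉ U) (hV : i ∈ V) :
    ∏ σ, (Y.loc i σ).sym (x1 - x2) =
      if Y.bt i0 σ0 U x1 i ∧ Y.bt i0 σ0 V x2 i then -1 else 1 := by
  have k0 : ∀ σ, (i = i0 ∨ σ ≠ σ0) → (Y.loc i σ).sym (x1 - x2) = 1 := fun σ hσ =>
    (Y.loc i σ).symA (A := (Y.S i).up σ A) (B := (Y.S i).up σ B) (Y.sym_neg i σ) (Y.loc_out hU σ).1
      (Y.loc_in hV σ).1 (Y.loc_out hU σ).2 (Y.loc_in hV σ).2 (h.y_ne h2) h1 h2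
      ((Y.loc i σ).nonint_T0 (A := (Y.S i).up σ A) (B := (Y.S i).up σ B)
        (by simpa using h.t0 i σ hσ) (Y.loc_in hV σ).1 (h.y_ne h2) h2)
  rw [Finset.prod_eq_single σ0 (fun σ _ hσ => k0 σ (Or.inr hσ)) (by simp)]
  by_cases hi : i = i0
  · rw [k0 σ0 (Or.inl hi), if_neg fun h' => h'.1.1 hi]
  · rw [(Y.loc i σ0).symC (A := (Y.S i).up σ0 A) (B := (Y.S i).up σ0 B) (Y.sym_neg i σ0)
      (by simpa using (h.t1 i hi).1) (by simpa using (h.t1 i hi).2) (Y.loc_out hU σ0).1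
      (Y.loc_in hV σ0).1 (Y.loc_out hU σ0).2 (Y.loc_in hV σ0).2 (h.y_ne h1) (h.y_ne h2) h1 h2]
    simp [bt, hi]

lemma Nice.x_ne (h : Y.Nice i0 σ0 A B) {U V : Finset ι} {x1 y1 x2 y2 : F}
    (h1 : Y.d U * y1 ^ 2 = x1 ^ 3 + A * x1 + B) (h2 : Y.d V * y2 ^ 2 = x2 ^ 3 + A * x2 + B)
    {i : ι} (hU : i ∉ U) (hV : i ∈ V) : x1 ≠ x2 := by
  rintro rfl
  exact (Y.loc i σ0).parity (a := y1) (Y.loc_out hU σ0).1 (Y.loc_in hV σ0).1 (h.y_ne h2)
    (by rw [h1, h2])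

lemma d_mul (U V : Finset ι) : Y.d U * Y.d V = Y.d (U ∆ V) * Y.d (U ∩ V) ^ 2 := by
  have h1 : Y.d U = Y.d (U \ V) * Y.d (U ∩ V) := by
    rw [d, d, d, ← Finset.prod_union (Finset.disjoint_sdiff_inter _ _), Finset.sdiff_union_inter]
  have h2 : Y.d V = Y.d (V \ U) * Y.d (U ∩ V) := by
    rw [d, d, d, Finset.inter_comm, ← Finset.prod_union (Finset.disjoint_sdiff_inter _ _),
      Finset.sdiff_union_inter]
  have h3 : Y.d (U ∆ V) = Y.d (U \ V) * Y.d (V \ U) := by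
    rw [d, d, d, ← Finset.prod_union disjoint_sdiff_sdiff]; rfl
  rw [h3]
  conv_lhs => rw [h1, h2]
  ring

lemma Nice.orth (h : Y.Nice i0 σ0 A B) {U V : Finset ι} {x1 y1 x2 y2 : F}
    (h1 : Y.d U * y1 ^ 2 = x1 ^ 3 + A * x1 + B) (h2 : Y.d V * y2 ^ 2 = x2 ^ 3 + A * x2 + B) :
    ∏ i ∈ U ∆ V, (if Y.bt i0 σ0 U x1 i ∧ Y.bt i0 σ0 V x2 i then (-1 : ℤ) else 1) = 1 := by
  rcases (U ∆ V).eq_empty_or_nonempty with h0 | ⟨j, hj⟩
  · rw [h0, Finset.prod_empty]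
  have hne : x1 - x2 ≠ 0 := by
    rcases Finset.mem_symmDiff.1 hj with hj | hj
    · exact sub_ne_zero.2 (h.x_ne h2 h1 hj.2 hj.1).symm
    · exact sub_ne_zero.2 (h.x_ne h1 h2 hj.2 hj.1)
  refine Eq.trans ?_ (Y.recip (U ∆ V) hne ?_)
  · refine Finset.prod_congr rfl fun i hi => ?_
    rcases Finset.mem_symmDiff.1 hi with hi | hi
    · have := h.one h2 h1 hi.2 hi.1
      simp only [and_comm (a := Y.bt i0 σ0 V x2 i)] at this
      rw [← this]
      refine Finset.prod_congr rfl fun σ _ => ?_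
      have e : x2 - x1 = -1 * (x1 - x2) := by ring
      rw [e, Loc.sym_mul _ (by simp) hne, Y.sym_neg, one_mul]
    · exact (h.one h1 h2 hi.2 hi.1).symm
  · intro 𝔭 k1 k2
    have hd : ∀ W, 𝔭.valuation F (Y.d W) = 1 := fun W => by
      rw [d, Nat.cast_prod, map_prod]; exact Finset.prod_eq_one fun i _ => k1 i
    refine generic_even _ (𝔭.valuation_le_one A) (𝔭.valuation_le_one B) (hd U) (hd V) ?_ ?_ h1 h2
    · intro t ht
      apply k2 (t / Y.d (U ∩ V))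
      have hE : (Y.d (U ∩ V) : F) ≠ 0 := by exact_mod_cast Y.d_ne _
      have e : ((∏ i ∈ U ∆ V, Y.p i : ℕ) : F) - (t / Y.d (U ∩ V)) ^ 2 =
          (Y.d U * Y.d V - t ^ 2) / Y.d (U ∩ V) ^ 2 := by
        rw [← Nat.cast_mul, d_mul, ← d, Nat.cast_mul, Nat.cast_pow]
        field_simp
      rwa [e, map_div₀, map_pow, hd, one_pow, div_one]
    · intro t ht
      have := sf_val (h.sf 𝔭) t ht
      convert this using 2
      show _ = algebraMap (𝓞 F) F _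
      simp [map_ofNat]

theorem Nice.twist (h : Y.Nice i0 σ0 A B) : ∃ U : Finset ι, ∀ x y : F,
    Y.d U * y ^ 2 = x ^ 3 + A * x + B → ∀ i, ¬ Y.bt i0 σ0 U x i := by
  obtain ⟨U, hU⟩ := comb (Pt := fun U => {z : F × F // Y.d U * z.2 ^ 2 = z.1 ^ 3 + A * z.1 + B})
    (fun U P i => Y.bt i0 σ0 U P.1.1 i) fun U V P Q => by convert h.orth P.2 Q.2
  exact ⟨U, fun x y hxy => hU ⟨(x, y), hxy⟩⟩

end Sys

end Pool.Agent.Lib.MP_7cad78_nt.NF
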