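import Pool.Agent.Lib.MP_7cad78_nt.NF.Fq

/-! Local computations with valuations. -/

namespace Pool.Agent.Lib.MP_7cad78_nt.NF

open WithZero

set_option linter.unusedSectionVars false

variable {K : Type*} [Field K]

section generic

variable (v : Valuation K ℤᵐ⁰)

lemma aniso {d d' : K} (hd : v d = 1) (hd' : v d' = 1) (hns : ∀ t, ¬ v (d * d' - t ^ 2) < 1)
    (a b : K) : v (d * a ^ 2 - d' * b ^ 2) = max (v a ^ 2) (v b ^ 2) := by
  have e1 : v (d * a ^ 2) = v a ^ 2 := by simp [hd]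
  have e2 : v (d' * b ^ 2) = v b ^ 2 := by simp [hd']
  rcases lt_trichotomy (v a ^ 2) (v b ^ 2) with h | h | h
  · rw [max_eq_right h.le, v.map_sub_eq_of_lt_right (by rwa [e1, e2]), e2]
  · rw [h, max_self]
    refine le_antisymm (v.map_sub_le (by rw [e1, h]) e2.le) ?_
    by_contra hlt
    push Not at hlt
    have hb : b ≠ 0 := by rintro rfl; simp at hlt
    apply hns (d * a / b)
    have : d * d' - (d * a / b) ^ 2 = -(d * (d * a ^ 2 - d' * b ^ 2) / b ^ 2) := by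
      field_simp; ring
    rw [this, v.map_neg, map_div₀, map_mul, hd, one_mul, map_pow, div_lt_one₀]
    · exact hlt
    · exact pow_pos ((Valuation.pos_iff v).2 hb) 2
  · rw [max_eq_left h.le, v.map_sub_eq_of_lt_left (by rwa [e1, e2]), e1]

lemma nonint_le {A B d x y : K} (hA : v A ≤ 1) (hB : v B ≤ 1) (hx : 1 < v x)
    (h : d * y ^ 2 = x ^ 3 + A * x + B) : v (x - d * (y / x) ^ 2) ≤ (v x)⁻¹ := by
  have hx0 : x ≠ 0 := by rintro rfl; simp at hx
  have hv : 0 < v x := zero_lt_one.trans hx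
  have : x - d * (y / x) ^ 2 = -((A * x + B) / x ^ 2) := by
    field_simp; linear_combination -h
  rw [this, v.map_neg, map_div₀, map_pow, div_le_iff₀ (pow_pos hv 2), sq, ← mul_assoc,
    inv_mul_cancel₀ hv.ne', one_mul]
  refine v.map_add_le ?_ (hB.trans hx.le)
  rw [map_mul]
  exact mul_le_of_le_one_left' hA

lemma nonint {A B d x y : K} (hA : v A ≤ 1) (hB : v B ≤ 1) (hx : 1 < v x)
    (h : d * y ^ 2 = x ^ 3 + A * x + B) : v (x - d * (y / x) ^ 2) < 1 :=
  (nonint_le v hA hB hx h).trans_lt (inv_lt_one_of_one_lt₀ hx)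

lemma nonint_eq {A B d x y : K} (hA : v A ≤ 1) (hB : v B ≤ 1) (hx : 1 < v x)
    (h : d * y ^ 2 = x ^ 3 + A * x + B) : v (d * (y / x) ^ 2) = v x := by
  apply v.map_eq_of_sub_lt
  rw [v.map_sub_swap]
  exact (nonint v hA hB hx h).trans hx

lemma generic_even {A B d d' x1 y1 x2 y2 : K} (hA : v A ≤ 1) (hB : v B ≤ 1) (hd : v d = 1)
    (hd' : v d' = 1) (hns : ∀ t, ¬ v (d * d' - t ^ 2) < 1)
    (hΔ : ∀ t, v t < 1 → v t ^ 2 < v (4 * A ^ 3 + 27 * B ^ 2))
    (h1 : d * y1 ^ 2 = x1 ^ 3 + A * x1 + B) (h2 : d' * y2 ^ 2 = x2 ^ 3 + A * x2 + B) :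
    ∃ t, v (x1 - x2) = v t ^ 2 := by
  have hmax : ∀ a b : K, ∃ t, max (v a ^ 2) (v b ^ 2) = v t ^ 2 := fun a b => by
    rcases max_choice (v a ^ 2) (v b ^ 2) with h | h <;> exact ⟨_, h⟩
  rcases lt_or_ge 1 (v x1) with g1 | g1 <;> rcases lt_or_ge 1 (v x2) with g2 | g2
  · obtain ⟨t, ht⟩ := hmax (y1 / x1) (y2 / x2)
    refine ⟨t, ?_⟩
    rw [← ht, ← aniso v hd hd' hns]
    apply v.map_eq_of_sub_lt
    have e : x1 - x2 - (d * (y1 / x1) ^ 2 - d' * (y2 / x2) ^ 2) =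
        (x1 - d * (y1 / x1) ^ 2) - (x2 - d' * (y2 / x2) ^ 2) := by ring
    rw [e, aniso v hd hd' hns]
    refine (v.map_sub_lt (nonint v hA hB g1 h1) (nonint v hA hB g2 h2)).trans ?_
    refine lt_max_of_lt_left ?_
    have := nonint_eq v hA hB g1 h1
    rw [map_mul, hd, one_mul, map_pow] at this
    rwa [this]
  · refine ⟨y1 / x1, ?_⟩
    have := nonint_eq v hA hB g1 h1
    rw [map_mul, hd, one_mul, map_pow] at this
    rw [this, v.map_sub_eq_of_lt_left (g2.trans_lt g1)]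
  · refine ⟨y2 / x2, ?_⟩
    have := nonint_eq v hA hB g2 h2
    rw [map_mul, hd', one_mul, map_pow] at this
    rw [this, v.map_sub_eq_of_lt_right (g1.trans_lt g2)]
  · have hα : v (x1 - x2) ≤ 1 := v.map_sub_le g1 g2
    rcases hα.eq_or_lt with hα | hα
    · exact ⟨1, by simp [hα]⟩
    have hA' : A ∈ v.integer := hA
    have hx1 : x1 ∈ v.integer := g1
    have hx2 : x2 ∈ v.integer := g2
    have hg : v (x1 ^ 2 + x1 * x2 + x2 ^ 2 + A) ≤ 1 := by
      show _ ∈ v.integer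
      (repeat' (first | assumption | exact ofNat_mem _ _ | exact one_mem _ | apply add_mem | apply sub_mem | apply mul_mem | apply pow_mem | apply neg_mem))
    have e : (x1 - x2) * (x1 ^ 2 + x1 * x2 + x2 ^ 2 + A) = d * y1 ^ 2 - d' * y2 ^ 2 := by
      linear_combination h2 - h1
    have e' := congrArg v e
    rw [map_mul, aniso v hd hd' hns] at e'
    rcases hg.eq_or_lt with hg | hg
    · obtain ⟨t, ht⟩ := hmax y1 y2
      exact ⟨t, by rw [← ht, ← e', hg, mul_one]⟩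
    exfalso
    have hy : v y1 < 1 := by
      have : v y1 ^ 2 < 1 := by
        refine (le_max_left _ (v y2 ^ 2)).trans_lt ?_
        rw [← e']
        exact mul_lt_one_of_lt_of_le hα hg.le
      exact (pow_lt_one_iff two_ne_zero).1 this
    have hc : v (3 * x1 ^ 2 + A) < 1 := by
      have : 3 * x1 ^ 2 + A = (x1 ^ 2 + x1 * x2 + x2 ^ 2 + A) + (x1 - x2) * (2 * x1 + x2) := by ring
      rw [this]
      refine v.map_add_lt hg ?_
      rw [map_mul]
      exact mul_lt_one_of_lt_of_le hα (show _ ∈ v.integer by (repeat' (first | assumption | exact ofNat_mem _ _ | exact one_mem _ | apply add_mem | apply sub_mem | apply mul_mem | apply pow_mem | apply neg_mem)))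
    have hy' : y1 ∈ v.integer := hy.le
    have hdd : d ∈ v.integer := hd.le
    have hD : 4 * A ^ 3 + 27 * B ^ 2 = (3 * x1 ^ 2 + A) ^ 2 * (4 * (3 * x1 ^ 2 + A) - 9 * x1 ^ 2) +
        y1 ^ 2 * (d * (27 * (d * y1 ^ 2) - 54 * x1 * (3 * x1 ^ 2 + A) + 108 * x1 ^ 3)) := by
      have hB' : B = d * y1 ^ 2 - x1 ^ 3 - A * x1 := by linear_combination -h1
      rw [hB']; ring
    have hle : v (4 * A ^ 3 + 27 * B ^ 2) ≤ max (v (3 * x1 ^ 2 + A) ^ 2) (v y1 ^ 2) := by
      rw [hD]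
      refine (v.map_add _ _).trans (max_le_max ?_ ?_) <;> rw [map_mul, map_pow] <;>
        exact mul_le_of_le_one_right' (show _ ∈ v.integer by (repeat' (first | assumption | exact ofNat_mem _ _ | exact one_mem _ | apply add_mem | apply sub_mem | apply mul_mem | apply pow_mem | apply neg_mem)))
    rcases max_choice (v (3 * x1 ^ 2 + A) ^ 2) (v y1 ^ 2) with h | h <;> rw [h] at hle
    · exact (hΔ _ hc).not_ge hle
    · exact (hΔ _ hy).not_ge hle

end generic

/-- a place with uniformiser `p` and residue field `ZMod p` -/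
structure Loc (K : Type*) [Field K] (p : ℕ) where
  v : Valuation K ℤᵐ⁰
  res : v.integer →+* ZMod p
  ker : ∀ z, res z = 0 ↔ v z < 1
  vp : v p = exp (-1)

namespace Loc

variable {p : ℕ} [Fact p.Prime] (L : Loc K p)

include L in
lemma p_ne : (p : K) ≠ 0 := by
  intro h
  have := L.vp
  rw [h, map_zero] at this
  exact exp_ne_zero this.symm

lemma v_zpow (e : ℤ) : L.v ((p : K) ^ e) = exp (-e) := by
  rw [map_zpow₀, L.vp, ← exp_zsmul]; simp

noncomputable def sym (α : K) : ℤ :=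
  open Classical in
  if h : L.v (α * (p : K) ^ log (L.v α)) ≤ 1 then quadraticChar (ZMod p) (L.res ⟨_, h⟩) else 0

lemma sym_eq {α : K} (e : ℤ) (z : L.v.integer) (hz : L.v z = 1) (h : α = (p : K) ^ e * z) :
    L.sym α = quadraticChar (ZMod p) (L.res z) := by
  have hv : L.v α = exp (-e) := by rw [h, map_mul, hz, mul_one, v_zpow]
  have e1 : α * (p : K) ^ log (L.v α) = z := by
    rw [hv, log_exp, h, zpow_neg]
    have := zpow_ne_zero e L.p_ne
    field_simp
  unfold sym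
  rw [dif_pos (by rw [e1]; exact hz.le)]
  congr 3

lemma exists_unit {α : K} (h : α ≠ 0) :
    ∃ (e : ℤ) (z : L.v.integer), L.v z = 1 ∧ α = (p : K) ^ e * z := by
  have hv : L.v α ≠ 0 := (Valuation.ne_zero_iff _).2 h
  have e1 : L.v (α * (p : K) ^ log (L.v α)) = 1 := by
    rw [map_mul, v_zpow, exp_neg, exp_log hv, mul_inv_cancel₀ hv]
  refine ⟨-log (L.v α), ⟨_, e1.le⟩, e1, ?_⟩
  have := zpow_ne_zero (log (L.v α)) L.p_ne
  rw [zpow_neg]
  field_simp

lemma res_ne {z : L.v.integer} (hz : L.v z = 1) : L.res z ≠ 0 := by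
  rw [Ne, L.ker, hz]; exact lt_irrefl _

lemma v_eq_one {z : L.v.integer} (hz : L.res z ≠ 0) : L.v z = 1 := by
  rw [Ne, L.ker, not_lt] at hz
  exact le_antisymm z.2 hz

lemma sym_unit (z : L.v.integer) (hz : L.v z = 1) :
    L.sym z = quadraticChar (ZMod p) (L.res z) := L.sym_eq 0 z hz (by simp)

lemma sym_mul {α β : K} (ha : α ≠ 0) (hb : β ≠ 0) : L.sym (α * β) = L.sym α * L.sym β := by
  obtain ⟨e, z, hz, h⟩ := L.exists_unit ha
  obtain ⟨e', z', hz', h'⟩ := L.exists_unit hb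
  rw [L.sym_eq e z hz h, L.sym_eq e' z' hz' h', L.sym_eq (e + e') (z * z') (by simp [hz, hz']),
    map_mul, map_mul]
  rw [h, h', zpow_add₀ L.p_ne]; push_cast; ring

lemma sym_dich {α : K} (ha : α ≠ 0) : L.sym α = 1 ∨ L.sym α = -1 := by
  obtain ⟨e, z, hz, h⟩ := L.exists_unit ha
  rw [L.sym_eq e z hz h]
  exact quadraticChar_dichotomy (L.res_ne hz)

lemma sym_sq {α : K} (ha : α ≠ 0) : L.sym (α ^ 2) = 1 := by
  rw [sq, L.sym_mul ha ha]
  rcases L.sym_dich ha with h | h <;> simp [h]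

lemma sym_p : L.sym p = 1 := by
  rw [L.sym_eq 1 1 (by simp) (by simp)]; simp

lemma sym_close {α β : K} (h : L.v (α - β) < L.v β) : L.sym α = L.sym β := by
  have hb : β ≠ 0 := by rintro rfl; simp at h
  obtain ⟨e, z, hz, h'⟩ := L.exists_unit hb
  have hp := zpow_ne_zero e L.p_ne
  have hlt : L.v (α / (p : K) ^ e - z) < 1 := by
    have : α / (p : K) ^ e - z = (α - β) / (p : K) ^ e := by rw [h']; field_simp
    rw [this, map_div₀, div_lt_one₀ ((Valuation.pos_iff _).2 hp)]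
    rwa [h', map_mul, hz, mul_one, ← h'] at h
  have hv : L.v (α / (p : K) ^ e) = 1 := by
    rw [← hz]; apply L.v.map_eq_of_sub_lt; rwa [hz]
  rw [L.sym_eq e z hz h', L.sym_eq e ⟨_, hv.le⟩ hv (by field_simp)]
  congr 1
  rw [← sub_eq_zero, ← map_sub, L.ker]
  exact hlt

lemma parity {d d' a b : K} (hd : L.v d = 1) (hd' : L.v d' = exp (-1)) (hb : b ≠ 0) :
    L.v (d * a ^ 2) ≠ L.v (d' * b ^ 2) := by
  intro h
  have hvb : L.v b ≠ 0 := (Valuation.ne_zero_iff _).2 hb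
  rw [map_mul, map_mul, hd, hd', map_pow, map_pow, one_mul] at h
  have hva : L.v a ≠ 0 := by
    intro h0
    rw [h0] at h
    exact mul_ne_zero (exp_ne_zero (a := (-1 : ℤ))) (pow_ne_zero 2 hvb) (by simpa using h.symm)
  rw [← exp_log hva, ← exp_log hvb, ← exp_nsmul, ← exp_nsmul, ← exp_add, exp_inj] at h
  simp only [nsmul_eq_mul] at h
  omega

lemma sym_form {d d' a b : K} (hm : L.sym (-1) = 1) (hd : L.v d = 1) (hd' : L.v d' = exp (-1))
    (sd : L.sym d = 1) (sd' : L.sym d' = 1) (hb : b ≠ 0) : L.sym (d * a ^ 2 - d' * b ^ 2) = 1 := by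
  have hd0 : d ≠ 0 := by rintro rfl; simp at hd
  have hd0' : d' ≠ 0 := by rintro rfl; rw [map_zero] at hd'; exact exp_ne_zero hd'.symm
  rcases lt_or_gt_of_ne (L.parity (a := a) hd hd' hb) with h | h
  · rw [L.sym_close (β := -1 * (d' * b ^ 2)), L.sym_mul (by simp) (by simp [hd0', hb]),
      L.sym_mul hd0' (pow_ne_zero 2 hb), hm, sd', L.sym_sq hb]
    · simp
    · simpa using h
  · have ha : a ≠ 0 := by rintro rfl; simp at h
    rw [L.sym_close (β := d * a ^ 2), L.sym_mul hd0 (pow_ne_zero 2 ha), sd, L.sym_sq ha]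
    · simp
    · simpa using h

/-- the local bit of a point of `d y^2 = c(x)` -/
def bit (d x : K) : Prop := L.v x ≤ 1 ∧ (L.v d = 1 → L.v x < 1 ∨ L.sym x = -1)

section pair

variable {A B : L.v.integer} {d d' x1 y1 x2 y2 : K}

lemma symA (hm : L.sym (-1) = 1) (hd : L.v d = 1) (hd' : L.v d' = exp (-1))
    (sd : L.sym d = 1) (sd' : L.sym d' = 1) (hy2 : y2 ≠ 0)
    (h1 : d * y1 ^ 2 = x1 ^ 3 + A * x1 + B) (h2 : d' * y2 ^ 2 = x2 ^ 3 + A * x2 + B)
    (g2 : 1 < L.v x2) : L.sym (x1 - x2) = 1 := by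
  have hx2 : x2 ≠ 0 := by rintro rfl; simp at g2
  have k2 := nonint L.v A.2 B.2 g2 h2
  have k2' := nonint_eq L.v A.2 B.2 g2 h2
  have hb := div_ne_zero hy2 hx2
  rcases lt_or_ge 1 (L.v x1) with g1 | g1
  · have k1 := nonint L.v A.2 B.2 g1 h1
    have k1' := nonint_eq L.v A.2 B.2 g1 h1
    rw [← L.sym_form (a := y1 / x1) hm hd hd' sd sd' hb]
    apply L.sym_close
    have e : x1 - x2 - (d * (y1 / x1) ^ 2 - d' * (y2 / x2) ^ 2) =
        (x1 - d * (y1 / x1) ^ 2) - (x2 - d' * (y2 / x2) ^ 2) := by ring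
    rw [e]
    refine (L.v.map_sub_lt k1 k2).trans ?_
    rcases lt_or_gt_of_ne (L.parity (a := y1 / x1) hd hd' hb) with h | h
    · rwa [L.v.map_sub_eq_of_lt_right h, k2']
    · rwa [L.v.map_sub_eq_of_lt_left h, k1']
  · rw [← L.sym_form (a := 0) hm hd hd' sd sd' hb]
    apply L.sym_close
    have e : x1 - x2 - (d * 0 ^ 2 - d' * (y2 / x2) ^ 2) = x1 - (x2 - d' * (y2 / x2) ^ 2) := by ring
    have e2 : d * 0 ^ 2 - d' * (y2 / x2) ^ 2 = -(d' * (y2 / x2) ^ 2) := by ring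
    rw [e, e2, L.v.map_neg, k2']
    exact (L.v.map_sub_le g1 k2.le).trans_lt g2

lemma res_c_zero (hd' : L.v d' = exp (-1)) (hy2 : y2 ≠ 0) (X : L.v.integer)
    (h2 : d' * y2 ^ 2 = (X : K) ^ 3 + A * X + B) :
    L.res X ^ 3 + L.res A * L.res X + L.res B = 0 := by
  by_contra hne
  have : L.v ((X ^ 3 + A * X + B : L.v.integer) : K) = 1 := L.v_eq_one (by simpa using hne)
  apply L.parity (d := 1) (a := 1) (by simp) hd' hy2
  rw [h2]
  simpa using this.symm

lemma nonint_T0 (hc : ∀ t, t ^ 3 + L.res A * t + L.res B ≠ 0) (hd' : L.v d' = exp (-1))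
    (hy2 : y2 ≠ 0) (h2 : d' * y2 ^ 2 = x2 ^ 3 + A * x2 + B) : 1 < L.v x2 := by
  by_contra hle
  push Not at hle
  exact hc _ (L.res_c_zero hd' hy2 ⟨x2, hle⟩ h2)

open Classical in
lemma symC (hm : L.sym (-1) = 1) (hB : L.res B = 0) (hA : ¬ IsSquare (-L.res A))
    (hd : L.v d = 1) (hd' : L.v d' = exp (-1))
    (sd : L.sym d = 1) (sd' : L.sym d' = 1) (hy1 : y1 ≠ 0) (hy2 : y2 ≠ 0)
    (h1 : d * y1 ^ 2 = x1 ^ 3 + A * x1 + B) (h2 : d' * y2 ^ 2 = x2 ^ 3 + A * x2 + B) :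
    L.sym (x1 - x2) = if L.bit d x1 ∧ L.bit d' x2 then -1 else 1 := by
  have hd0 : d ≠ 0 := by rintro rfl; simp at hd
  rcases lt_or_ge 1 (L.v x2) with g2 | g2
  · rw [if_neg (fun h => h.2.1.not_gt g2)]
    exact L.symA hm hd hd' sd sd' hy2 h1 h2 g2
  have hb2 : L.bit d' x2 := ⟨g2, fun h => by
    rw [hd', ← exp_zero, exp_inj] at h; omega⟩
  have hx2 : L.v x2 < 1 := by
    have := L.res_c_zero hd' hy2 ⟨x2, g2⟩ h2
    rw [hB] at this
    refine (L.ker ⟨x2, g2⟩).1 ?_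
    by_contra hne
    apply hA
    refine ⟨L.res ⟨x2, g2⟩, ?_⟩
    apply mul_left_cancel₀ hne
    linear_combination -this
  rcases lt_trichotomy 1 (L.v x1) with g1 | g1 | g1
  · rw [if_neg (fun h => h.1.1.not_gt g1)]
    have hx1 : x1 ≠ 0 := by rintro rfl; simp at g1
    have hb := div_ne_zero hy1 hx1
    rw [L.sym_close (β := d * (y1 / x1) ^ 2), L.sym_mul hd0 (pow_ne_zero 2 hb), sd, L.sym_sq hb]
    · simp
    · have e : x1 - x2 - d * (y1 / x1) ^ 2 = (x1 - d * (y1 / x1) ^ 2) - x2 := by ring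
      rw [e, nonint_eq L.v A.2 B.2 g1 h1]
      exact (L.v.map_sub_lt (nonint L.v A.2 B.2 g1 h1) hx2).trans g1
  · have hx1 : x1 ≠ 0 := by rintro rfl; simp at g1
    rw [L.sym_close (β := x1) (by simpa [← g1] using hx2)]
    rcases L.sym_dich hx1 with h | h
    · rw [if_neg, h]
      rintro ⟨⟨-, h'⟩, -⟩
      rcases h' hd with h' | h'
      · exact h'.ne g1.symm
      · rw [h] at h'; norm_num at h'
    · rw [if_pos ⟨⟨g1.ge, fun _ => Or.inr h⟩, hb2⟩, h]
  · rw [if_pos ⟨⟨g1.le, fun _ => Or.inl g1⟩, hb2⟩]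
    have hA0 : L.res A ≠ 0 := fun h => hA (by rw [h]; simp)
    have hvA := L.v_eq_one hA0
    have hA0' : (A : K) ≠ 0 := by intro h; rw [h] at hvA; simp at hvA
    have hsA : L.sym A = -1 := by
      have h3 : L.sym ((-A : L.v.integer) : K) = -1 := by
        rw [L.sym_unit _ (by simpa using hvA), map_neg]
        exact quadraticChar_neg_one_iff_not_isSquare.2 hA
      have h4 : ((-A : L.v.integer) : K) = -1 * A := by simp
      rwa [h4, L.sym_mul (by simp) hA0', hm, one_mul] at h3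
    have hcl : L.v (x1 ^ 2 + x1 * x2 + x2 ^ 2 + A - A) < L.v A := by
      rw [hvA, add_sub_cancel_right]
      refine L.v.map_add_lt (L.v.map_add_lt ?_ ?_) ?_
      · rw [map_pow]; exact pow_lt_one₀ zero_le g1 two_ne_zero
      · rw [map_mul]; exact mul_lt_one_of_lt_of_le g1 hx2.le
      · rw [map_pow]; exact pow_lt_one₀ zero_le hx2 two_ne_zero
    have hg := L.sym_close hcl
    have e : (x1 - x2) * (x1 ^ 2 + x1 * x2 + x2 ^ 2 + A) = d * y1 ^ 2 - d' * y2 ^ 2 := by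
      linear_combination h2 - h1
    have hne : d * y1 ^ 2 - d' * y2 ^ 2 ≠ 0 := fun h =>
      L.parity (a := y1) hd hd' hy2 (by rw [sub_eq_zero.1 h])
    have := L.sym_form (a := y1) hm hd hd' sd sd' hy2
    rw [← e] at this hne
    rw [L.sym_mul (left_ne_zero_of_mul hne) (right_ne_zero_of_mul hne), hg, hsA] at this
    linarith

end pair

end Loc

end Pool.Agent.Lib.MP_7cad78_nt.NF
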